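import Pool.Agent.Lib.P62g.Base

/-!
# Module P62g.Prod: finiteness of the support and the product formula

`B = integralClosure F[X] L`, `L/F(X)` finite, `F` algebraically closed of characteristic zero.

`val_finite`: a nonzero `x = a/b` (`a, b ∈ B` nonzero) has `v_p(x) ≠ 1` only at the finitely many
primes dividing `a` or `b` (Mathlib: `HeightOneSpectrum.Support.finite`, `Ideal.finite_factors` or
similar; `valuation_of_algebraMap`, `intValuation_lt_one_iff_dvd`, ...).

`sum_ord`: both sides are additive in `x ∈ Lˣ`, so it suffices to take `x ∈ B`, `x ≠ 0`.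
Then `span {x} = (normalizedFactors (span {x})).prod` and `- log (v_p x)` is the multiplicity
(count) of `p` in this multiset (`intValuation` is `exp (-count)`), so the left side is the
cardinality of the multiset (finsum = sum over the support). Right side: `Ideal.relNorm F[X]` is
multiplicative, `relNorm (span {x}) = span {intNorm x}`, and `algebraMap (intNorm x) = norm x`
(`Algebra.algebraMap_intNorm`), whose `intDegree` is the `natDegree` of `intNorm x`. For each
maximal `P` of `B` with `p = P ∩ F[X]`: `relNorm P = p ^ (inertiaDeg p P)`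
(`Ideal.relNorm_eq_pow_of_isMaximal`), `p = span {X - C t}` as `F` is algebraically closed, and
`inertiaDeg p P = 1` because `F → B ⧸ P` is already bijective (`B ⧸ P` is a finite field extension
of `F[X] ⧸ p ≃ F`; `IsAlgClosed.algebraMap_bijective_of_isIntegral`). Hence
`span {intNorm x} = span {∏ (X - C t_i)}` with as many factors as the multiset has elements, and
the degrees agree.  (`Ideal.finrank_quotient_span_eq_natDegree_norm` is an alternative.)
-/

namespace Pool.Agent.Lib.P62g

open Polynomial IsDedekindDomain WithZero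

variable {F L : Type*} [Field F] [IsAlgClosed F] [CharZero F] [Field L] [Algebra F[X] L]
  [Algebra (RatFunc F) L] [IsScalarTower F[X] (RatFunc F) L] [FiniteDimensional (RatFunc F) L]

namespace ProdAux

section prelim

variable {F : Type*} [Field F] [IsAlgClosed F]

/-- maximal ideals of `F[X]` -/
theorem exists_span (p : Ideal F[X]) (hp : p.IsMaximal) : ∃ t : F, p = Ideal.span {X - C t} := by
  have hne : p ≠ ⊥ := Ring.ne_bot_of_isMaximal_of_not_isField hp (Polynomial.not_isField F)
  have hprime := hp.isPrime
  have hg : p = Ideal.span {Submodule.IsPrincipal.generator p} :=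
    (Ideal.span_singleton_generator p).symm
  set g := Submodule.IsPrincipal.generator p with hgdef
  have hg0 : g ≠ 0 := by
    intro h0
    rw [h0] at hg
    exact hne (by rw [hg]; simp)
  have hirr : Irreducible g := by
    apply Prime.irreducible
    rw [← Ideal.span_singleton_prime hg0, ← hg]
    exact hprime
  have hdeg := IsAlgClosed.degree_eq_one_of_irreducible F hirr
  obtain ⟨t, ht⟩ := IsAlgClosed.exists_root g (by rw [hdeg]; exact one_ne_zero)
  refine ⟨t, ?_⟩
  rw [hg, Ideal.span_singleton_eq_span_singleton]
  have hdvd : X - C t ∣ g := Polynomial.dvd_iff_isRoot.2 ht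
  exact ((Polynomial.irreducible_X_sub_C t).associated_of_dvd hirr hdvd).symm

theorem finrank_one {K L : Type*} [Field K] [IsAlgClosed K] [Field L] [Algebra K L]
    [Algebra.IsIntegral K L] : Module.finrank K L = 1 := by
  have h := IsAlgClosed.algebraMap_bijective_of_isIntegral (k := K) (K := L)
  have e : K ≃ₗ[K] L := LinearEquiv.ofBijective (Algebra.linearMap K L) h
  rw [← e.finrank_eq, Module.finrank_self]

/-- the residue degrees are one -/
theorem inertia_one {B : Type*} [CommRing B] [Algebra F[X] B] [Module.Finite F[X] B]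
    (P : Ideal B) [hP : P.IsMaximal] (p : Ideal F[X]) [hp : p.IsMaximal] [P.LiesOver p] :
    P.inertiaDeg F[X] = 1 := by
  rw [Ideal.inertiaDeg_eq_of_isMaximal p P]
  let : Field (F[X] ⧸ p) := Ideal.Quotient.field p
  let : Field (B ⧸ P) := Ideal.Quotient.field P
  have : IsAlgClosed (F[X] ⧸ p) := by
    obtain ⟨t, ht⟩ := exists_span p hp
    have e : F ≃+* (F[X] ⧸ p) :=
      ((Polynomial.quotientSpanXSubCAlgEquiv t).symm.toRingEquiv).trans
        (Ideal.quotEquivOfEq ht.symm)
    exact IsAlgClosed.of_ringEquiv F _ e
  have : Algebra.IsIntegral (F[X] ⧸ p) (B ⧸ P) := inferInstance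
  exact finrank_one

end prelim

section dedekind

variable {F : Type*} [Field F] [IsAlgClosed F] [CharZero F] {B : Type*} [CommRing B]
  [IsDedekindDomain B] [Algebra F[X] B] [Module.Finite F[X] B] [Module.IsTorsionFree F[X] B]

theorem relNorm_prime (P : Ideal B) [P.IsMaximal] :
    ∃ t : F, Ideal.relNorm F[X] P = Ideal.span {X - C t} := by
  have hp : (P.under F[X]).IsMaximal := Ideal.IsMaximal.under F[X] P
  have hl : P.LiesOver (P.under F[X]) := Ideal.over_under P
  obtain ⟨t, ht⟩ := exists_span (P.under F[X]) hp
  refine ⟨t, ?_⟩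
  rw [Ideal.relNorm_eq_pow_of_isMaximal P (P.under F[X]), inertia_one P (P.under F[X]), pow_one,
    ht]

theorem sum_mult (x : B) (hx : x ≠ 0) :
    ∑ᶠ p : HeightOneSpectrum B, (multiplicity p.asIdeal (Ideal.span {x}) : ℤ) =
      ((Algebra.intNorm F[X] B x).natDegree : ℤ) := by
  classical
  set I : Ideal B := Ideal.span {x} with hI
  have hI0 : I ≠ ⊥ := by
    rw [hI, Ne, Ideal.span_singleton_eq_bot]
    exact hx
  have hfin := Ideal.finite_factors (R := B) (I := I) hI0
  set S := hfin.toFinset with hS
  have hm : ∀ p : HeightOneSpectrum B, p ∉ S → multiplicity p.asIdeal I = 0 := by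
    intro p hp
    have h1 : ¬ p.asIdeal ∣ I := by
      intro h
      exact hp (by rw [hS, Set.Finite.mem_toFinset]; exact h)
    exact multiplicity_eq_zero.2 h1
  have ht : ∀ p : HeightOneSpectrum B, ∃ t : F,
      Ideal.relNorm F[X] p.asIdeal = Ideal.span {X - C t} := by
    intro p
    have := p.isMaximal
    exact relNorm_prime p.asIdeal
  choose t ht using ht
  have hprod : ∏ p ∈ S, p.asIdeal ^ multiplicity p.asIdeal I = I := by
    rw [← finprod_eq_prod_of_mulSupport_subset (s := S)
      (fun p : HeightOneSpectrum B => p.asIdeal ^ multiplicity p.asIdeal I)]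
    · exact Ideal.finprod_heightOneSpectrum_pow_multiplicity hI0
    · intro p hp
      by_contra hc
      apply hp
      simp only
      rw [hm p hc, pow_zero]
  have h1 : Ideal.relNorm F[X] I =
      Ideal.span {∏ p ∈ S, (X - C (t p)) ^ multiplicity p.asIdeal I} := by
    conv_lhs => rw [← hprod]
    rw [map_prod, ← Ideal.prod_span_singleton]
    refine Finset.prod_congr rfl fun p _ => ?_
    rw [map_pow, ht p, Ideal.span_singleton_pow]
  rw [hI, Ideal.relNorm_singleton, ← hI, Ideal.span_singleton_eq_span_singleton] at h1
  have h2 := Polynomial.degree_eq_degree_of_associated h1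
  have h3 : (Algebra.intNorm F[X] B x).natDegree =
      ∑ p ∈ S, multiplicity p.asIdeal I := by
    rw [Polynomial.natDegree_eq_of_degree_eq h2, Polynomial.natDegree_prod]
    · refine Finset.sum_congr rfl fun p _ => ?_
      rw [Polynomial.natDegree_pow, Polynomial.natDegree_X_sub_C, mul_one]
    · intro p _
      exact pow_ne_zero _ (Polynomial.X_sub_C_ne_zero _)
  rw [h3, finsum_eq_sum_of_support_subset (s := S)]
  · push_cast
    rfl
  · intro p hp
    by_contra hc
    apply hp
    simp only
    rw [hm p hc]
    rfl

end dedekind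

section frac

variable {B : Type*} [CommRing B] [IsDedekindDomain B] {L : Type*} [Field L] [Algebra B L]
  [IsFractionRing B L]

theorem finite_dvd (a : B) (ha : a ≠ 0) :
    {p : HeightOneSpectrum B | p.asIdeal ∣ Ideal.span {a}}.Finite := by
  refine Ideal.finite_factors ?_
  rw [Ne, Ideal.zero_eq_bot, Ideal.span_singleton_eq_bot]
  exact ha

theorem int_eq_one (a : B) (p : HeightOneSpectrum B) (h : ¬ p.asIdeal ∣ Ideal.span {a}) :
    p.intValuation a = 1 := by
  have h1 := p.intValuation_le_one a
  rcases h1.lt_or_eq with h2 | h2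
  · exact absurd ((p.intValuation_lt_one_iff_dvd a).1 h2) h
  · exact h2

theorem exists_frac (x : L) (hx : x ≠ 0) : ∃ a b : B, a ≠ 0 ∧ b ≠ 0 ∧
    x = algebraMap B L a / algebraMap B L b := by
  obtain ⟨a, b, hb, hab⟩ := IsFractionRing.div_surjective B x
  have hb0 : b ≠ 0 := nonZeroDivisors.ne_zero hb
  refine ⟨a, b, ?_, hb0, hab.symm⟩
  rintro rfl
  apply hx
  rw [← hab, map_zero, zero_div]

theorem val_finite' (x : L) (hx : x ≠ 0) :
    {p : HeightOneSpectrum B | p.valuation L x ≠ 1}.Finite := by
  obtain ⟨a, b, ha, hb, rfl⟩ := exists_frac (B := B) x hx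
  refine ((finite_dvd a ha).union (finite_dvd b hb)).subset ?_
  intro p hp
  by_contra hc
  rw [Set.mem_union, not_or] at hc
  apply hp
  rw [map_div₀, HeightOneSpectrum.valuation_of_algebraMap,
    HeightOneSpectrum.valuation_of_algebraMap, int_eq_one a p hc.1, int_eq_one b p hc.2, div_one]

theorem log_int (a : B) (ha : a ≠ 0) (p : HeightOneSpectrum B) :
    WithZero.log (p.intValuation a) = -(multiplicity p.asIdeal (Ideal.span {a}) : ℤ) := by
  rw [p.intValuation_eq_exp_neg_multiplicity ha, WithZero.log_exp]

theorem log_frac (a b : B) (ha : a ≠ 0) (hb : b ≠ 0) (p : HeightOneSpectrum B) :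
    -(WithZero.log (p.valuation L (algebraMap B L a / algebraMap B L b))) =
      (multiplicity p.asIdeal (Ideal.span {a}) : ℤ) -
        (multiplicity p.asIdeal (Ideal.span {b}) : ℤ) := by
  rw [map_div₀, HeightOneSpectrum.valuation_of_algebraMap,
    HeightOneSpectrum.valuation_of_algebraMap,
    WithZero.log_div (p.intValuation_ne_zero a ha) (p.intValuation_ne_zero b hb),
    log_int a ha, log_int b hb]
  ring

theorem finite_mult (a : B) (ha : a ≠ 0) :
    (Function.support fun p : HeightOneSpectrum B =>
      (multiplicity p.asIdeal (Ideal.span {a}) : ℤ)).Finite := by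
  refine (finite_dvd a ha).subset ?_
  intro p hp
  by_contra hc
  apply hp
  simp only
  rw [multiplicity_eq_zero.2 hc]
  rfl

end frac

end ProdAux

omit [IsAlgClosed F] in
theorem val_finite (x : L) (hx : x ≠ 0) :
    {p : HeightOneSpectrum (integralClosure F[X] L) | p.valuation L x ≠ 1}.Finite :=
  ProdAux.val_finite' x hx

theorem sum_ord (x : L) (hx : x ≠ 0) :
    ∑ᶠ p : HeightOneSpectrum (integralClosure F[X] L), -(WithZero.log (p.valuation L x)) =
      (Algebra.norm (RatFunc F) x).intDegree := by
  have hfin : Module.Finite F[X] (integralClosure F[X] L) :=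
    IsIntegralClosure.finite F[X] (RatFunc F) L _
  have hinj : Function.Injective (algebraMap F[X] (integralClosure F[X] L)) := by
    have h1 : Function.Injective (algebraMap F[X] L) := by
      rw [IsScalarTower.algebraMap_eq F[X] (RatFunc F) L]
      exact (algebraMap (RatFunc F) L).injective.comp (IsFractionRing.injective F[X] (RatFunc F))
    rw [IsScalarTower.algebraMap_eq F[X] (integralClosure F[X] L) L] at h1
    rw [RingHom.coe_comp] at h1
    exact Function.Injective.of_comp h1
  have hfs : FaithfulSMul F[X] (integralClosure F[X] L) :=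
    (faithfulSMul_iff_algebraMap_injective _ _).2 hinj
  have htf : Module.IsTorsionFree F[X] (integralClosure F[X] L) :=
    Module.IsTorsionFree.trans_faithfulSMul F[X] (integralClosure F[X] L)
      (integralClosure F[X] L)
  obtain ⟨a, b, ha, hb, rfl⟩ := ProdAux.exists_frac (B := integralClosure F[X] L) x hx
  have h1 : (fun p : HeightOneSpectrum (integralClosure F[X] L) =>
      -(WithZero.log (p.valuation L (algebraMap (integralClosure F[X] L) L a /
        algebraMap (integralClosure F[X] L) L b)))) = fun p =>
      (multiplicity p.asIdeal (Ideal.span {a}) : ℤ) -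
        (multiplicity p.asIdeal (Ideal.span {b}) : ℤ) := by
    funext p
    exact ProdAux.log_frac a b ha hb p
  rw [h1, finsum_sub_distrib (ProdAux.finite_mult a ha) (ProdAux.finite_mult b hb),
    ProdAux.sum_mult (F := F) a ha, ProdAux.sum_mult (F := F) b hb]
  have h2 : ∀ c : integralClosure F[X] L, c ≠ 0 →
      Algebra.norm (RatFunc F) (algebraMap (integralClosure F[X] L) L c) ≠ 0 := by
    intro c hc
    rw [Algebra.norm_ne_zero_iff]
    intro h
    exact hc (IsFractionRing.injective (integralClosure F[X] L) L (by rw [h, map_zero]))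
  have h3 : Algebra.norm (RatFunc F) (algebraMap (integralClosure F[X] L) L a /
      algebraMap (integralClosure F[X] L) L b) =
      Algebra.norm (RatFunc F) (algebraMap (integralClosure F[X] L) L a) /
      Algebra.norm (RatFunc F) (algebraMap (integralClosure F[X] L) L b) := by
    rw [eq_div_iff (h2 b hb), ← map_mul, div_mul_cancel₀]
    intro h
    exact hb (IsFractionRing.injective (integralClosure F[X] L) L (by rw [h, map_zero]))
  rw [h3, RatFunc.intDegree_div (h2 a ha) (h2 b hb), ← Algebra.algebraMap_intNorm (A := F[X]),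
    ← Algebra.algebraMap_intNorm (A := F[X]), RatFunc.intDegree_polynomial,
    RatFunc.intDegree_polynomial]

end Pool.Agent.Lib.P62g
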