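import Pool.Agent.Lib.P62a0c3.Scale

/-!
# Module P62g.Crit: the critical points of a bicritical map lie in a quadratic extension

(imports P62a0c3 as a black box: `toP1 p q = [p : q]`, `bic α β γ δ d : x ↦ (αx^d+β)/(γx^d+δ)` on
`OnePoint K`, `const_matrix`.)
`K` is an algebraic closure of `k`, characteristic zero, `f : ℙ¹(K) → ℙ¹(K)` commutes with
`Gal(K/k)` and maps `ℙ¹(E)` to itself for each intermediate field `E` (this is what being defined over
`k` gives), and `f = A ∘ (x ↦ x ^ d) ∘ B` with Möbius maps `A, B` over `K`, `d ≥ 2`: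
for every `u, v` not both zero,
`f [B⁻¹(u:v)] = [α u^d + β v^d : γ u^d + δ v^d]`; here `B⁻¹` is given by the matrix `(a b; c e)`,
so `hf` reads `f (toP1 (a u + b v) (c u + e v)) = toP1 (α u^d + β v^d) (γ u^d + δ v^d)`.

Claim: there are an intermediate field `E` with `[E : k] ≤ 2` and Möbius maps `M` (matrix
`(a' b'; c' e')`) and coefficients `α' β' γ' δ'`, all over `E`, with
`M (f x) = bic α' β' γ' δ' d (M x)` for all `x`.

Proof. Totally ramified points: `c ∈ ℙ¹(K)` with `∀ x, f x = f c → x = c`. Since `d ≥ 2` and `K` is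
algebraically closed of characteristic zero these are exactly the two distinct points
`c₁ = B⁻¹(0) = toP1 b e` and `c₂ = B⁻¹(∞) = toP1 a c`
(for `u v ≠ 0` the points `(ζu : v)`, `ζ^d = 1`, have the same image). `Gal(K/k)` (= `K ≃ₐ[k] K`)
permutes `{c₁, c₂}`. So a finite `c_i` has at most two conjugates, `[k(c_i) : k] ≤ 2`
(roots of `minpoly k c` are conjugates: `IsAlgClosed`/`Normal`: `minpoly.exists_algEquiv_of_root`
or `exists_algHom_of_splits…`; separable as char 0). Take `E = k(c₁)` if `c₁` is finite, else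
`E = k(c₂)`; both points are defined over `E`: if `c₁ ∉ k` its two conjugates are `c₁, c₂`, their
sum is in `k`; if `c₁ ∈ k` (or `= ∞`) then `c₂` is fixed by the Galois group, so in `k` or `∞`.
Let `M` be a Möbius map over `E` with `M c₁ = 0`, `M c₂ = ∞` (four cases whether `c_i` is `∞`:
`(x - c₁)/(x - c₂)`, `x - c₁`, `1/(x - c₂)`). Then `N = B ∘ M⁻¹` fixes `{0}` and `{∞}` so it is
`x ↦ λ x` (matrix diagonal), and `M ∘ f ∘ M⁻¹ = (M A) ∘ (x ↦ λ^d x^d)` is
`x ↦ (α' x^d + β')/(γ' x^d + δ')` with `α', … ∈ K`, `α'δ' - β'γ' ≠ 0`. It maps `ℙ¹(E)` to itself;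
evaluate at `x = 1, 2, 3, 4 ∈ ℚ ⊆ E`: the `d`-th powers are distinct, at most one of the four values
is `∞`, so for three distinct `u_i = x_i^d ∈ E` we have
`α' u_i + β' = v_i (γ' u_i + δ')` with `v_i ∈ E`, and `const_matrix` (with `F := E`, `K := K`) gives
`(α',β',γ',δ') = l (α₀,β₀,γ₀,δ₀)` with entries `α₀,… ∈ E`, `l ≠ 0`; `bic` does not change if the
coefficients are scaled by `l` (`toP1_mul`).
-/

namespace Pool.Agent.Lib.P62g

open Pool.Agent.Lib.P62a0c3 IntermediateField

namespace CritAux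

section basic

variable {L : Type*} [Field L]

theorem eq_imp {p q p' q' : L} (h : toP1 p q = toP1 p' q') : p * q' = p' * q := by
  unfold toP1 at h
  by_cases hq : q = 0
  · by_cases hq' : q' = 0
    · rw [hq, hq']; ring
    · rw [if_pos hq, if_neg hq'] at h
      exact absurd h.symm (OnePoint.coe_ne_infty _)
  · by_cases hq' : q' = 0
    · rw [if_neg hq, if_pos hq'] at h
      exact absurd h (OnePoint.coe_ne_infty _)
    · rw [if_neg hq, if_neg hq'] at h
      exact (div_eq_div_iff hq hq').1 (OnePoint.coe_injective h)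

theorem eq_of {p q p' q' : L} (h1 : p ≠ 0 ∨ q ≠ 0) (h2 : p' ≠ 0 ∨ q' ≠ 0)
    (h : p * q' = p' * q) : toP1 p q = toP1 p' q' := by
  unfold toP1
  by_cases hq : q = 0
  · have hp : p ≠ 0 := by
      rcases h1 with h1 | h1
      · exact h1
      · exact absurd hq h1
    have hq' : q' = 0 := by
      rw [hq, mul_zero] at h
      exact (mul_eq_zero.1 h).resolve_left hp
    rw [if_pos hq, if_pos hq']
  · have hq' : q' ≠ 0 := by
      rintro rfl
      rw [mul_zero] at h
      have hp' : p' = 0 := (mul_eq_zero.1 h.symm).resolve_right hq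
      rcases h2 with h2 | h2
      · exact h2 hp'
      · exact h2 rfl
    rw [if_neg hq, if_neg hq', (div_eq_div_iff hq hq').2 h]

theorem exists_rep (x : OnePoint L) : ∃ u v : L, (u ≠ 0 ∨ v ≠ 0) ∧ x = toP1 u v := by
  induction x using OnePoint.rec with
  | infty => exact ⟨1, 0, Or.inl one_ne_zero, by simp [toP1]⟩
  | coe z => exact ⟨z, 1, Or.inr one_ne_zero, by simp [toP1]⟩

theorem map_toP1 {F : Type*} [Field F] (φ : F → L) (h0 : ∀ x, φ x = 0 ↔ x = 0)
    (hdiv : ∀ x y, φ (x / y) = φ x / φ y) (u v : F) :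
    OnePoint.map φ (toP1 u v) = toP1 (φ u) (φ v) := by
  unfold toP1
  by_cases hv : v = 0
  · rw [if_pos hv, if_pos ((h0 v).2 hv)]
    rfl
  · rw [if_neg hv, if_neg (fun h => hv ((h0 v).1 h)), ← hdiv]
    rfl

theorem mat_ne {a b c e u v : L} (hB : a * e - b * c ≠ 0) (h : u ≠ 0 ∨ v ≠ 0) :
    a * u + b * v ≠ 0 ∨ c * u + e * v ≠ 0 := by
  by_contra hcon
  push Not at hcon
  obtain ⟨h1, h2⟩ := hcon
  have hu : (a * e - b * c) * u = 0 := by linear_combination e * h1 - b * h2
  have hv : (a * e - b * c) * v = 0 := by linear_combination a * h2 - c * h1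
  rcases h with h | h
  · exact h ((mul_eq_zero.1 hu).resolve_left hB)
  · exact h ((mul_eq_zero.1 hv).resolve_left hB)

theorem mat_surj {a b c e : L} (hB : a * e - b * c ≠ 0) (X Y : L) :
    ∃ u v : L, X = a * u + b * v ∧ Y = c * u + e * v := by
  refine ⟨(e * X - b * Y) / (a * e - b * c), (a * Y - c * X) / (a * e - b * c), ?_, ?_⟩
  · rw [← mul_div_assoc, ← mul_div_assoc, ← add_div, eq_div_iff hB]
    ring
  · rw [← mul_div_assoc, ← mul_div_assoc, ← add_div, eq_div_iff hB]
    ring

theorem mat_congr {a b c e u v u' v' : L} (hB : a * e - b * c ≠ 0) (h : u ≠ 0 ∨ v ≠ 0)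
    (h' : u' ≠ 0 ∨ v' ≠ 0) (hh : toP1 u v = toP1 u' v') :
    toP1 (a * u + b * v) (c * u + e * v) = toP1 (a * u' + b * v') (c * u' + e * v') := by
  apply eq_of (mat_ne hB h) (mat_ne hB h')
  have := eq_imp hh
  linear_combination (a * e - b * c) * this

theorem bic_toP1 (α β γ δ : L) {d : ℕ} (hd : d ≠ 0) {u v : L} (h : u ≠ 0 ∨ v ≠ 0) :
    bic α β γ δ d (toP1 u v) = toP1 (α * u ^ d + β * v ^ d) (γ * u ^ d + δ * v ^ d) := by
  by_cases hv : v = 0
  · have hu : u ≠ 0 := by
      rcases h with h | h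
      · exact h
      · exact absurd hv h
    have : toP1 u v = OnePoint.infty := by rw [toP1, if_pos hv]
    rw [this, bic_infty, hv, zero_pow hd, mul_zero, mul_zero, add_zero, add_zero,
      ← toP1_mul (u ^ d) α γ (pow_ne_zero d hu)]
    congr 1 <;> ring
  · have : toP1 u v = ((u / v : L) : OnePoint L) := by rw [toP1, if_neg hv]
    rw [this, bic_some, ← toP1_mul (v ^ d) _ _ (pow_ne_zero d hv), div_pow]
    have hvd := pow_ne_zero d hv
    congr 1 <;> field_simp

end basic

section gal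

variable {k K : Type*} [Field k] [Field K] [Algebra k K]

theorem map_sigma (σ : K ≃ₐ[k] K) (u v : K) :
    OnePoint.map σ (toP1 u v) = toP1 (σ u) (σ v) :=
  map_toP1 σ (fun x => by simp) (fun x y => map_div₀ σ x y) u v

theorem map_symm_map (σ : K ≃ₐ[k] K) (x : OnePoint K) :
    OnePoint.map σ.symm (OnePoint.map σ x) = x := by
  obtain ⟨u, v, -, rfl⟩ := exists_rep x
  rw [map_sigma, map_sigma, AlgEquiv.symm_apply_apply, AlgEquiv.symm_apply_apply]

theorem map_map_symm (σ : K ≃ₐ[k] K) (x : OnePoint K) :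
    OnePoint.map σ (OnePoint.map σ.symm x) = x := by
  obtain ⟨u, v, -, rfl⟩ := exists_rep x
  rw [map_sigma, map_sigma, AlgEquiv.apply_symm_apply, AlgEquiv.apply_symm_apply]

end gal

section ram

variable {k K : Type*} [Field k] [CharZero k] [Field K] [IsAlgClosed K] [Algebra k K]

/-- the point `x` is alone in its fibre -/
def Ram (f : OnePoint K → OnePoint K) (x : OnePoint K) : Prop := ∀ y, f y = f x → y = x

theorem ram_sigma {f : OnePoint K → OnePoint K}
    (hgal : ∀ (σ : K ≃ₐ[k] K) (x : OnePoint K), f (OnePoint.map σ x) = OnePoint.map σ (f x))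
    (σ : K ≃ₐ[k] K) {x : OnePoint K} (h : Ram f x) : Ram f (OnePoint.map σ x) := by
  intro y hy
  have h1 : f (OnePoint.map σ.symm y) = f x := by
    rw [hgal, hy, hgal, map_symm_map]
  rw [← h _ h1, map_map_symm]

variable {d : ℕ} (hd : 2 ≤ d) (f : OnePoint K → OnePoint K)
  {a b c e α β γ δ : K} (hB : a * e - b * c ≠ 0) (hA : α * δ - β * γ ≠ 0)
  (hf : ∀ u v : K, (u ≠ 0 ∨ v ≠ 0) →
    f (toP1 (a * u + b * v) (c * u + e * v)) = toP1 (α * u ^ d + β * v ^ d) (γ * u ^ d + δ * v ^ d))

include hd hB hf in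
theorem f_c1 : f (toP1 b e) = toP1 β δ := by
  have hd0 : d ≠ 0 := by omega
  have := hf 0 1 (Or.inr one_ne_zero)
  simpa [hd0] using this

include hd hB hf in
theorem f_c2 : f (toP1 a c) = toP1 α γ := by
  have hd0 : d ≠ 0 := by omega
  have := hf 1 0 (Or.inl one_ne_zero)
  simpa [hd0] using this

include hd hB hA hf in
theorem ram_c1 : Ram f (toP1 b e) := by
  intro y hy
  obtain ⟨X, Y, hXY, rfl⟩ := exists_rep y
  obtain ⟨u, v, rfl, rfl⟩ := mat_surj hB X Y
  have huv : u ≠ 0 ∨ v ≠ 0 := by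
    by_contra hcon
    push Not at hcon
    obtain ⟨rfl, rfl⟩ := hcon
    simp at hXY
  rw [hf u v huv, f_c1 hd f hB hf] at hy
  have h1 := eq_imp hy
  have h2 : (α * δ - β * γ) * u ^ d = 0 := by linear_combination h1
  have hu : u = 0 := pow_eq_zero_iff (by omega) |>.1 ((mul_eq_zero.1 h2).resolve_left hA)
  have hv : v ≠ 0 := by
    rcases huv with h | h
    · exact absurd hu h
    · exact h
  rw [hu, mul_zero, mul_zero, zero_add, zero_add, ← toP1_mul v b e hv, mul_comm v b, mul_comm v e]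

include hd hB hA hf in
theorem ram_c2 : Ram f (toP1 a c) := by
  intro y hy
  obtain ⟨X, Y, hXY, rfl⟩ := exists_rep y
  obtain ⟨u, v, rfl, rfl⟩ := mat_surj hB X Y
  have huv : u ≠ 0 ∨ v ≠ 0 := by
    by_contra hcon
    push Not at hcon
    obtain ⟨rfl, rfl⟩ := hcon
    simp at hXY
  rw [hf u v huv, f_c2 hd f hB hf] at hy
  have h1 := eq_imp hy
  have h2 : (α * δ - β * γ) * v ^ d = 0 := by linear_combination -h1
  have hv : v = 0 := pow_eq_zero_iff (by omega) |>.1 ((mul_eq_zero.1 h2).resolve_left hA)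
  have hu : u ≠ 0 := by
    rcases huv with h | h
    · exact h
    · exact absurd hv h
  rw [hv, mul_zero, mul_zero, add_zero, add_zero, ← toP1_mul u a c hu, mul_comm u a, mul_comm u c]

include hd hB hf in
theorem ram_only [CharZero K] {x : OnePoint K} (h : Ram f x) : x = toP1 b e ∨ x = toP1 a c := by
  obtain ⟨X, Y, hXY, rfl⟩ := exists_rep x
  obtain ⟨u, v, rfl, rfl⟩ := mat_surj hB X Y
  have huv : u ≠ 0 ∨ v ≠ 0 := by
    by_contra hcon
    push Not at hcon
    obtain ⟨rfl, rfl⟩ := hcon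
    simp at hXY
  by_cases hu : u = 0
  · left
    have hv : v ≠ 0 := by
      rcases huv with h | h
      · exact absurd hu h
      · exact h
    rw [hu, mul_zero, mul_zero, zero_add, zero_add, ← toP1_mul v b e hv, mul_comm v b, mul_comm v e]
  by_cases hv : v = 0
  · right
    rw [hv, mul_zero, mul_zero, add_zero, add_zero, ← toP1_mul u a c hu, mul_comm u a, mul_comm u c]
  exfalso
  haveI : NeZero ((d : ℕ) : K) := ⟨Nat.cast_ne_zero.2 (by omega)⟩
  obtain ⟨ζ, hζ⟩ := HasEnoughRootsOfUnity.exists_primitiveRoot K d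
  have h1 : ζ ≠ 1 := hζ.ne_one (by omega)
  have h2 : ζ ^ d = 1 := hζ.pow_eq_one
  have h3 : f (toP1 (a * (ζ * u) + b * v) (c * (ζ * u) + e * v)) =
      f (toP1 (a * u + b * v) (c * u + e * v)) := by
    rw [hf _ _ (Or.inr hv), hf _ _ (Or.inr hv), mul_pow, h2, one_mul]
  have h4 := eq_imp (h _ h3)
  have h5 : (ζ - 1) * (u * v * (a * e - b * c)) = 0 := by linear_combination h4
  rcases mul_eq_zero.1 h5 with h6 | h6
  · exact h1 (sub_eq_zero.1 h6)
  · exact (mul_ne_zero (mul_ne_zero hu hv) hB) h6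

end ram

section field

variable {k K : Type*} [Field k] [CharZero k] [Field K] [IsAlgClosed K] [Algebra k K]
  [Algebra.IsAlgebraic k K]

theorem fixed {x : K} (h : ∀ σ : K ≃ₐ[k] K, σ x = x) : ∃ y : k, algebraMap k K y = x := by
  haveI : IsAlgClosure k K := ⟨inferInstance, inferInstance⟩
  haveI : IsGalois k K := IsAlgClosure.isGalois k K
  exact (InfiniteGalois.mem_range_algebraMap_iff_fixed x).2 h

theorem coe_toP1 (z : K) : ((z : K) : OnePoint K) = toP1 z 1 := by simp [toP1]

/-- the field of definition of the two points -/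
theorem stepA {a b c e : K} (hB : a * e - b * c ≠ 0)
    (h1 : ∀ σ : K ≃ₐ[k] K, OnePoint.map σ (toP1 b e) = toP1 b e ∨
      OnePoint.map σ (toP1 b e) = toP1 a c)
    (h2 : ∀ σ : K ≃ₐ[k] K, OnePoint.map σ (toP1 a c) = toP1 b e ∨
      OnePoint.map σ (toP1 a c) = toP1 a c) :
    ∃ (E : IntermediateField k K) (p1 q1 p2 q2 : E),
      0 < Module.finrank k E ∧ Module.finrank k E ≤ 2 ∧ p1 * q2 - p2 * q1 ≠ 0 ∧
      b * q1 = p1 * e ∧ a * q2 = p2 * c := by
  by_cases he : e = 0
  · -- the first point is infinite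
    have hbc : b * c ≠ 0 := by
      rw [he, mul_zero, zero_sub] at hB
      exact neg_ne_zero.1 hB
    have hc : c ≠ 0 := right_ne_zero_of_mul hbc
    have hb : b ≠ 0 := left_ne_zero_of_mul hbc
    obtain ⟨y, hy⟩ := fixed (k := k) (x := a / c) (fun σ => by
      have h3 : OnePoint.map σ (toP1 a c) = ((σ (a / c) : K) : OnePoint K) := by
        have : toP1 a c = ((a / c : K) : OnePoint K) := by rw [toP1, if_neg hc]
        rw [this]
        rfl
      rcases h2 σ with h | h
      · rw [h3, toP1, if_pos he] at h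
        exact absurd h (OnePoint.coe_ne_infty _)
      · rw [h3, toP1, if_neg hc] at h
        exact OnePoint.coe_injective h)
    refine ⟨⊥, 1, 0, algebraMap k _ y, 1, ?_, ?_, ?_, ?_, ?_⟩
    · rw [IntermediateField.finrank_bot]; exact one_pos
    · rw [IntermediateField.finrank_bot]; exact one_le_two
    · simp
    · rw [he]; simp
    · have h4 : ((algebraMap k (⊥ : IntermediateField k K) y : (⊥ : IntermediateField k K)) : K) =
          a / c := by
        rw [← hy]; rfl
      rw [h4]
      simp only [IntermediateField.coe_one, mul_one]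
      field_simp
  by_cases hc : c = 0
  · have hae : a * e ≠ 0 := by
      rw [hc, mul_zero, sub_zero] at hB
      exact hB
    obtain ⟨y, hy⟩ := fixed (k := k) (x := b / e) (fun σ => by
      have h3 : OnePoint.map σ (toP1 b e) = ((σ (b / e) : K) : OnePoint K) := by
        have : toP1 b e = ((b / e : K) : OnePoint K) := by rw [toP1, if_neg he]
        rw [this]
        rfl
      rcases h1 σ with h | h
      · rw [h3, toP1, if_neg he] at h
        exact OnePoint.coe_injective h
      · rw [h3, toP1, if_pos hc] at h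
        exact absurd h (OnePoint.coe_ne_infty _))
    refine ⟨⊥, algebraMap k _ y, 1, 1, 0, ?_, ?_, ?_, ?_, ?_⟩
    · rw [IntermediateField.finrank_bot]; exact one_pos
    · rw [IntermediateField.finrank_bot]; exact one_le_two
    · simp
    · have h4 : ((algebraMap k (⊥ : IntermediateField k K) y : (⊥ : IntermediateField k K)) : K) =
          b / e := by
        rw [← hy]; rfl
      rw [h4]
      simp only [IntermediateField.coe_one, mul_one]
      field_simp
    · rw [hc]; simp
  -- both points are finite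
  set p := b / e with hp
  set q := a / c with hq
  have hpP : toP1 b e = ((p : K) : OnePoint K) := by rw [toP1, if_neg he]
  have hqP : toP1 a c = ((q : K) : OnePoint K) := by rw [toP1, if_neg hc]
  have hbp : b = p * e := by rw [hp]; field_simp
  have haq : a = q * c := by rw [hq]; field_simp
  have hpq : p ≠ q := by
    intro h
    apply hB
    rw [hbp, haq, h]
    ring
  have g1 : ∀ σ : K ≃ₐ[k] K, σ p = p ∨ σ p = q := by
    intro σ
    have := h1 σ
    rw [hpP, hqP] at this
    rcases this with h | h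
    · exact Or.inl (OnePoint.coe_injective h)
    · exact Or.inr (OnePoint.coe_injective h)
  have g2 : ∀ σ : K ≃ₐ[k] K, σ q = p ∨ σ q = q := by
    intro σ
    have := h2 σ
    rw [hpP, hqP] at this
    rcases this with h | h
    · exact Or.inl (OnePoint.coe_injective h)
    · exact Or.inr (OnePoint.coe_injective h)
  have g3 : ∀ σ : K ≃ₐ[k] K, (σ p = p ∧ σ q = q) ∨ (σ p = q ∧ σ q = p) := by
    intro σ
    rcases g1 σ with h | h
    · rcases g2 σ with h' | h'
      · exact absurd (σ.injective (h.trans h'.symm)) hpq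
      · exact Or.inl ⟨h, h'⟩
    · rcases g2 σ with h' | h'
      · exact Or.inr ⟨h, h'⟩
      · exact absurd (σ.injective (h.trans h'.symm)) hpq
  obtain ⟨s, hs⟩ := fixed (k := k) (x := p + q) (fun σ => by
    rw [map_add]
    rcases g3 σ with ⟨h, h'⟩ | ⟨h, h'⟩
    · rw [h, h']
    · rw [h, h']; ring)
  obtain ⟨t, ht⟩ := fixed (k := k) (x := p * q) (fun σ => by
    rw [map_mul]
    rcases g3 σ with ⟨h, h'⟩ | ⟨h, h'⟩
    · rw [h, h']
    · rw [h, h']; ring)
  have hint : IsIntegral k p := (Algebra.IsAlgebraic.isAlgebraic p).isIntegral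
  have hpE : p ∈ IntermediateField.adjoin k ({p} : Set K) :=
    IntermediateField.subset_adjoin k _ rfl
  have hqE : q ∈ IntermediateField.adjoin k ({p} : Set K) := by
    have : q = algebraMap k K s - p := by rw [hs]; ring
    rw [this]
    exact sub_mem (IntermediateField.algebraMap_mem _ _) hpE
  have hfin : Module.finrank k (IntermediateField.adjoin k ({p} : Set K)) ≤ 2 := by
    rw [IntermediateField.adjoin.finrank hint]
    have hmon : (Polynomial.X ^ 2 - Polynomial.C s * Polynomial.X + Polynomial.C t :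
        Polynomial k).natDegree = 2 := by
      compute_degree!
    have hne : (Polynomial.X ^ 2 - Polynomial.C s * Polynomial.X + Polynomial.C t :
        Polynomial k) ≠ 0 := by
      intro h
      rw [h] at hmon
      simp at hmon
    have hdvd : minpoly k p ∣ (Polynomial.X ^ 2 - Polynomial.C s * Polynomial.X + Polynomial.C t :
        Polynomial k) := by
      apply minpoly.dvd
      simp only [map_add, map_sub, map_pow, map_mul, Polynomial.aeval_X, Polynomial.aeval_C]
      rw [hs, ht]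
      ring
    rw [← hmon]
    exact Polynomial.natDegree_le_of_dvd hdvd hne
  have hpos : 0 < Module.finrank k (IntermediateField.adjoin k ({p} : Set K)) := by
    rw [IntermediateField.adjoin.finrank hint]
    exact minpoly.natDegree_pos hint
  refine ⟨IntermediateField.adjoin k ({p} : Set K), ⟨p, hpE⟩, 1, ⟨q, hqE⟩, 1, hpos, hfin, ?_, ?_, ?_⟩
  · rw [mul_one, mul_one]
    intro h
    apply hpq
    have := congrArg (fun z : IntermediateField.adjoin k ({p} : Set K) => (z : K)) h
    simpa [sub_eq_zero] using this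
  · simp only [IntermediateField.coe_one, mul_one]
    exact hbp
  · simp only [IntermediateField.coe_one, mul_one]
    exact haq

end field

/-- three good places among `1, 2, 3, 4` -/
theorem three {P : ℕ → Prop} (h : ∀ i j, 0 < i → 0 < j → i ≠ j → ¬ P i → P j) :
    ∃ i j l : ℕ, 0 < i ∧ 0 < j ∧ 0 < l ∧ i ≠ j ∧ i ≠ l ∧ j ≠ l ∧ P i ∧ P j ∧ P l := by
  classical
  by_cases h1 : P 1
  · by_cases h2 : P 2
    · by_cases h3 : P 3
      · exact ⟨1, 2, 3, by norm_num, by norm_num, by norm_num, by norm_num, by norm_num,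
          by norm_num, h1, h2, h3⟩
      · exact ⟨1, 2, 4, by norm_num, by norm_num, by norm_num, by norm_num, by norm_num,
          by norm_num, h1, h2, h 3 4 (by norm_num) (by norm_num) (by norm_num) h3⟩
    · exact ⟨1, 3, 4, by norm_num, by norm_num, by norm_num, by norm_num, by norm_num,
        by norm_num, h1, h 2 3 (by norm_num) (by norm_num) (by norm_num) h2,
        h 2 4 (by norm_num) (by norm_num) (by norm_num) h2⟩
  · exact ⟨2, 3, 4, by norm_num, by norm_num, by norm_num, by norm_num, by norm_num,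
      by norm_num, h 1 2 (by norm_num) (by norm_num) (by norm_num) h1,
      h 1 3 (by norm_num) (by norm_num) (by norm_num) h1,
      h 1 4 (by norm_num) (by norm_num) (by norm_num) h1⟩

end CritAux

open CritAux in
theorem crit_field {k K : Type*} [Field k] [CharZero k] [Field K] [IsAlgClosed K] [Algebra k K]
    [Algebra.IsAlgebraic k K] {d : ℕ} (hd : 2 ≤ d) (f : OnePoint K → OnePoint K)
    (hgal : ∀ (σ : K ≃ₐ[k] K) (x : OnePoint K), f (OnePoint.map σ x) = OnePoint.map σ (f x))
    (hE : ∀ (E : IntermediateField k K) (x : OnePoint E),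
      ∃ y : OnePoint E, f (OnePoint.map (algebraMap E K) x) = OnePoint.map (algebraMap E K) y)
    {a b c e α β γ δ : K} (hB : a * e - b * c ≠ 0) (hA : α * δ - β * γ ≠ 0)
    (hf : ∀ u v : K, (u ≠ 0 ∨ v ≠ 0) →
      f (toP1 (a * u + b * v) (c * u + e * v)) = toP1 (α * u ^ d + β * v ^ d) (γ * u ^ d + δ * v ^ d)) :
    ∃ (E : IntermediateField k K) (a' b' c' e' α' β' γ' δ' : E),
      0 < Module.finrank k E ∧ Module.finrank k E ≤ 2 ∧
      a' * e' - b' * c' ≠ 0 ∧ α' * δ' - β' * γ' ≠ 0 ∧
      ∀ u v : K, (u ≠ 0 ∨ v ≠ 0) → ∀ u' v' : K, (u' ≠ 0 ∨ v' ≠ 0) →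
        f (toP1 u v) = toP1 u' v' →
        toP1 ((a' : K) * u' + b' * v') ((c' : K) * u' + e' * v') =
          bic (α' : K) β' γ' δ' d (toP1 ((a' : K) * u + b' * v) ((c' : K) * u + e' * v)) := by
  have hd0 : d ≠ 0 := by omega
  haveI : CharZero K := charZero_of_injective_algebraMap (algebraMap k K).injective
  obtain ⟨E, p1, q1, p2, q2, hpos, hfin, hM, e1, e2⟩ := stepA (k := k) hB
    (fun σ => ram_only hd f hB hf (ram_sigma hgal σ (ram_c1 hd f hB hA hf)))
    (fun σ => ram_only hd f hB hf (ram_sigma hgal σ (ram_c2 hd f hB hA hf)))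
  have hMK : (q1 : K) * (-(p2 : K)) - (-(p1 : K)) * (q2 : K) ≠ 0 := by
    intro h
    apply hM
    apply Subtype.coe_injective
    push_cast
    linear_combination h
  set ρ : K := q1 * a - p1 * c with hρ
  set τ : K := q2 * b - p2 * e with hτ
  have hρτ : ρ * τ ≠ 0 := by
    have : ρ * τ = ((q1 : K) * (-(p2 : K)) - (-(p1 : K)) * (q2 : K)) * (a * e - b * c) := by
      rw [hρ, hτ]
      linear_combination ((q2 : K) * a - (p2 : K) * c) * e1
    rw [this]
    exact mul_ne_zero hMK hB
  have hρ0 : ρ ≠ 0 := left_ne_zero_of_mul hρτ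
  have hτ0 : τ ≠ 0 := right_ne_zero_of_mul hρτ
  set A1 : K := (q1 * α - p1 * γ) * τ ^ d with hA1
  set B1 : K := (q1 * β - p1 * δ) * ρ ^ d with hB1
  set C1 : K := (q2 * α - p2 * γ) * τ ^ d with hC1
  set D1 : K := (q2 * β - p2 * δ) * ρ ^ d with hD1
  have hdet1 : A1 * D1 - B1 * C1 ≠ 0 := by
    have : A1 * D1 - B1 * C1 = ((q1 : K) * (-(p2 : K)) - (-(p1 : K)) * (q2 : K)) *
        (α * δ - β * γ) * (ρ * τ) ^ d := by
      rw [hA1, hB1, hC1, hD1, mul_pow]
      ring
    rw [this]
    exact mul_ne_zero (mul_ne_zero hMK hA) (pow_ne_zero d hρτ)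
  -- the conjugate of the map
  have main : ∀ u v : K, (u ≠ 0 ∨ v ≠ 0) → ∀ u' v' : K, (u' ≠ 0 ∨ v' ≠ 0) →
      f (toP1 u v) = toP1 u' v' →
      toP1 ((q1 : K) * u' + (-(p1 : K)) * v') ((q2 : K) * u' + (-(p2 : K)) * v') =
        toP1 (A1 * ((q1 : K) * u + (-(p1 : K)) * v) ^ d + B1 * ((q2 : K) * u + (-(p2 : K)) * v) ^ d)
          (C1 * ((q1 : K) * u + (-(p1 : K)) * v) ^ d + D1 * ((q2 : K) * u + (-(p2 : K)) * v) ^ d) := by
    intro X Y hXY u' v' hu' hfX
    obtain ⟨u, v, rfl, rfl⟩ := mat_surj hB X Y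
    have huv : u ≠ 0 ∨ v ≠ 0 := by
      by_contra hcon
      push Not at hcon
      obtain ⟨rfl, rfl⟩ := hcon
      simp at hXY
    rw [hf u v huv] at hfX
    have huvd : u ^ d ≠ 0 ∨ v ^ d ≠ 0 := by
      rcases huv with h | h
      · exact Or.inl (pow_ne_zero d h)
      · exact Or.inr (pow_ne_zero d h)
    rw [mat_congr hMK hu' (mat_ne hA huvd) hfX.symm]
    have f1 : (q1 : K) * (a * u + b * v) + (-(p1 : K)) * (c * u + e * v) = ρ * u := by
      rw [hρ]; linear_combination v * e1
    have f2 : (q2 : K) * (a * u + b * v) + (-(p2 : K)) * (c * u + e * v) = τ * v := by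
      rw [hτ]; linear_combination u * e2
    rw [f1, f2, ← toP1_mul ((ρ * τ) ^ d) _ _ (pow_ne_zero d hρτ)]
    congr 1
    · rw [hA1, hB1, mul_pow, mul_pow, mul_pow]; ring
    · rw [hC1, hD1, mul_pow, mul_pow, mul_pow]; ring
  -- values over `E`
  have vals : ∀ x : E, C1 * (x : K) ^ d + D1 ≠ 0 →
      ∃ v : E, A1 * (x : K) ^ d + B1 = (v : K) * (C1 * (x : K) ^ d + D1) := by
    intro x hx
    have hXY : (-p2 * x + p1 : E) ≠ 0 ∨ (-q2 * x + q1 : E) ≠ 0 := by
      by_contra hcon
      push Not at hcon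
      obtain ⟨k1, k2⟩ := hcon
      apply hM
      linear_combination q2 * k1 - p2 * k2
    have hXYK : ((-p2 * x + p1 : E) : K) ≠ 0 ∨ ((-q2 * x + q1 : E) : K) ≠ 0 := by
      rcases hXY with h | h
      · exact Or.inl (fun h' => h (Subtype.coe_injective h'))
      · exact Or.inr (fun h' => h (Subtype.coe_injective h'))
    obtain ⟨y, hy⟩ := hE E (toP1 (-p2 * x + p1) (-q2 * x + q1))
    obtain ⟨u', v', hu', rfl⟩ := exists_rep y
    have hmapE : ∀ u v : E, OnePoint.map (algebraMap E K) (toP1 u v) = toP1 (u : K) (v : K) := by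
      intro u v
      exact map_toP1 (algebraMap E K) (fun x => by simp) (fun x y => map_div₀ _ x y) u v
    rw [hmapE, hmapE] at hy
    have hu'K : (u' : K) ≠ 0 ∨ (v' : K) ≠ 0 := by
      rcases hu' with h | h
      · exact Or.inl (fun h' => h (Subtype.coe_injective h'))
      · exact Or.inr (fun h' => h (Subtype.coe_injective h'))
    have h1 := eq_imp (main _ _ hXYK _ _ hu'K hy)
    have D : K := 0
    have g1 : (q1 : K) * ((-p2 * x + p1 : E) : K) + (-(p1 : K)) * ((-q2 * x + q1 : E) : K) =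
        ((p1 : K) * q2 - p2 * q1) * (x : K) := by
      push_cast
      ring
    have g2 : (q2 : K) * ((-p2 * x + p1 : E) : K) + (-(p2 : K)) * ((-q2 * x + q1 : E) : K) =
        ((p1 : K) * q2 - p2 * q1) := by
      push_cast
      ring
    rw [g1, g2] at h1
    have hDK : ((p1 : K) * q2 - p2 * q1) ≠ 0 := by
      intro h
      apply hMK
      linear_combination h
    have hDd := pow_ne_zero d hDK
    have h2 : ((q1 : K) * u' + (-(p1 : K)) * v') * (C1 * (x : K) ^ d + D1) =
        (A1 * (x : K) ^ d + B1) * ((q2 : K) * u' + (-(p2 : K)) * v') := by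
      apply mul_left_cancel₀ hDd
      rw [mul_pow] at h1
      linear_combination h1
    have h3 : (q2 : K) * u' + (-(p2 : K)) * v' ≠ 0 := by
      intro h
      rw [h, mul_zero] at h2
      have h4 := (mul_eq_zero.1 h2).resolve_right hx
      rcases mat_ne hMK hu'K with h5 | h5
      · exact h5 h4
      · exact h5 h
    refine ⟨(q1 * u' + -p1 * v') / (q2 * u' + -p2 * v'), ?_⟩
    have h4 : (((q1 * u' + -p1 * v') / (q2 * u' + -p2 * v') : E) : K) =
        ((q1 : K) * u' + (-(p1 : K)) * v') / ((q2 : K) * u' + (-(p2 : K)) * v') := by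
      push_cast
      rfl
    rw [h4, div_mul_eq_mul_div, eq_div_iff h3]
    linear_combination -h2
  have key : ∀ i j : ℕ, 0 < i → 0 < j → i ≠ j → ¬ (C1 * ((i : E) : K) ^ d + D1 ≠ 0) →
      C1 * ((j : E) : K) ^ d + D1 ≠ 0 := by
    intro i j hi hj hij h1 h2
    push Not at h1
    have h3 : C1 * (((i : E) : K) ^ d - ((j : E) : K) ^ d) = 0 := by linear_combination h1 - h2
    rcases mul_eq_zero.1 h3 with h4 | h4
    · apply hdet1
      rw [h4, zero_mul, zero_add] at h1
      rw [h4, h1]
      ring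
    · push_cast at h4
      rw [sub_eq_zero] at h4
      exact hij (Nat.pow_left_injective hd0 (by exact_mod_cast h4))
  obtain ⟨i, j, l, hi, hj, hl, hij, hil, hjl, Pi, Pj, Pl⟩ :=
    three (P := fun i : ℕ => C1 * ((i : E) : K) ^ d + D1 ≠ 0) key
  obtain ⟨vi, hvi⟩ := vals _ Pi
  obtain ⟨vj, hvj⟩ := vals _ Pj
  obtain ⟨vl, hvl⟩ := vals _ Pl
  have hneq : ∀ i j : ℕ, i ≠ j → ((i : E) ^ d) ≠ ((j : E) ^ d) := by
    intro i j hij h
    exact hij (Nat.pow_left_injective hd0 (by exact_mod_cast h))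
  obtain ⟨m, α0, β0, γ0, δ0, hm, k1, k2, k3, k4⟩ := const_matrix (F := E) (K := K) hdet1
    (hneq i j hij) (hneq i l hil) (hneq j l hjl) (v1 := vi) (v2 := vj) (v3 := vl)
    (by simpa using hvi) (by simpa using hvj) (by simpa using hvl)
  refine ⟨E, q1, -p1, q2, -p2, α0, β0, γ0, δ0, hpos, hfin, ?_, ?_, ?_⟩
  · intro h
    apply hM
    linear_combination h
  · intro h
    apply hdet1
    rw [k1, k2, k3, k4]
    have := congrArg (algebraMap E K) h
    simp only [map_sub, map_mul, map_zero] at this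
    linear_combination m ^ 2 * this
  · intro u v huv u' v' hu' hfu
    have h1 := main u v huv u' v' hu' hfu
    have hcoe : ∀ x : E, ((-x : E) : K) = -(x : K) := fun x => by push_cast; rfl
    rw [hcoe, hcoe, h1, bic_toP1 _ _ _ _ hd0 (mat_ne hMK huv)]
    rw [k1, k2, k3, k4]
    refine Eq.trans ?_ (toP1_mul m _ _ hm)
    congr 1
    · rw [show algebraMap E K α0 = (α0 : K) from rfl, show algebraMap E K β0 = (β0 : K) from rfl]
      ring
    · rw [show algebraMap E K γ0 = (γ0 : K) from rfl, show algebraMap E K δ0 = (δ0 : K) from rfl]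
      ring


end Pool.Agent.Lib.P62g
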