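import Mathlib

/-!
# Module P62g.SubFin: subfields of finite extensions of `F(u)`

`finrank_sub`: `L1` an intermediate field of `K/F`, `u ∈ L1`. `[L1 : F(u)] ≤ [K : F(u)]` if the
latter is finite. Proof: `F(u) ≤ L1` inside `K`; `K` is finite over `F⟮(u : K)⟯` and `L1` is an
intermediate `F⟮(u : K)⟯`-subspace of `K` (e.g. `IntermediateField.extendScalars` for
`F⟮(u : K)⟯ ≤ L1`, then `finrank` of an intermediate field is positive and is at most the
whole one). Finally transport from `F⟮(u : K)⟯` to `F⟮u⟯ ⊆ L1` (isomorphic, compatible with the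
inclusions into `L1` resp. `K`; `Algebra.finrank_eq_of_equiv_equiv`).

`adjoin_lift`: if `S ⊆ K` and `L1 = F(S)` then the elements of `S` generate `L1` over `F`:
`IntermediateField.lift_adjoin`, `IntermediateField.lift_top`, `IntermediateField.lift_injective`.
-/

namespace Pool.Agent.Lib.P62g

open IntermediateField

theorem finrank_sub {F K : Type*} [Field F] [Field K] [Algebra F K] (L1 : IntermediateField F K)
    (u : L1) (hpos : 0 < Module.finrank F⟮(u : K)⟯ K) :
    0 < Module.finrank F⟮u⟯ L1 ∧ Module.finrank F⟮u⟯ L1 ≤ Module.finrank F⟮(u : K)⟯ K := by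
  have hle : F⟮(u : K)⟯ ≤ L1 := by
    rw [IntermediateField.adjoin_simple_le_iff]; exact u.2
  have hfd : FiniteDimensional F⟮(u : K)⟯ K := Module.finite_of_finrank_pos hpos
  set M := IntermediateField.extendScalars hle with hM
  have h1 : Module.finrank F⟮(u : K)⟯ M ≤ Module.finrank F⟮(u : K)⟯ K :=
    Submodule.finrank_le M.toSubmodule
  have h2 : 0 < Module.finrank F⟮(u : K)⟯ M := Module.finrank_pos
  have hlift : IntermediateField.lift F⟮u⟯ = F⟮(u : K)⟯ := IntermediateField.lift_adjoin_simple F L1 u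
  let e1 : F⟮u⟯ ≃ₐ[F] F⟮(u : K)⟯ :=
    (IntermediateField.liftAlgEquiv F⟮u⟯).trans (IntermediateField.equivOfEq hlift)
  have h3 : Module.finrank F⟮u⟯ L1 = Module.finrank F⟮(u : K)⟯ M := by
    refine Algebra.finrank_eq_of_equiv_equiv (e1 : F⟮u⟯ ≃+* F⟮(u : K)⟯) (RingEquiv.refl L1) ?_
    ext x
    rfl
  rw [h3]
  exact ⟨h2, h1⟩

theorem adjoin_lift {F K : Type*} [Field F] [Field K] [Algebra F K] (S : Set K) :
    IntermediateField.adjoin F {x : IntermediateField.adjoin F S | (x : K) ∈ S} = ⊤ := by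
  apply IntermediateField.lift_injective
  rw [IntermediateField.lift_adjoin, IntermediateField.lift_top]
  congr 1
  ext x
  simp only [Set.mem_image, Set.mem_ofPred_eq]
  constructor
  · rintro ⟨y, hy, rfl⟩; exact hy
  · intro hx
    exact ⟨⟨x, IntermediateField.subset_adjoin F S hx⟩, hx, rfl⟩

end Pool.Agent.Lib.P62g
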