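import Pool.Agent.Lib.P62g.RedC
import Pool.Agent.Lib.P62g.SubFin
import Pool.Agent.Lib.P62a0c3.Preper

/-!
# Finite invariant sets over function fields
-/

namespace Pool.Agent.Lib.P62g

open Polynomial IntermediateField Pool.Agent.Lib.P62a0c3

universe u w

theorem bic_scale {L : Type*} [Field L] {l : L} (hl : l ≠ 0) (α β γ δ : L) (d : ℕ)
    (p : OnePoint L) : bic (l * α) (l * β) (l * γ) (l * δ) d p = bic α β γ δ d p := by
  induction p using OnePoint.rec with
  | infty => rw [bic_infty, bic_infty, toP1_mul l _ _ hl]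
  | coe z =>
    rw [bic_some, bic_some, ← toP1_mul l (α * z ^ d + β) _ hl]
    congr 1 <;> ring

theorem invariant_general {F : Type w} {K : Type u} [Field F] [IsAlgClosed F] [CharZero F]
    [Field K] [Algebra F K] (u : K) (hu : Transcendental F u) {n d : ℕ}
    (hpos : 0 < Module.finrank F⟮u⟯ K) (hn : Module.finrank F⟮u⟯ K ≤ n)
    (hd : 8200 + 32 * n ^ 4 ≤ d) {α β γ δ : K} (hdet : α * δ - β * γ ≠ 0)
    (P : Finset (OnePoint K)) (hP : ∀ p ∈ P, bic α β γ δ d p ∈ P) (hcard : 2000 * d ≤ P.card) :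
    ∃ (s l : K) (α0 β0 γ0 δ0 : F), s ≠ 0 ∧ l ≠ 0 ∧
      α * s ^ d = l * algebraMap F K α0 ∧ β = l * algebraMap F K β0 ∧
      γ * s ^ (d + 1) = l * algebraMap F K γ0 ∧ δ * s = l * algebraMap F K δ0 := by
  classical
  have hd0 : d ≠ 0 := by omega
  -- a finite nonzero point
  obtain ⟨x, hx0, hxP⟩ : ∃ x : K, x ≠ 0 ∧ (x : OnePoint K) ∈ P := by
    by_contra hcon
    push Not at hcon
    have h1 : P ⊆ {OnePoint.infty, ((0 : K) : OnePoint K)} := by
      intro p hp
      induction p using OnePoint.rec with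
      | infty => simp
      | coe z =>
        by_cases hz : z = 0
        · rw [hz]; simp
        · exact absurd hp (hcon z hz)
    have h2 := (Finset.card_le_card h1).trans Finset.card_le_two
    omega
  have hdet' : (α * x ^ d) * (δ * x) - β * (γ * x ^ (d + 1)) ≠ 0 := by
    have : (α * x ^ d) * (δ * x) - β * (γ * x ^ (d + 1)) = x ^ (d + 1) * (α * δ - β * γ) := by
      ring
    rw [this]
    exact mul_ne_zero (pow_ne_zero _ hx0) hdet
  set P' := P.image (sc x) with hP'def
  have hP'card : P'.card = P.card := Finset.card_image_of_injective _ (sc_injective hx0)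
  have hP' : ∀ p ∈ P', bic (α * x ^ d) β (γ * x ^ (d + 1)) (δ * x) d p ∈ P' := by
    intro p hp
    obtain ⟨q, hq, rfl⟩ := Finset.mem_image.1 hp
    rw [← sc_bic hx0]
    exact Finset.mem_image_of_mem _ (hP q hq)
  have h1P' : ((1 : K) : OnePoint K) ∈ P' := by
    refine Finset.mem_image.2 ⟨_, hxP, ?_⟩
    rw [sc_some, div_self hx0]
  set S : Set K := insert u {z : K | z ≠ 0 ∧ (z : OnePoint K) ∈ P'} with hS
  set L1 : IntermediateField F K := IntermediateField.adjoin F S with hL1
  have hSL : ∀ z ∈ S, z ∈ L1 := fun z hz => IntermediateField.subset_adjoin F S hz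
  have hconst : ∀ z : K, (z : OnePoint K) ∈ P' → ∃ c : L1, z = algebraMap L1 K c := by
    intro z hz
    by_cases hz0 : z = 0
    · exact ⟨0, by rw [hz0, map_zero]⟩
    · exact ⟨⟨z, hSL z (Set.mem_insert_of_mem _ ⟨hz0, hz⟩)⟩, rfl⟩
  obtain ⟨l1, α1, β1, γ1, δ1, hl1, g1, g2, g3, g4⟩ :=
    const_of_points (F := L1) (by omega : 1 ≤ d) hdet' P' hP' hconst (by omega)
  set ι : L1 →+* K := algebraMap L1 K with hι
  have hιinj : Function.Injective (OnePoint.map ι) := map_injective ι
  set P1 : Finset (OnePoint L1) := P'.preimage (OnePoint.map ι) hιinj.injOn with hP1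
  have hmemP1 : ∀ p, p ∈ P1 ↔ OnePoint.map ι p ∈ P' := by
    intro p; rw [hP1, Finset.mem_preimage]
  have hbic : ∀ p : OnePoint K, bic (α * x ^ d) β (γ * x ^ (d + 1)) (δ * x) d p =
      bic (ι α1) (ι β1) (ι γ1) (ι δ1) d p := by
    intro p
    rw [g1, g3, g4]
    conv_lhs => rw [g2]
    exact bic_scale hl1 _ _ _ _ d p
  have hinv1 : ∀ p ∈ P1, bic α1 β1 γ1 δ1 d p ∈ P1 := by
    intro p hp
    rw [hmemP1] at hp ⊢
    rw [map_bic, ← hbic]
    exact hP' _ hp
  have hcard1 : 2000 * d ≤ P1.card := by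
    have h1 : P1.image (OnePoint.map ι) = P' := by
      ext p
      rw [Finset.mem_image]
      constructor
      · rintro ⟨q, hq, rfl⟩
        exact (hmemP1 q).1 hq
      · intro hp
        induction p using OnePoint.rec with
        | infty => exact ⟨OnePoint.infty, (hmemP1 _).2 hp, rfl⟩
        | coe z =>
          obtain ⟨c, hc⟩ := hconst z hp
          refine ⟨(c : OnePoint L1), (hmemP1 _).2 ?_, ?_⟩
          · rw [OnePoint.map_some, ← hc]; exact hp
          · rw [OnePoint.map_some, ← hc]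
    rw [← Finset.card_image_of_injective _ hιinj, h1, hP'card]
    exact hcard
  have hdet1 : α1 * δ1 - β1 * γ1 ≠ 0 := by
    intro h
    apply hdet'
    have h2 := congrArg ι h
    rw [map_sub, map_mul, map_mul, map_zero] at h2
    rw [g1, g3, g4]
    conv_lhs => rw [g2]
    linear_combination l1 ^ 2 * h2
  set u1 : L1 := ⟨u, hSL u (Set.mem_insert _ _)⟩ with hu1
  have hu1t : Transcendental F u1 := by
    intro h
    exact hu (h.algebraMap (A := K))
  obtain ⟨hpos1, hn1⟩ := finrank_sub L1 u1 hpos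
  have h11 : ((1 : L1) : OnePoint L1) ∈ P1 := by
    rw [hmemP1, OnePoint.map_some, map_one]
    exact h1P'
  have hgen1 : IntermediateField.adjoin F
      (insert u1 {z : L1 | z ≠ 0 ∧ (z : OnePoint L1) ∈ P1}) = ⊤ := by
    have h1 := adjoin_lift (F := F) S
    have h2 : {x : L1 | (x : K) ∈ S} = insert u1 {z : L1 | z ≠ 0 ∧ (z : OnePoint L1) ∈ P1} := by
      ext z
      rw [Set.mem_setOf_eq, hS, Set.mem_insert_iff, Set.mem_insert_iff, Set.mem_setOf_eq,
        Set.mem_setOf_eq, hmemP1, OnePoint.map_some]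
      constructor
      · rintro (h | ⟨h, h'⟩)
        · exact Or.inl (Subtype.ext h)
        · exact Or.inr ⟨fun h0 => h (by rw [h0]; rfl), h'⟩
      · rintro (h | ⟨h, h'⟩)
        · exact Or.inl (by rw [h])
        · exact Or.inr ⟨fun h0 => h (Subtype.ext h0), h'⟩
    rw [← h2]
    exact h1
  obtain ⟨s, l, α0, β0, γ0, δ0, hs, hl, f1, f2, f3, f4⟩ :=
    core_invariant (F := F) u1 hu1t hpos1 (hn1.trans hn) hd hdet1 P1 hinv1 h11 hcard1 hgen1
  have hFι : ∀ c : F, ι (algebraMap F L1 c) = algebraMap F K c := fun c => rfl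
  refine ⟨x * ι s, l1 * ι l, α0, β0, γ0, δ0, ?_, ?_, ?_, ?_, ?_, ?_⟩
  · exact mul_ne_zero hx0 (by rw [Ne, map_eq_zero]; exact hs)
  · exact mul_ne_zero hl1 (by rw [Ne, map_eq_zero]; exact hl)
  · have h := congrArg ι f1
    rw [map_mul, map_mul, map_pow, hFι] at h
    rw [mul_pow, ← mul_assoc, g1]
    linear_combination l1 * h
  · have h := congrArg ι f2
    rw [map_mul, hFι] at h
    rw [g2]
    linear_combination l1 * h
  · have h := congrArg ι f3
    rw [map_mul, map_mul, map_pow, hFι] at h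
    rw [mul_pow, ← mul_assoc, g3]
    linear_combination l1 * h
  · have h := congrArg ι f4
    rw [map_mul, map_mul, hFι] at h
    rw [← mul_assoc, g4]
    linear_combination l1 * h

end Pool.Agent.Lib.P62g
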