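import Mathlib

/-!
# Function fields of gonality `n`: basic instances

`F` is algebraically closed of characteristic zero, `L` is a finite extension of `F(X) = RatFunc F`.
The finite places of `L` are the height one primes of `integralClosure F[X] L`; integrality at
infinity is the predicate `InfInt`.
-/

namespace Pool.Agent.Lib.P62g

open Polynomial IsDedekindDomain WithZero

section inst

variable {F L : Type*} [Field F] [CharZero F] [Field L] [Algebra F[X] L]
  [Algebra (RatFunc F) L] [IsScalarTower F[X] (RatFunc F) L] [FiniteDimensional (RatFunc F) L]

instance isDedekindDomain_intClosure : IsDedekindDomain (integralClosure F[X] L) :=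
  IsIntegralClosure.isDedekindDomain F[X] (RatFunc F) L _

instance isFractionRing_intClosure : IsFractionRing (integralClosure F[X] L) L :=
  integralClosure.isFractionRing_of_finite_extension (RatFunc F) L

end inst

/-- `x` is integral over the valuation ring at infinity of `F(X)`, where `F(X)` acts through `φ`
(note `(0 : RatFunc F).intDegree = 0`). -/
def InfInt {F L : Type*} [Field F] [Field L] (φ : RatFunc F →+* L) (x : L) : Prop :=
  ∃ q : (RatFunc F)[X], q.Monic ∧ (∀ i, (q.coeff i).intDegree ≤ 0) ∧ q.eval₂ φ x = 0

end Pool.Agent.Lib.P62g
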