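import Mathlib

/-!
# Module P62g.Der: the derivation `d/dX` on a finite extension of `F(X)` and its constants

1. `d/dX` on `F[X]` extends to `F(X) = RatFunc F` (quotient rule) and then to the finite separable
   extension `L` (Mathlib: `Mathlib/FieldTheory/Differential/Basic.lean`,
   `differentialFiniteDimensional`, `Differential.implicitDeriv`, `Derivation.liftOfSurjective`;
   for the fraction field maybe `Derivation.localization`-type lemmas, or
   `Differential`/`FractionRing` instances; otherwise build it by hand: for `L = K(α)`,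
   `m = minpoly K α`: `D(q(α)) = q^D(α) - q'(α) m^D(α) / m'(α)`).
   It is `F`-linear.
2. Constants: if `D x = 0`, let `m = minpoly (RatFunc F) x`, monic. `0 = D(m(x)) = m^D(x) +
   m'(x) D x = m^D(x)` and `deg m^D < deg m`, so `m^D = 0`: all coefficients `r` of `m` have
   `r' = 0` in `F(X)`. For `r = p/q` coprime: `p' q = p q'` gives `q ∣ q'`, `q' = 0`, `p' = 0`, so
   `r ∈ F` (characteristic zero; `IsCoprime.wronskian_eq_zero_iff`). So `x` is algebraic over `F`,
   hence in `F` (algebraically closed).
-/

namespace Pool.Agent.Lib.P62g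

open Polynomial

namespace DerAux

open TensorProduct

/-- the extension of `d/dX` -/
theorem exists_ext {F L : Type*} [Field F] [CharZero F] [Field L] [Algebra F L]
    [Algebra F[X] L] [Algebra (RatFunc F) L] [IsScalarTower F[X] (RatFunc F) L]
    [IsScalarTower F (RatFunc F) L] [FiniteDimensional (RatFunc F) L] :
    ∃ D : Derivation F L L,
      ∀ q : F[X], D (algebraMap F[X] L q) = algebraMap F[X] L (derivative q) := by
  have hT : IsScalarTower F F[X] L := by
    refine IsScalarTower.of_algebraMap_eq fun c => ?_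
    rw [IsScalarTower.algebraMap_apply F (RatFunc F) L,
      IsScalarTower.algebraMap_apply F[X] (RatFunc F) L,
      ← IsScalarTower.algebraMap_apply F F[X] (RatFunc F)]
  have h1 : Algebra.FormallyEtale F[X] (RatFunc F) :=
    Algebra.FormallyEtale.of_isLocalization (nonZeroDivisors F[X])
  have h2 : Algebra.FormallyEtale (RatFunc F) L := Algebra.FormallyEtale.of_isSeparable _ _
  have h3 : Algebra.FormallyEtale F[X] L := Algebra.FormallyEtale.comp F[X] (RatFunc F) L
  set d0 : Derivation F F[X] L :=
    (Algebra.linearMap F[X] L).compDer (Polynomial.derivative' : Derivation F F[X] F[X]) with hd0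
  set e := KaehlerDifferential.tensorKaehlerEquivOfFormallyEtale F F[X] L with he
  refine ⟨((d0.liftKaehlerDifferential.liftBaseChange L).comp e.symm.toLinearMap).compDer
    (KaehlerDifferential.D F L), ?_⟩
  intro q
  show (d0.liftKaehlerDifferential.liftBaseChange L) (e.symm (KaehlerDifferential.D F L
    (algebraMap F[X] L q))) = _
  rw [he, KaehlerDifferential.tensorKaehlerEquivOfFormallyEtale_symm_D_algebraMap,
    LinearMap.liftBaseChange_tmul, one_smul, Derivation.liftKaehlerDifferential_comp_D]
  rfl

/-- the derivation on `F(X)` -/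
theorem exists_delta {F L : Type*} [Field F] [CharZero F] [Field L] [Algebra F L]
    [Algebra F[X] L] [Algebra (RatFunc F) L] [IsScalarTower F[X] (RatFunc F) L]
    (D : Derivation F L L)
    (hD : ∀ q : F[X], D (algebraMap F[X] L q) = algebraMap F[X] L (derivative q))
    (a : RatFunc F) : ∃ b : RatFunc F, D (algebraMap (RatFunc F) L a) = algebraMap (RatFunc F) L b ∧
      (b = 0 → ∃ c : F, a = algebraMap F (RatFunc F) c) := by
  have hden := a.denom_ne_zero
  have hden' : algebraMap F[X] (RatFunc F) a.denom ≠ 0 :=
    (map_ne_zero_iff _ (IsFractionRing.injective F[X] (RatFunc F))).2 hden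
  refine ⟨(algebraMap F[X] (RatFunc F) a.denom)⁻¹ ^ 2 *
    algebraMap F[X] (RatFunc F) (a.denom * derivative a.num - a.num * derivative a.denom), ?_, ?_⟩
  · have e1 : algebraMap (RatFunc F) L a =
        algebraMap F[X] L a.num / algebraMap F[X] L a.denom := by
      conv_lhs => rw [← a.num_div_denom]
      rw [map_div₀, ← IsScalarTower.algebraMap_apply, ← IsScalarTower.algebraMap_apply]
    rw [e1, Derivation.leibniz_div, hD, hD]
    simp only [smul_eq_mul, map_mul, map_pow, map_inv₀, map_sub,
      ← IsScalarTower.algebraMap_apply F[X] (RatFunc F) L]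
  · intro h
    have h1 : algebraMap F[X] (RatFunc F)
        (a.denom * derivative a.num - a.num * derivative a.denom) = 0 :=
      (mul_eq_zero.1 h).resolve_left (pow_ne_zero 2 (inv_ne_zero hden'))
    have h2 : a.denom * derivative a.num - a.num * derivative a.denom = 0 :=
      (map_eq_zero_iff _ (IsFractionRing.injective F[X] (RatFunc F))).1 h1
    have h3 : wronskian a.num a.denom = 0 := by
      rw [wronskian]
      linear_combination -h2
    obtain ⟨h4, h5⟩ := a.isCoprime_num_denom.wronskian_eq_zero_iff.1 h3
    obtain ⟨c1, hc1⟩ : ∃ c, a.num = C c :=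
      ⟨_, eq_C_of_natDegree_eq_zero (natDegree_eq_zero_of_derivative_eq_zero h4)⟩
    obtain ⟨c2, hc2⟩ : ∃ c, a.denom = C c :=
      ⟨_, eq_C_of_natDegree_eq_zero (natDegree_eq_zero_of_derivative_eq_zero h5)⟩
    refine ⟨c1 / c2, ?_⟩
    conv_lhs => rw [← a.num_div_denom]
    rw [hc1, hc2, map_div₀, IsScalarTower.algebraMap_apply F F[X] (RatFunc F),
      IsScalarTower.algebraMap_apply F F[X] (RatFunc F) c2]
    rfl

end DerAux

open DerAux in
theorem exists_der {F L : Type*} [Field F] [IsAlgClosed F] [CharZero F] [Field L] [Algebra F L]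
    [Algebra F[X] L] [Algebra (RatFunc F) L] [IsScalarTower F[X] (RatFunc F) L]
    [IsScalarTower F (RatFunc F) L] [FiniteDimensional (RatFunc F) L] :
    ∃ D : Derivation F L L,
      (∀ q : F[X], D (algebraMap F[X] L q) = algebraMap F[X] L (derivative q)) ∧
      ∀ x, D x = 0 → ∃ c : F, x = algebraMap F L c := by
  classical
  obtain ⟨D, hD⟩ := exists_ext (F := F) (L := L)
  refine ⟨D, hD, ?_⟩
  intro x hx
  choose δ hδ hδ0 using exists_delta D hD
  have hint : IsIntegral (RatFunc F) x := Algebra.IsIntegral.isIntegral x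
  set m := minpoly (RatFunc F) x with hm
  set n := m.natDegree with hn
  have hmonic : m.Monic := minpoly.monic hint
  -- the derived polynomial vanishes
  have hDpow : ∀ i : ℕ, D (x ^ i) = 0 := by
    intro i
    rw [Derivation.leibniz_pow, hx, smul_zero, smul_zero]
  have hterm : ∀ (a : RatFunc F) (i : ℕ), D (algebraMap (RatFunc F) L a * x ^ i) =
      algebraMap (RatFunc F) L (δ a) * x ^ i := by
    intro a i
    rw [Derivation.leibniz, hDpow, smul_zero, zero_add, hδ, smul_eq_mul, mul_comm]
  have hsum : ∑ i ∈ Finset.range (n + 1), algebraMap (RatFunc F) L (m.coeff i) * x ^ i = 0 := by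
    have h1 := minpoly.aeval (RatFunc F) x
    rw [← hm, aeval_eq_sum_range] at h1
    simpa only [Algebra.smul_def] using h1
  have hsum2 : ∑ i ∈ Finset.range (n + 1), algebraMap (RatFunc F) L (δ (m.coeff i)) * x ^ i
      = 0 := by
    have h1 := congrArg D hsum
    rw [map_sum, map_zero] at h1
    rw [← h1]
    exact Finset.sum_congr rfl fun i _ => (hterm _ i).symm
  have hδ1 : δ 1 = 0 := by
    have h1 := hδ 1
    rw [map_one, Derivation.map_one_eq_zero] at h1
    exact (map_eq_zero_iff _ (algebraMap (RatFunc F) L).injective).1 h1.symm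
  have hlead : m.coeff n = 1 := hmonic
  rw [Finset.sum_range_succ, hlead, hδ1, map_zero, zero_mul, add_zero] at hsum2
  set q : (RatFunc F)[X] := ∑ i : Fin n, C (δ (m.coeff i)) * X ^ (i : ℕ) with hq
  have hq0 : q = 0 := by
    by_contra hne
    have h1 : aeval x q = 0 := by
      rw [hq, map_sum, ← hsum2, Finset.sum_range]
      refine Finset.sum_congr rfl fun i _ => ?_
      rw [map_mul, map_pow, aeval_C, aeval_X]
    have h2 := minpoly.degree_le_of_ne_zero (RatFunc F) x hne h1
    have h3 : q.degree < n := degree_sum_fin_lt _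
    rw [← hm, degree_eq_natDegree hmonic.ne_zero] at h2
    exact absurd (lt_of_le_of_lt h2 h3) (lt_irrefl _)
  have hcoef : ∀ i, i < n → δ (m.coeff i) = 0 := by
    intro i hi
    have h1 : q.coeff i = δ (m.coeff i) := by
      rw [hq, finset_sum_coeff]
      rw [Finset.sum_eq_single (⟨i, hi⟩ : Fin n)]
      · rw [coeff_C_mul, coeff_X_pow_self, mul_one]
      · intro j _ hj
        rw [coeff_C_mul, coeff_X_pow, if_neg, mul_zero]
        intro h
        exact hj (Fin.ext h.symm)
      · intro h
        exact absurd (Finset.mem_univ _) h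
    rw [← h1, hq0, coeff_zero]
  have hlift : m ∈ lifts (algebraMap F (RatFunc F)) := by
    rw [lifts_iff_coeff_lifts]
    intro i
    rcases lt_trichotomy i n with h | h | h
    · obtain ⟨c, hc⟩ := hδ0 _ (hcoef i h)
      exact ⟨c, hc.symm⟩
    · rw [h, hlead]
      exact ⟨1, map_one _⟩
    · rw [coeff_eq_zero_of_natDegree_lt h]
      exact ⟨0, map_zero _⟩
  obtain ⟨mF, hmF, -, hmF'⟩ := lifts_and_degree_eq_and_monic hlift hmonic
  have hxF : IsIntegral F x := by
    refine ⟨mF, hmF', ?_⟩
    have h1 := minpoly.aeval (RatFunc F) x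
    rw [← hm, ← hmF, aeval_map_algebraMap] at h1
    exact h1
  obtain ⟨c, hc⟩ := minpoly.mem_range_of_degree_eq_one F x
    (IsAlgClosed.degree_eq_one_of_irreducible F (minpoly.irreducible hxF))
  exact ⟨c, hc.symm⟩

end Pool.Agent.Lib.P62g
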