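import Mathlib

/-!
# Module P62g.DiscDer: derivations and discriminants

`R` integrally closed with fraction field `K`, `L/K` finite separable, `pb` a power basis of `L/K`
with integral generator `α`, `δ` a derivation of `L` mapping `R` to `R`. Claim: for `b` integral
over `R`, `disc ^ 2 * δ b` is integral over `R`, `disc = Algebra.discr K pb.basis`.

Proof. Let `m ∈ R[X]` be the minimal polynomial of `α` over `R` (`minpoly R α`, it maps to
`minpoly K α`, `minpoly.isIntegrallyClosed_eq_field_fractions`), `m'` its derivative, `m^δ` the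
polynomial with coefficients `δ(coeff)` (in `R`). From `m(α) = 0`: `m^δ(α) + m'(α) δ(α) = 0`.
1. `disc = ± N_{L/K}(m'(α))` (`Algebra.discr_powerBasis_eq_norm`), and `N(y) = y * y'` with `y'`
   integral if `y` is integral (`Algebra.dvd_algebraMap_intNorm_self`, or: the constant
   coefficient of the characteristic polynomial, or: `y'` is the product of the other conjugates).
   So `disc * δ α = ∓ (N(m'(α)) / m'(α)) * m^δ(α)` is integral over `R`.
2. Hence for `q ∈ R[X]`: `disc * δ (q(α)) = disc * (q^δ(α) + q'(α) δ α)` is integral, i.e.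
   `disc * δ y` is integral for all `y ∈ R[α] = adjoin R {α}`.
3. `disc • b ∈ R[α]` (`Algebra.discr_mul_isIntegral_mem_adjoin`). So
   `disc * δ (disc * b) = disc * (δ(disc) * b + disc * δ b)` is integral. Here `disc` is the image
   of an element of `R` (it is integral over `R` and lies in `K`: `Algebra.discr_isIntegral`), so
   `δ(disc)` is the image of an element of `R`, and `disc * δ(disc) * b` is integral. Subtract.
-/

namespace Pool.Agent.Lib.P62g

open Polynomial

namespace DiscDerAux

theorem exists_norm_eq {R K L : Type*} [CommRing R] [Field K]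
    [Field L] [Algebra R K] [Algebra K L] [Algebra R L] [IsScalarTower R K L]
    [FiniteDimensional K L] [Algebra.IsSeparable K L] {y : L} (hy : IsIntegral R y) :
    ∃ y' : L, IsIntegral R y' ∧ algebraMap K L (Algebra.norm K y) = y * y' := by
  classical
  rcases eq_or_ne y 0 with rfl | h0
  · refine ⟨1, isIntegral_one, ?_⟩
    rw [Algebra.norm_zero, map_zero, zero_mul]
  · refine ⟨algebraMap K L (Algebra.norm K y) / y, ?_, ?_⟩
    · let E := AlgebraicClosure L
      let σ₀ : L →ₐ[K] E := IsScalarTower.toAlgHom K L E
      let τ₀ : L →ₐ[R] E := IsScalarTower.toAlgHom R L E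
      have hinj : Function.Injective τ₀ := (algebraMap L E).injective
      rw [← isIntegral_algHom_iff τ₀ hinj]
      have h1 := Algebra.norm_eq_prod_embeddings (K := K) (L := L) E y
      rw [← Finset.mul_prod_erase Finset.univ (fun σ : L →ₐ[K] E => σ y)
        (Finset.mem_univ σ₀)] at h1
      have h2 : τ₀ (algebraMap K L (Algebra.norm K y) / y) =
          ∏ σ ∈ Finset.univ.erase σ₀, σ y := by
        rw [map_div₀]
        have h3 : τ₀ (algebraMap K L (Algebra.norm K y)) = algebraMap K E (Algebra.norm K y) :=
          (IsScalarTower.algebraMap_apply K L E _).symm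
        have h4 : τ₀ y = σ₀ y := rfl
        have h5 : σ₀ y ≠ 0 := by
          intro h
          exact h0 ((map_eq_zero_iff σ₀ σ₀.injective).mp h)
        rw [h3, h1, h4, mul_div_cancel_left₀ _ h5]
      rw [h2]
      refine IsIntegral.prod _ fun σ _ => ?_
      exact hy.map (σ.restrictScalars R)
    · rw [mul_div_cancel₀ _ h0]

theorem der_aeval {R L : Type*} [CommRing R] [Field L] [Algebra R L] (δ : Derivation ℤ L L)
    (hδ : ∀ r : R, ∃ r' : R, δ (algebraMap R L r) = algebraMap R L r') {α : L}
    (hα : IsIntegral R α) (q : R[X]) :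
    ∃ z : L, IsIntegral R z ∧ δ (aeval α q) = z + aeval α (derivative q) * δ α := by
  induction q using Polynomial.induction_on' with
  | add p q hp hq =>
    obtain ⟨z, hz, h1⟩ := hp
    obtain ⟨z', hz', h2⟩ := hq
    refine ⟨z + z', hz.add hz', ?_⟩
    rw [map_add, map_add, map_add, map_add, h1, h2]
    ring
  | monomial n a =>
    obtain ⟨a', ha'⟩ := hδ a
    refine ⟨α ^ n * algebraMap R L a', (hα.pow n).mul isIntegral_algebraMap, ?_⟩
    rw [aeval_monomial, Derivation.leibniz, Derivation.leibniz_pow, ha', derivative_monomial,
      aeval_monomial, map_mul, map_natCast]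
    simp only [smul_eq_mul, nsmul_eq_mul]
    ring

end DiscDerAux

open DiscDerAux in
theorem disc_der {R K L : Type*} [CommRing R] [IsDomain R] [IsIntegrallyClosed R] [Field K]
    [Field L] [Algebra R K] [IsFractionRing R K] [Algebra K L] [Algebra R L] [IsScalarTower R K L]
    [FiniteDimensional K L] [Algebra.IsSeparable K L]
    (pb : PowerBasis K L) (hint : IsIntegral R pb.gen) (δ : Derivation ℤ L L)
    (hδ : ∀ r : R, ∃ r' : R, δ (algebraMap R L r) = algebraMap R L r') (b : L)
    (hb : IsIntegral R b) :
    IsIntegral R ((algebraMap K L (Algebra.discr K pb.basis)) ^ 2 * δ b) := by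
  set α := pb.gen with hα
  set disc := Algebra.discr K pb.basis with hdisc
  -- `disc` comes from `R`
  have hdR : IsIntegral R disc := by
    refine Algebra.discr_isIntegral K fun i => ?_
    rw [PowerBasis.basis_eq_pow]
    exact hint.pow _
  obtain ⟨r, hr⟩ := IsIntegrallyClosed.isIntegral_iff.mp hdR
  have hrL : algebraMap K L disc = algebraMap R L r := by
    rw [← hr, ← IsScalarTower.algebraMap_apply]
  have hdL : IsIntegral R (algebraMap K L disc) := by
    rw [hrL]; exact isIntegral_algebraMap
  -- the derivative of the minimal polynomial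
  have hmin : minpoly K α = (minpoly R α).map (algebraMap R K) :=
    minpoly.isIntegrallyClosed_eq_field_fractions' K hint
  obtain ⟨z₀, hz₀, h0⟩ := der_aeval δ hδ hint (minpoly R α)
  rw [minpoly.aeval, map_zero] at h0
  have hd : aeval α (derivative (minpoly K α)) = aeval α (derivative (minpoly R α)) := by
    rw [hmin, derivative_map, aeval_map_algebraMap]
  set d := aeval α (derivative (minpoly R α)) with hdd
  have hdint : IsIntegral R d := by
    rw [hdd]
    exact IsIntegral.of_mem_of_fg _ hint.fg_adjoin_singleton _
      (aeval_mem_adjoin_singleton R α)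
  obtain ⟨d', hd', hN⟩ := exists_norm_eq (K := K) hdint
  have hnorm := Algebra.discr_powerBasis_eq_norm K pb
  rw [← hdisc, ← hα, hd] at hnorm
  have hα1 : IsIntegral R (algebraMap K L disc * δ α) := by
    rw [hnorm, map_mul, map_pow, map_neg, map_one, hN]
    have e : (-1 : L) ^ (Module.finrank K L * (Module.finrank K L - 1) / 2) * (d * d') * δ α =
        (-1) ^ (Module.finrank K L * (Module.finrank K L - 1) / 2) * d' * (-z₀) := by
      have : d * δ α = -z₀ := by linear_combination -h0
      linear_combination (-1 : L) ^ (Module.finrank K L * (Module.finrank K L - 1) / 2) * d' * this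

    rw [e]
    exact (((isIntegral_one.neg).pow _).mul hd').mul hz₀.neg
  -- elements of `R[α]`
  have hadj : ∀ y ∈ Algebra.adjoin R ({α} : Set L), IsIntegral R (algebraMap K L disc * δ y) := by
    intro y hy
    rw [Algebra.adjoin_singleton_eq_range_aeval] at hy
    obtain ⟨q, rfl⟩ := hy
    obtain ⟨z, hz, h1⟩ := der_aeval δ hδ hint q
    have h2 : IsIntegral R (aeval α (derivative q)) :=
      IsIntegral.of_mem_of_fg _ hint.fg_adjoin_singleton _ (aeval_mem_adjoin_singleton R α)
    have h3 : algebraMap K L disc * δ (aeval α q) = algebraMap K L disc * z +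
        aeval α (derivative q) * (algebraMap K L disc * δ α) := by
      rw [h1]; ring
    have h4 : (aeval α).toRingHom q = aeval α q := rfl
    rw [h4, h3]
    exact (hdL.mul hz).add (h2.mul hα1)
  have hmem := Algebra.discr_mul_isIntegral_mem_adjoin K hint hb
  have h5 := hadj _ hmem
  rw [Algebra.smul_def, Derivation.leibniz] at h5
  obtain ⟨r', hr'⟩ := hδ r
  have h6 : δ (algebraMap K L disc) = algebraMap R L r' := by rw [hrL, hr']
  rw [← hdisc, h6] at h5
  have h7 : (algebraMap K L disc) ^ 2 * δ b = algebraMap K L disc *
      (algebraMap K L disc • δ b + b • algebraMap R L r') -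
        algebraMap K L disc * (b * algebraMap R L r') := by
    simp only [smul_eq_mul]; ring
  rw [h7]
  exact h5.sub (hdL.mul (hb.mul isIntegral_algebraMap))

end Pool.Agent.Lib.P62g
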