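import Pool.Agent.Lib.P62g.InfRing
import Pool.Agent.Lib.P62g.DiscDer

/-!
# Module P62g.InfDer: the derivation `d/dX` preserves integrality at infinity

(imports InfRing and DiscDer as black boxes.)
`D` extends `d/dX`. Let `R = {r ∈ F(X) | intDegree r ≤ 0}` as a subring (or `ValuationSubring`) of
`RatFunc F`: integrally closed with fraction field `RatFunc F` (`r` or `r⁻¹` lies in `R`).
1. For `r ∈ R`: `X ^ 2 * r' ∈ R`, i.e. `intDegree r' ≤ -2` or `r' = 0`: `r = p/q`,
   `r' = (p' q - p q') / q ^ 2`. If `deg p < deg q` then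
   `deg (p' q - p q') ≤ deg p + deg q - 1 ≤ 2 deg q - 2`. If
   `deg p = deg q = m` the coefficient of `X ^ (2m-1)` in `p' q - p q'` is `m a b - m a b = 0`, so
   again `deg ≤ 2m - 2`. (Or: `r = a + s`, `a` constant, `intDegree s < 0`, and `r' = s'`.)
2. So `δ = X ^ 2 • D` maps `R` to `R`; apply `disc_der` (P62g.DiscDer) over `R` with the given power
   basis (`pb.gen` is integral over `R`, as `InfInt` says): `disc ^ 2 * δ x` is integral over `R`.
   `intDegree disc = 0` and `disc ≠ 0`, so `disc⁻¹ ∈ R` and `δ x = X ^ 2 D x` is integral over `R`;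
   multiply by `X⁻¹ ^ 2 ∈ R`.
-/

namespace Pool.Agent.Lib.P62g

open Polynomial

namespace InfDerAux

theorem natDegree_wronsk {F : Type*} [Field F] (p q : F[X]) (hpq : p.natDegree ≤ q.natDegree)
    (hq : q ≠ 0) (hm : 1 ≤ q.natDegree) :
    (derivative p * q - p * derivative q).natDegree + 2 ≤ 2 * q.natDegree := by
  obtain ⟨m, hmq⟩ : ∃ m, q.natDegree = m := ⟨_, rfl⟩
  rw [hmq] at hpq hm ⊢
  set c : F := p.coeff m / q.leadingCoeff with hc
  set s : F[X] := p - C c * q with hs
  have hlc : q.leadingCoeff ≠ 0 := leadingCoeff_ne_zero.2 hq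
  have hsdeg : s.natDegree ≤ m := by
    refine (natDegree_sub_le _ _).trans (max_le hpq ?_)
    exact (natDegree_C_mul_le _ _).trans hmq.le
  have hscoeff : s.coeff m = 0 := by
    have h1 : q.coeff m = q.leadingCoeff := by rw [leadingCoeff, hmq]
    rw [hs, coeff_sub, coeff_C_mul, h1, hc, div_mul_cancel₀ _ hlc, sub_self]
  have hs1 : s.natDegree ≤ m - 1 := natDegree_le_pred hsdeg hscoeff
  have hW : derivative p * q - p * derivative q = derivative s * q - s * derivative q := by
    have h1 : p = s + C c * q := by rw [hs]; ring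
    rw [h1, derivative_add, derivative_C_mul]
    ring
  rw [hW]
  have h1 : (derivative s * q).natDegree + 2 ≤ 2 * m := by
    by_cases h0 : derivative s = 0
    · rw [h0, zero_mul, natDegree_zero]
      omega
    · have h2 : s.natDegree ≠ 0 := by
        intro h3
        obtain ⟨a, ha⟩ := natDegree_eq_zero.1 h3
        apply h0
        rw [← ha, derivative_C]
      have h3 : (derivative s).natDegree ≤ s.natDegree - 1 := natDegree_derivative_le s
      have h4 : (derivative s * q).natDegree ≤ (derivative s).natDegree + q.natDegree :=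
        natDegree_mul_le
      omega
  have h2 : (s * derivative q).natDegree + 2 ≤ 2 * m := by
    have h3 : (derivative q).natDegree ≤ q.natDegree - 1 := natDegree_derivative_le q
    have h4 : (s * derivative q).natDegree ≤ s.natDegree + (derivative q).natDegree :=
      natDegree_mul_le
    omega
  have h3 := natDegree_sub_le (derivative s * q) (s * derivative q)
  rcases le_max_iff.1 h3 with h4 | h4
  · omega
  · omega

theorem der_base {F L : Type*} [Field F] [Field L] [Algebra F L] [Algebra F[X] L]
    [Algebra (RatFunc F) L] [IsScalarTower F[X] (RatFunc F) L]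
    (D : Derivation F L L)
    (hD : ∀ q : F[X], D (algebraMap F[X] L q) = algebraMap F[X] L (derivative q))
    (r : RatFunc F) (hr : r.intDegree ≤ 0) :
    ∃ r' : RatFunc F, r'.intDegree ≤ 0 ∧
      algebraMap (RatFunc F) L (RatFunc.X ^ 2) * D (algebraMap (RatFunc F) L r) =
        algebraMap (RatFunc F) L r' := by
  set p := r.num with hp
  set q := r.denom with hq
  have hq0 : q ≠ 0 := r.denom_ne_zero
  have hφq0 : algebraMap F[X] L q ≠ 0 := by
    rw [IsScalarTower.algebraMap_apply F[X] (RatFunc F) L]
    intro h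
    apply hq0
    have h1 := (algebraMap (RatFunc F) L).injective (h.trans (map_zero _).symm)
    exact (RatFunc.algebraMap_injective F) (h1.trans (map_zero _).symm)
  have hrq : algebraMap (RatFunc F) L r * algebraMap F[X] L q = algebraMap F[X] L p := by
    rw [IsScalarTower.algebraMap_apply F[X] (RatFunc F) L q,
      IsScalarTower.algebraMap_apply F[X] (RatFunc F) L p, ← map_mul]
    congr 1
    have h1 := RatFunc.num_div_denom r
    have h2 : algebraMap F[X] (RatFunc F) q ≠ 0 := RatFunc.algebraMap_ne_zero hq0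
    exact ((div_eq_iff h2).1 h1).symm
  have h1 : D (algebraMap (RatFunc F) L r) * (algebraMap F[X] L q) ^ 2 =
      algebraMap F[X] L (derivative p * q - p * derivative q) := by
    have h2 := congrArg D hrq
    rw [D.leibniz, hD, hD, smul_eq_mul, smul_eq_mul] at h2
    have h3 : D (algebraMap (RatFunc F) L r) * (algebraMap F[X] L q) ^ 2 =
        (algebraMap (RatFunc F) L r * algebraMap F[X] L (derivative q) +
          algebraMap F[X] L q * D (algebraMap (RatFunc F) L r)) * algebraMap F[X] L q -
        (algebraMap (RatFunc F) L r * algebraMap F[X] L q) * algebraMap F[X] L (derivative q) := by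
      ring
    rw [h3, h2, hrq, map_sub, map_mul, map_mul]
  set W := derivative p * q - p * derivative q with hW
  refine ⟨RatFunc.X ^ 2 * (algebraMap F[X] (RatFunc F) W / algebraMap F[X] (RatFunc F) q ^ 2),
    ?_, ?_⟩
  · by_cases hW0 : W = 0
    · rw [hW0, map_zero, zero_div, mul_zero, RatFunc.intDegree_zero]
    · have hr0 : (p.natDegree : ℤ) - q.natDegree ≤ 0 := by
        have h2 : r.intDegree = (p.natDegree : ℤ) - q.natDegree := rfl
        rw [← h2]
        exact hr
      have hpq : p.natDegree ≤ q.natDegree := by omega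
      have hm : 1 ≤ q.natDegree := by
        by_contra h2
        have h3 : q.natDegree = 0 := by omega
        have h4 : p.natDegree = 0 := by omega
        obtain ⟨a, ha⟩ := natDegree_eq_zero.1 h3
        obtain ⟨b, hb⟩ := natDegree_eq_zero.1 h4
        apply hW0
        rw [hW, ← ha, ← hb, derivative_C, derivative_C, zero_mul, mul_zero, sub_zero]
      have h5 : W.natDegree + 2 ≤ 2 * q.natDegree := natDegree_wronsk p q hpq hq0 hm
      have hX : (RatFunc.X : RatFunc F) ≠ 0 := RatFunc.X_ne_zero
      have hWr : algebraMap F[X] (RatFunc F) W ≠ 0 := RatFunc.algebraMap_ne_zero hW0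
      have hqr : algebraMap F[X] (RatFunc F) q ≠ 0 := RatFunc.algebraMap_ne_zero hq0
      rw [RatFunc.intDegree_mul (pow_ne_zero 2 hX) (div_ne_zero hWr (pow_ne_zero 2 hqr)),
        RatFunc.intDegree_div hWr (pow_ne_zero 2 hqr), pow_two, pow_two,
        RatFunc.intDegree_mul hX hX, RatFunc.intDegree_mul hqr hqr, RatFunc.intDegree_X,
        RatFunc.intDegree_polynomial, RatFunc.intDegree_polynomial]
      omega
  · rw [map_mul, map_div₀, map_pow, map_pow, ← IsScalarTower.algebraMap_apply F[X] (RatFunc F) L,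
      ← IsScalarTower.algebraMap_apply F[X] (RatFunc F) L, ← h1]
    rw [mul_div_cancel_right₀ _ (pow_ne_zero 2 hφq0)]

end InfDerAux

open InfDerAux in
theorem infInt_der {F L : Type*} [Field F] [CharZero F] [Field L] [Algebra F L] [Algebra F[X] L]
    [Algebra (RatFunc F) L] [IsScalarTower F[X] (RatFunc F) L]
    [IsScalarTower F (RatFunc F) L] [FiniteDimensional (RatFunc F) L]
    (D : Derivation F L L)
    (hD : ∀ q : F[X], D (algebraMap F[X] L q) = algebraMap F[X] L (derivative q))
    (pb : PowerBasis (RatFunc F) L) (hpb : InfInt (algebraMap (RatFunc F) L) pb.gen)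
    (hdisc : (Algebra.discr (RatFunc F) pb.basis).intDegree = 0) {x : L}
    (hx : InfInt (algebraMap (RatFunc F) L) x) : InfInt (algebraMap (RatFunc F) L) (D x) := by
  classical
  set V : ValuationSubring (RatFunc F) := (RatFunc.inftyValuation F).valuationSubring with hV
  have hmem : ∀ r : RatFunc F, r ∈ V ↔ r.intDegree ≤ 0 := by
    intro r
    rw [hV, Valuation.mem_valuationSubring_iff, RatFunc.inftyValuation_apply,
      RatFunc.inftyValuationDef]
    by_cases h0 : r = 0
    · rw [if_pos h0, h0, RatFunc.intDegree_zero]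
      exact ⟨fun _ => le_rfl, fun _ => zero_le⟩
    · rw [if_neg h0]
      constructor
      · intro h
        have h1 : WithZero.exp r.intDegree ≤ WithZero.exp (0 : ℤ) := by
          rw [WithZero.exp_zero]; exact h
        exact WithZero.exp_le_exp.1 h1
      · intro h
        have h1 : WithZero.exp r.intDegree ≤ WithZero.exp (0 : ℤ) := WithZero.exp_le_exp.2 h
        rw [WithZero.exp_zero] at h1
        exact h1
  have : CharZero (RatFunc F) :=
    charZero_of_injective_algebraMap (algebraMap F (RatFunc F)).injective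
  have : Algebra.IsSeparable (RatFunc F) L := inferInstance
  let _ : Algebra V L := ((algebraMap (RatFunc F) L).comp (algebraMap V (RatFunc F))).toAlgebra
  have : IsScalarTower V (RatFunc F) L := IsScalarTower.of_algebraMap_eq (fun _ => rfl)
  have hto : ∀ y : L, InfInt (algebraMap (RatFunc F) L) y → IsIntegral V y := by
    rintro y ⟨g, hg, hg1, hg2⟩
    have hl : g ∈ Polynomial.lifts (algebraMap V (RatFunc F)) := by
      rw [Polynomial.lifts_iff_coeff_lifts]
      intro n
      exact ⟨⟨g.coeff n, (hmem _).2 (hg1 n)⟩, rfl⟩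
    obtain ⟨g', hg', -, hg3⟩ := Polynomial.lifts_and_natDegree_eq_and_monic hl hg
    refine ⟨g', hg3, ?_⟩
    rw [← hg', Polynomial.eval₂_map] at hg2
    exact hg2
  have hfrom : ∀ y : L, IsIntegral V y → InfInt (algebraMap (RatFunc F) L) y := by
    rintro y ⟨g, hg, hg2⟩
    refine ⟨g.map (algebraMap V (RatFunc F)), hg.map _, ?_, ?_⟩
    · intro i
      rw [Polynomial.coeff_map]
      exact (hmem _).1 (g.coeff i).2
    · rw [Polynomial.eval₂_map]
      exact hg2
  set δ : Derivation ℤ L L := (algebraMap (RatFunc F) L (RatFunc.X ^ 2)) • D.restrictScalars ℤ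
    with hδ
  have hδapp : ∀ y : L, δ y = algebraMap (RatFunc F) L (RatFunc.X ^ 2) * D y := fun y => rfl
  have hδV : ∀ r : V, ∃ r' : V, δ (algebraMap V L r) = algebraMap V L r' := by
    intro r
    obtain ⟨r', hr', hr''⟩ := der_base D hD (r : RatFunc F) ((hmem _).1 r.2)
    exact ⟨⟨r', (hmem _).2 hr'⟩, (hδapp _).trans hr''⟩
  have hmain := disc_der (R := V) (K := RatFunc F) pb (hto _ hpb) δ hδV x (hto _ hx)
  have hmain' := hfrom _ hmain
  have hd0 : Algebra.discr (RatFunc F) pb.basis ≠ 0 := Algebra.discr_not_zero_of_basis _ _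
  set d := Algebra.discr (RatFunc F) pb.basis with hd
  have hdeg : ((d⁻¹) ^ 2 * (RatFunc.X⁻¹) ^ 2 : RatFunc F).intDegree ≤ 0 := by
    have hX : (RatFunc.X : RatFunc F) ≠ 0 := RatFunc.X_ne_zero
    rw [RatFunc.intDegree_mul (pow_ne_zero 2 (inv_ne_zero hd0)) (pow_ne_zero 2 (inv_ne_zero hX)),
      pow_two, pow_two, RatFunc.intDegree_mul (inv_ne_zero hd0) (inv_ne_zero hd0),
      RatFunc.intDegree_mul (inv_ne_zero hX) (inv_ne_zero hX), RatFunc.intDegree_inv,
      RatFunc.intDegree_inv, hdisc, RatFunc.intDegree_X]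
    norm_num
  have hfin := infInt_mul (algebraMap (RatFunc F) L) (infInt_base (algebraMap (RatFunc F) L) hdeg)
    hmain'
  have heq : algebraMap (RatFunc F) L ((d⁻¹) ^ 2 * (RatFunc.X⁻¹) ^ 2) *
      (algebraMap (RatFunc F) L d ^ 2 * δ x) = D x := by
    have hX : algebraMap (RatFunc F) L RatFunc.X ≠ 0 :=
      (_root_.map_ne_zero _).2 RatFunc.X_ne_zero
    have hd1 : algebraMap (RatFunc F) L d ≠ 0 := (_root_.map_ne_zero _).2 hd0
    rw [hδapp, map_mul, map_pow, map_pow, map_inv₀, map_inv₀, map_pow]
    field_simp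
  rw [heq] at hfin
  exact hfin

end Pool.Agent.Lib.P62g
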