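import Pool.Agent.Lib.P62g.Base
import Pool.Agent.Lib.P62g.Prod

/-!
# Module P62g.Pole: a polynomial denominator

For nonzero `x ∈ L` there is a nonzero `s ∈ F[X]` with `s x` integral over `F[X]` and
`natDegree s ≤ Σ_p max 0 (log v_p(x))` (number of poles with multiplicity).

Proof. For each finite place `p`, `p ∩ F[X]` is a maximal ideal, so it contains some `X - C t_p`
(`F` algebraically closed): `v_p(X - t_p) < 1`, i.e. `≤ exp (-1)`. Let `s = Π_p (X - C t_p) ^ m_p`,
`m_p = (log v_p x)⁺` (finitely many nonzero, `P62g.Prod.val_finite` or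
`HeightOneSpectrum.Support.finite`; you may prove the finiteness again or import
`Pool.Agent.Lib.P62g.Prod`). Then `v_q(s x) ≤ 1` for every `q` (all factors have `v_q ≤ 1`, and the
factor of `q` gives `exp(-m_q)`), so `s x ∈ B`
(`IsDedekindDomain.HeightOneSpectrum.mem_integers_of_valuation_le_one`).
-/

namespace Pool.Agent.Lib.P62g

open Polynomial IsDedekindDomain WithZero

theorem exists_denominator {F L : Type*} [Field F] [IsAlgClosed F] [CharZero F] [Field L]
    [Algebra F[X] L] [Algebra (RatFunc F) L] [IsScalarTower F[X] (RatFunc F) L]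
    [FiniteDimensional (RatFunc F) L] (x : L) (hx : x ≠ 0) :
    ∃ s : F[X], s ≠ 0 ∧ algebraMap F[X] L s * x ∈ integralClosure F[X] L ∧
      (s.natDegree : ℤ) ≤ ∑ᶠ p : HeightOneSpectrum (integralClosure F[X] L),
        max 0 (WithZero.log (p.valuation L x)) := by
  classical
  have hfin := val_finite (F := F) x hx
  have ht : ∀ p : HeightOneSpectrum (integralClosure F[X] L), ∃ t : F,
      algebraMap F[X] (integralClosure F[X] L) (X - C t) ∈ p.asIdeal := by
    intro p
    have hp := p.isMaximal
    have hu : (p.asIdeal.under F[X]).IsMaximal := Ideal.IsMaximal.under F[X] p.asIdeal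
    obtain ⟨t, ht⟩ := ProdAux.exists_span _ hu
    refine ⟨t, ?_⟩
    have h1 : (X - C t) ∈ p.asIdeal.under F[X] := by
      rw [ht]
      exact Ideal.mem_span_singleton_self _
    exact h1
  choose t ht using ht
  set m : HeightOneSpectrum (integralClosure F[X] L) → ℕ :=
    fun p => (max 0 (WithZero.log (p.valuation L x))).toNat with hm
  have hmc : ∀ p, ((m p : ℕ) : ℤ) = max 0 (WithZero.log (p.valuation L x)) := by
    intro p
    rw [hm]
    exact Int.toNat_of_nonneg (le_max_left _ _)
  refine ⟨∏ p ∈ hfin.toFinset, (X - C (t p)) ^ m p, ?_, ?_, ?_⟩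
  · rw [Finset.prod_ne_zero_iff]
    intro p _
    exact pow_ne_zero _ (X_sub_C_ne_zero _)
  · set s : F[X] := ∏ p ∈ hfin.toFinset, (X - C (t p)) ^ m p with hs
    have hrange : algebraMap F[X] L s * x ∈
        (algebraMap (integralClosure F[X] L) L).range := by
      apply HeightOneSpectrum.mem_integers_of_valuation_le_one
      intro q
      have h1 : algebraMap F[X] L s =
          algebraMap (integralClosure F[X] L) L
            (algebraMap F[X] (integralClosure F[X] L) s) :=
        IsScalarTower.algebraMap_apply F[X] (integralClosure F[X] L) L s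
      rw [map_mul, h1, HeightOneSpectrum.valuation_of_algebraMap]
      by_cases hq : q ∈ hfin.toFinset
      · have hdvd : (X - C (t q)) ^ m q ∣ s := Finset.dvd_prod_of_mem _ hq
        obtain ⟨r, hr⟩ := hdvd
        have hmem : algebraMap F[X] (integralClosure F[X] L) s ∈ q.asIdeal ^ m q := by
          rw [hr, map_mul, map_pow]
          exact Ideal.mul_mem_right _ _ (Ideal.pow_mem_pow (ht q) _)
        have h2 := (HeightOneSpectrum.intValuation_le_pow_iff_mem q _ (m q)).2 hmem
        have hx0 : q.valuation L x ≠ 0 := (Valuation.ne_zero_iff _).2 hx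
        have h3 : q.valuation L x ≤ WithZero.exp ((m q : ℕ) : ℤ) := by
          rw [← WithZero.exp_log hx0, WithZero.exp_le_exp, hmc]
          exact le_max_right _ _
        calc q.intValuation (algebraMap F[X] (integralClosure F[X] L) s) * q.valuation L x
            ≤ WithZero.exp (-((m q : ℕ) : ℤ)) * WithZero.exp ((m q : ℕ) : ℤ) :=
              mul_le_mul' h2 h3
          _ = 1 := by
              rw [← WithZero.exp_add, neg_add_cancel, WithZero.exp_zero]
      · have h2 : q.valuation L x = 1 := by
          by_contra h3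
          exact hq ((Set.Finite.mem_toFinset _).2 h3)
        rw [h2, mul_one]
        exact HeightOneSpectrum.intValuation_le_one q _
    obtain ⟨b, hb⟩ := hrange
    rw [← hb]
    exact b.2
  · have h1 : (∏ p ∈ hfin.toFinset, (X - C (t p)) ^ m p).natDegree ≤
        ∑ p ∈ hfin.toFinset, m p := by
      refine (Polynomial.natDegree_prod_le _ _).trans (Finset.sum_le_sum fun p _ => ?_)
      refine (Polynomial.natDegree_pow_le).trans ?_
      rw [natDegree_X_sub_C, mul_one]
    have h2 : ∑ᶠ p : HeightOneSpectrum (integralClosure F[X] L),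
        max 0 (WithZero.log (p.valuation L x)) =
          ∑ p ∈ hfin.toFinset, max 0 (WithZero.log (p.valuation L x)) := by
      apply finsum_eq_sum_of_support_subset
      intro p hp
      rw [Finset.mem_coe, Set.Finite.mem_toFinset]
      intro h3
      rw [Function.mem_support] at hp
      apply hp
      rw [h3, WithZero.log_one, max_self]
    rw [h2]
    calc ((∏ p ∈ hfin.toFinset, (X - C (t p)) ^ m p).natDegree : ℤ)
        ≤ ((∑ p ∈ hfin.toFinset, m p : ℕ) : ℤ) := by exact_mod_cast h1
      _ = ∑ p ∈ hfin.toFinset, max 0 (WithZero.log (p.valuation L x)) := by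
          rw [Nat.cast_sum]
          exact Finset.sum_congr rfl fun p _ => hmc p

end Pool.Agent.Lib.P62g
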