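import Mathlib

/-!
# Module P62g.ScalePb: scaling a power basis

Proof. Let `w i = (s ^ i)` as a unit of `K`. Basis `pb.basis.unitsSMul w` (dimension `pb.dim`), whose
`i`-th vector is `s ^ i • ξ ^ i = (s ξ) ^ i`, so it is a power basis with generator
`algebraMap K L s * pb.gen`. Discriminant: `Algebra.discr_of_matrix_vecMul` (or
`discr_of_matrix_mulVec`) with the diagonal matrix of the `s ^ i`, whose determinant is
`s ^ (0 + 1 + ... + (n-1))`, and `2 (0 + ... + (n-1)) = n (n - 1)` (`Finset.sum_range_id_mul_two`).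
-/

namespace Pool.Agent.Lib.P62g

theorem scale_pb {K L : Type*} [Field K] [Field L] [Algebra K L] (pb : PowerBasis K L) (s : K)
    (hs : s ≠ 0) :
    ∃ pb' : PowerBasis K L, pb'.gen = algebraMap K L s * pb.gen ∧ pb'.dim = pb.dim ∧
      Algebra.discr K pb'.basis = s ^ (pb.dim * (pb.dim - 1)) * Algebra.discr K pb.basis := by
  classical
  let w : Fin pb.dim → Kˣ := fun i => (Units.mk0 s hs) ^ (i : ℕ)
  have hb : ∀ i, (pb.basis.unitsSMul w) i = (algebraMap K L s * pb.gen) ^ (i : ℕ) := by
    intro i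
    rw [Module.Basis.unitsSMul_apply, PowerBasis.basis_eq_pow]
    rw [mul_pow, ← map_pow, Units.smul_def, Algebra.smul_def]
    simp [w]
  refine ⟨⟨algebraMap K L s * pb.gen, pb.dim, pb.basis.unitsSMul w, hb⟩, rfl, rfl, ?_⟩
  have hv : (pb.basis.unitsSMul w : Fin pb.dim → L) =
      Matrix.vecMul (pb.basis : Fin pb.dim → L)
        ((Matrix.diagonal (fun i : Fin pb.dim => s ^ (i : ℕ))).map (algebraMap K L)) := by
    funext i
    rw [Module.Basis.unitsSMul_apply]
    simp only [Matrix.vecMul, dotProduct, Matrix.map_apply]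
    rw [Finset.sum_eq_single i]
    · rw [Matrix.diagonal_apply_eq, Units.smul_def, Algebra.smul_def, mul_comm]
      simp [w]
    · intro j _ hj
      rw [Matrix.diagonal_apply_ne _ hj]
      simp
    · intro h
      exact absurd (Finset.mem_univ i) h
  change Algebra.discr K (pb.basis.unitsSMul w : Fin pb.dim → L) = _
  rw [hv, Algebra.discr_of_matrix_vecMul, Matrix.det_diagonal]
  congr 1
  rw [Finset.prod_pow_eq_pow_sum, ← pow_mul]
  congr 1
  rw [Fin.sum_univ_eq_sum_range (fun i => i) pb.dim]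
  exact Finset.sum_range_id_mul_two pb.dim

end Pool.Agent.Lib.P62g
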