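import Pool.Agent.Lib.P62g.Base

/-!
# Module P62g.ValDer: derivations and valuations

`θ` is a derivation of `L` with `θ B ⊆ B`, `B = integralClosure F[X] L` (Dedekind, fraction field
`L`). For a finite place `p`:

* if `v(x) ≤ 1` then `x = a / s` with `a, s ∈ B`, `s ∉ p` (valuation ring = localization at `p`;
  Mathlib e.g. `HeightOneSpectrum.exists_..`/`IsLocalization.AtPrime`, or: the fractional ideal
  argument), and `θ x = (s θ a - a θ s) / s ^ 2` has `v ≤ 1` (elements of `B` have `v ≤ 1`,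
  `v(s) = 1`);
* in general take `π ∈ L` with `v(π) = exp (-1)` (`valuation_exists_uniformizer`, choose it in `B`),
  `x = π ^ k * ε` with `v(ε) = 1`, `k : ℤ`; `θ x = k π ^ (k-1) θ(π) ε + π ^ k θ ε`
  (`Derivation.leibniz_zpow` or similar), and `v(k) ≤ 1`, `v(θ π) ≤ 1`, `v(θ ε) ≤ 1`.
-/

namespace Pool.Agent.Lib.P62g

open Polynomial IsDedekindDomain WithZero

variable {F L : Type*} [Field F] [CharZero F] [Field L] [Algebra F[X] L]
  [Algebra (RatFunc F) L] [IsScalarTower F[X] (RatFunc F) L] [FiniteDimensional (RatFunc F) L]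

theorem val_der (θ : Derivation ℤ L L)
    (hθ : ∀ b ∈ integralClosure F[X] L, θ b ∈ integralClosure F[X] L)
    (p : HeightOneSpectrum (integralClosure F[X] L)) (x : L) :
    p.valuation L (θ x) ≤ exp (1 : ℤ) * p.valuation L x ∧
      (p.valuation L x ≤ 1 → p.valuation L (θ x) ≤ 1) := by
  have hB : ∀ b : integralClosure F[X] L, p.valuation L (θ (b : L)) ≤ 1 := fun b =>
    p.valuation_le_one (K := L) (⟨θ (b : L), hθ _ b.2⟩ : integralClosure F[X] L)
  have step1 : ∀ x : L, p.valuation L x ≤ 1 → p.valuation L (θ x) ≤ 1 := by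
    intro x hx
    obtain ⟨n, d, h⟩ := p.exists_primeCompl_mul_eq_of_integer x hx
    have hd : p.valuation L ((d : integralClosure F[X] L) : L) = 1 :=
      (p.valuation_eq_one_iff_notMem (K := L)).2 d.2
    have h1 : x * ((d : integralClosure F[X] L) : L) = (n : L) := h
    have h2 : θ x * ((d : integralClosure F[X] L) : L) =
        θ (n : L) - x * θ ((d : integralClosure F[X] L) : L) := by
      rw [← h1, Derivation.leibniz]
      simp only [smul_eq_mul]
      ring
    have h3 : p.valuation L (θ x) =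
        p.valuation L (θ x * ((d : integralClosure F[X] L) : L)) := by
      rw [map_mul, hd, mul_one]
    rw [h3, h2]
    refine le_trans (Valuation.map_sub _ _ _) (max_le (hB n) ?_)
    rw [map_mul]
    exact mul_le_one' hx (hB d)
  refine ⟨?_, step1 x⟩
  rcases eq_or_ne x 0 with rfl | hx0
  · simp
  obtain ⟨π, hπ⟩ := p.valuation_exists_uniformizer L
  have hv0 : p.valuation L x ≠ 0 := (Valuation.ne_zero_iff _).2 hx0
  have hπ0 : π ≠ 0 := by
    rintro rfl
    rw [map_zero] at hπ
    exact exp_ne_zero hπ.symm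
  have hπ1 : p.valuation L π ≤ 1 := by
    rw [hπ, ← exp_zero, exp_le_exp]
    norm_num
  set m : ℤ := log (p.valuation L x) with hm
  have hvx : p.valuation L x = exp m := (exp_log hv0).symm
  obtain ⟨ε, hε⟩ : ∃ ε : L, ε = x * π ^ m := ⟨_, rfl⟩
  have hvε : p.valuation L ε = 1 := by
    rw [hε, map_mul, map_zpow₀, hπ, hvx, ← exp_zsmul, ← exp_add]
    simp
  have hxε : x = π ^ (-m) * ε := by
    rw [hε, zpow_neg, mul_comm x, ← mul_assoc, inv_mul_cancel₀ (zpow_ne_zero _ hπ0), one_mul]
  have hθx : θ x = π ^ (-m) * θ ε + ε * (((-m : ℤ) : L) * (π ^ (-m - 1) * θ π)) := by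
    rw [hxε, Derivation.leibniz, Derivation.leibniz_zpow]
    simp only [smul_eq_mul, zsmul_eq_mul]
  have hint : p.valuation L (((-m : ℤ) : L)) ≤ 1 := by
    have e : algebraMap (integralClosure F[X] L) L ((-m : ℤ) : integralClosure F[X] L) =
        ((-m : ℤ) : L) := map_intCast _ _
    rw [← e]
    exact p.valuation_le_one (K := L) _
  have h1 : p.valuation L (π ^ (-m) * θ ε) ≤ exp (1 : ℤ) * exp m := by
    rw [map_mul, map_zpow₀, hπ, ← exp_zsmul]
    have e1 : exp (-m • (-1 : ℤ)) = exp m := by simp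
    rw [e1]
    calc exp m * p.valuation L (θ ε) ≤ exp m * 1 := by
          gcongr
          exact step1 ε hvε.le
      _ = 1 * exp m := by rw [mul_one, one_mul]
      _ ≤ exp (1 : ℤ) * exp m := by
          gcongr
          rw [← exp_zero, exp_le_exp]
          norm_num
  have h2 : p.valuation L (ε * (((-m : ℤ) : L) * (π ^ (-m - 1) * θ π))) ≤
      exp (1 : ℤ) * exp m := by
    rw [map_mul, map_mul, map_mul, map_zpow₀, hπ, hvε, one_mul, ← exp_zsmul]
    have e1 : exp ((-m - 1) • (-1 : ℤ)) = exp (1 : ℤ) * exp m := by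
      rw [← exp_add]
      congr 1
      simp only [smul_eq_mul]
      ring
    rw [e1]
    calc p.valuation L (((-m : ℤ) : L)) * (exp (1 : ℤ) * exp m * p.valuation L (θ π))
        ≤ 1 * (exp (1 : ℤ) * exp m * 1) := by
          gcongr
          exact step1 π hπ1
      _ = exp (1 : ℤ) * exp m := by rw [one_mul, mul_one]
  rw [hθx, hvx]
  exact le_trans (Valuation.map_add _ _ _) (max_le h1 h2)

end Pool.Agent.Lib.P62g
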