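import Pool.Agent.Lib.P62g.Geo
import Pool.Agent.Lib.P62g.Prod
import Pool.Agent.Lib.P62g.ValDer
import Pool.Agent.Lib.P62g.InfDer
import Pool.Agent.Lib.P62g.Der
import Pool.Agent.Lib.P62g.Pole
import Pool.Agent.Lib.P62g.ScalePb

/-!
# Module P62g.Build: construction of the `Geo` of a finite extension of `F(X)`

(imports `val_finite, sum_ord` (Prod), `val_der` (ValDer), `infInt_der` (InfDer), `disc_der`
(DiscDer), `infInt_*` (InfRing), `exists_der` (Der), `exists_denominator` (Pole), `scale_pb`
(ScalePb) as black boxes; the last two may still contain `sorry`.)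
`ξ = pb.gen ≠ 0` (if `ξ = 0` then `L = F(X)`, `n = 1`; treat it separately, or use
`s = 1`: `ξ = 0` is integral). Let `B = integralClosure F[X] L`.
* `s ∈ F[X]`, `s ≠ 0`, `s ξ ∈ B`, `deg s ≤ h(ξ) := Σ_p max 0 (log v_p(ξ))` (`exists_denominator`).
* `pb'` from `scale_pb` with `K = RatFunc F` and `algebraMap F[X] (RatFunc F) s`: generator
  `s ξ ∈ B`, `D := discr pb'.basis = s ^ (n(n-1)) * discr pb.basis`, `n = pb.dim = finrank`
  (`PowerBasis.finrank`), so `D.intDegree = n (n-1) deg s =: m`, `D ≠ 0`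
  (`Algebra.discr_not_zero_of_basis`). Note `D` has `intDegree ≥ 0`; write `m` as a natural number.
* `∂` from `exists_der`, `θ = (algebraMap D)^2 • ∂` (a `Derivation F L L`). `θ B ⊆ B`: `disc_der` with
  `R = F[X]`, `K = RatFunc F`, `pb'`, `δ = ∂` restricted to a `Derivation ℤ L L`
  (`Derivation.restrictScalars`), `∂ r = r'` for `r ∈ F[X]`.
* `κ = 2 n m`, `U = algebraMap F[X] L (X ^ (2 m))`.
Fields: `Pl = HeightOneSpectrum B`, `v p = p.valuation L`. `v_const`: `algebraMap F L c` and its
inverse lie in `B`, `valuation_le_one` twice. `v_fin` = `val_finite`. `θ_ker`: `D ≠ 0` and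
`exists_der`. `θ_v, θ_int`: `val_der`. `Inf`: the subring of `x` with `InfInt (algebraMap _ _) x`
(`infInt_add, infInt_mul, infInt_neg`, and `infInt_base` for `0, 1`). `Inf_const`: `infInt_base`
(`RatFunc.C c` has `intDegree 0`). `Inf_θ`: `θ x = U * y`, `y = algebraMap (D^2 / X^(2m)) * ∂ x`;
`intDegree (D ^ 2 / X ^ (2 m)) = 0`, `infInt_base`, `infInt_der` (with `pb`), `infInt_mul`.
`Inf_U`: `θ U = D^2 * (2m) X^(2m-1) = U^2 * y` with `y = algebraMap (D^2 * 2m X^(2m-1) / X^(4m))`
of `intDegree ≤ 0` (`y = 0` if `m = 0`). `tot_Inf`: `sum_ord`, `infInt_norm`. `tot_U`: `sum_ord`,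
`Algebra.norm_algebraMap`: `intDegree (X ^ (2 m) ^ n) = 2 m n = κ`. `const_of`:
`x ∈ B` by `IsDedekindDomain.HeightOneSpectrum.mem_integers_of_valuation_le_one`, then
`infInt_const`.
Conclusion: `κ = 2 n m = 2 n n (n-1) deg s ≤ 2 n^3 h(ξ)` and `G.h ξ` is (definitionally, up to
`neg_neg`) `Σ_p max 0 (log v_p(ξ))`.
-/

namespace Pool.Agent.Lib.P62g

open Polynomial IsDedekindDomain WithZero

namespace BuildAux

theorem intDegree_pow {F : Type*} [Field F] {r : RatFunc F} (hr : r ≠ 0) (n : ℕ) :
    (r ^ n).intDegree = n * r.intDegree := by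
  induction n with
  | zero => rw [pow_zero, RatFunc.intDegree_one]; simp
  | succ n ih =>
    rw [pow_succ, RatFunc.intDegree_mul (pow_ne_zero n hr) hr, ih]
    push_cast
    ring

/-- The ring of elements integral at infinity. -/
def infSub {F L : Type*} [Field F] [Field L] (φ : RatFunc F →+* L) : Subring L where
  carrier := {x | InfInt φ x}
  mul_mem' := fun hx hy => infInt_mul φ hx hy
  add_mem' := fun hx hy => infInt_add φ hx hy
  neg_mem' := fun hx => infInt_neg φ hx
  one_mem' := by
    have h := infInt_base φ (r := (1 : RatFunc F)) (by rw [RatFunc.intDegree_one])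
    rw [map_one] at h
    exact h
  zero_mem' := by
    have h := infInt_base φ (r := (0 : RatFunc F)) (by rw [RatFunc.intDegree_zero])
    rw [map_zero] at h
    exact h

theorem mem_infSub {F L : Type*} [Field F] [Field L] (φ : RatFunc F →+* L) (x : L) :
    x ∈ infSub φ ↔ InfInt φ x := Iff.rfl

section

variable {F L : Type*} [Field F] [IsAlgClosed F] [CharZero F] [Field L]
    [Algebra F L] [Algebra F[X] L] [Algebra (RatFunc F) L] [IsScalarTower F[X] (RatFunc F) L]
    [IsScalarTower F (RatFunc F) L]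

omit [IsAlgClosed F] [CharZero F] [Algebra F[X] L] [IsScalarTower F[X] (RatFunc F) L] in
theorem const_eq (c : F) : algebraMap F L c = algebraMap (RatFunc F) L (RatFunc.C c) := by
  rw [IsScalarTower.algebraMap_apply F (RatFunc F) L]
  rfl

omit [IsAlgClosed F] [CharZero F] in
theorem const_eq' (c : F) : algebraMap F L c = algebraMap F[X] L (C c) := by
  rw [const_eq, IsScalarTower.algebraMap_apply F[X] (RatFunc F) L, RatFunc.algebraMap_C]

omit [IsAlgClosed F] [CharZero F] in
theorem const_mem (c : F) : algebraMap F L c ∈ integralClosure F[X] L := by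
  rw [const_eq']
  exact isIntegral_algebraMap

variable [FiniteDimensional (RatFunc F) L]

omit [IsAlgClosed F] in
theorem v_const (p : HeightOneSpectrum (integralClosure F[X] L)) (c : F) (hc : c ≠ 0) :
    p.valuation L (algebraMap F L c) = 1 := by
  have h1 : ∀ c : F, p.valuation L (algebraMap F L c) ≤ 1 := fun c =>
    p.valuation_le_one (K := L) (⟨algebraMap F L c, const_mem c⟩ : integralClosure F[X] L)
  apply le_antisymm (h1 c)
  have h2 := h1 c⁻¹
  rw [map_inv₀, map_inv₀] at h2
  have h3 : p.valuation L (algebraMap F L c) ≠ 0 :=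
    (Valuation.ne_zero_iff _).2 ((map_ne_zero_iff _ (algebraMap F L).injective).2 hc)
  exact (inv_le_one₀ (zero_lt_iff.2 h3)).1 h2

omit [Algebra F L] [IsScalarTower F (RatFunc F) L] in
theorem exists_s (x : L) : ∃ s : F[X], s ≠ 0 ∧ algebraMap F[X] L s * x ∈ integralClosure F[X] L ∧
      (s.natDegree : ℤ) ≤ ∑ᶠ p : HeightOneSpectrum (integralClosure F[X] L),
        max 0 (WithZero.log (p.valuation L x)) := by
  by_cases hx : x = 0
  · subst hx
    refine ⟨1, one_ne_zero, ?_, ?_⟩
    · rw [mul_zero]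
      exact (integralClosure F[X] L).zero_mem
    · rw [natDegree_one]
      exact_mod_cast finsum_nonneg fun p => le_max_left _ _
  · exact exists_denominator x hx

end

end BuildAux

open BuildAux

theorem exists_geo_core {F L : Type*} [Field F] [IsAlgClosed F] [CharZero F] [Field L]
    [Algebra F L] [Algebra F[X] L] [Algebra (RatFunc F) L] [IsScalarTower F[X] (RatFunc F) L]
    [IsScalarTower F (RatFunc F) L] [FiniteDimensional (RatFunc F) L]
    (pb : PowerBasis (RatFunc F) L) (hpb : InfInt (algebraMap (RatFunc F) L) pb.gen)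
    (hdisc : (Algebra.discr (RatFunc F) pb.basis).intDegree = 0) :
    ∃ G : Geo F L, (∀ x, x ∈ G.Inf ↔ InfInt (algebraMap (RatFunc F) L) x) ∧
      (G.κ : ℤ) ≤ 2 * (Module.finrank (RatFunc F) L : ℤ) ^ 3 * G.h pb.gen := by
  obtain ⟨s, hs0, hsB, hsdeg⟩ := exists_s (F := F) (L := L) pb.gen
  have hsK : algebraMap F[X] (RatFunc F) s ≠ 0 :=
    (map_ne_zero_iff _ (IsFractionRing.injective F[X] (RatFunc F))).2 hs0
  obtain ⟨pb', hgen, hdim, hD⟩ := scale_pb pb (algebraMap F[X] (RatFunc F) s) hsK
  have hint : IsIntegral F[X] pb'.gen := by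
    rw [hgen, ← IsScalarTower.algebraMap_apply F[X] (RatFunc F) L]
    exact hsB
  have hn : pb.dim = Module.finrank (RatFunc F) L := pb.finrank.symm
  set n := Module.finrank (RatFunc F) L with hndef
  set m : ℕ := n * (n - 1) * s.natDegree with hm
  have hm' : m = pb.dim * (pb.dim - 1) * s.natDegree := by rw [hm, hn]
  set D := Algebra.discr (RatFunc F) pb'.basis with hDdef
  have hD0 : D ≠ 0 := Algebra.discr_not_zero_of_basis (RatFunc F) pb'.basis
  have hdisc0 : Algebra.discr (RatFunc F) pb.basis ≠ 0 :=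
    Algebra.discr_not_zero_of_basis (RatFunc F) pb.basis
  have hDdeg : D.intDegree = m := by
    rw [hD, RatFunc.intDegree_mul (pow_ne_zero _ hsK) hdisc0, intDegree_pow hsK, hdisc,
      RatFunc.intDegree_polynomial, hm', add_zero]
    push_cast
    rfl
  obtain ⟨δ, hδ, hδker⟩ := exists_der (F := F) (L := L)
  have hDL : algebraMap (RatFunc F) L D ≠ 0 :=
    (map_ne_zero_iff _ (algebraMap (RatFunc F) L).injective).2 hD0
  let θ : Derivation F L L := (algebraMap (RatFunc F) L D) ^ 2 • δ
  have hθ : ∀ x, θ x = (algebraMap (RatFunc F) L D) ^ 2 * δ x := fun x => rfl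
  have hθB : ∀ b ∈ integralClosure F[X] L, θ b ∈ integralClosure F[X] L := by
    intro b hb
    exact disc_der (R := F[X]) (K := RatFunc F) pb' hint (δ.restrictScalars ℤ)
      (fun r => ⟨derivative r, hδ r⟩) b hb
  have hX0 : (RatFunc.X : RatFunc F) ≠ 0 := RatFunc.X_ne_zero
  have hXL : algebraMap (RatFunc F) L (RatFunc.X ^ (2 * m)) ≠ 0 :=
    (map_ne_zero_iff _ (algebraMap (RatFunc F) L).injective).2 (pow_ne_zero _ hX0)
  have hXpow : (RatFunc.X ^ (2 * m) : RatFunc F) =
      algebraMap F[X] (RatFunc F) (X ^ (2 * m)) := by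
    rw [map_pow, RatFunc.algebraMap_X]
  have hδX : δ (algebraMap (RatFunc F) L (RatFunc.X ^ (2 * m))) =
      algebraMap (RatFunc F) L (algebraMap F[X] (RatFunc F) (derivative (X ^ (2 * m)))) := by
    rw [hXpow, ← IsScalarTower.algebraMap_apply F[X] (RatFunc F) L, hδ,
      ← IsScalarTower.algebraMap_apply F[X] (RatFunc F) L]
  refine ⟨{
    Pl := HeightOneSpectrum (integralClosure F[X] L)
    v := fun p => p.valuation L
    θ := θ
    Inf := infSub (algebraMap (RatFunc F) L)
    U := algebraMap (RatFunc F) L (RatFunc.X ^ (2 * m))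
    κ := 2 * n * m
    v_const := fun p c hc => v_const p c hc
    v_fin := fun x hx => val_finite x hx
    θ_ker := ?_
    θ_v := fun p x => (val_der (θ.restrictScalars ℤ) hθB p x).1
    θ_int := fun p x hx => (val_der (θ.restrictScalars ℤ) hθB p x).2 hx
    Inf_const := ?_
    Inf_θ := ?_
    Inf_U := ?_
    U_ne := hXL
    tot_Inf := ?_
    tot_U := ?_
    const_of := ?_ }, fun x => Iff.rfl, ?_⟩
  · intro x hx
    rw [hθ] at hx
    rcases mul_eq_zero.1 hx with h | h
    · exact absurd h (pow_ne_zero 2 hDL)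
    · exact hδker x h
  · intro c
    rw [mem_infSub, const_eq]
    exact infInt_base _ (by rw [RatFunc.intDegree_C])
  · intro x hx
    refine ⟨algebraMap (RatFunc F) L (D ^ 2 / RatFunc.X ^ (2 * m)) * δ x, ?_, ?_⟩
    · refine infInt_mul _ (infInt_base _ ?_) (infInt_der δ hδ pb hpb hdisc hx)
      rw [RatFunc.intDegree_div (pow_ne_zero 2 hD0) (pow_ne_zero _ hX0), intDegree_pow hD0,
        intDegree_pow hX0, hDdeg, RatFunc.intDegree_X]
      push_cast
      omega
    · have h1 : algebraMap (RatFunc F) L (D ^ 2 / RatFunc.X ^ (2 * m)) =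
          algebraMap (RatFunc F) L D ^ 2 / algebraMap (RatFunc F) L (RatFunc.X ^ (2 * m)) := by
        rw [map_div₀, map_pow (algebraMap (RatFunc F) L) D 2]
      rw [hθ, h1, ← mul_assoc, mul_div_cancel₀ _ hXL]
  · refine ⟨algebraMap (RatFunc F) L (D ^ 2 * algebraMap F[X] (RatFunc F)
      (derivative (X ^ (2 * m))) / (RatFunc.X ^ (2 * m)) ^ 2), infInt_base _ ?_, ?_⟩
    · by_cases hm0 : m = 0
      · rw [hm0, mul_zero, pow_zero, derivative_one, map_zero, mul_zero, zero_div,
          RatFunc.intDegree_zero]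
      · have hd0 : derivative (X ^ (2 * m) : F[X]) ≠ 0 := by
          rw [derivative_X_pow]
          refine mul_ne_zero ?_ (pow_ne_zero _ X_ne_zero)
          rw [Ne, C_eq_zero]
          have : 2 * m ≠ 0 := by omega
          exact_mod_cast this
        have hd1 : algebraMap F[X] (RatFunc F) (derivative (X ^ (2 * m))) ≠ 0 :=
          (map_ne_zero_iff _ (IsFractionRing.injective F[X] (RatFunc F))).2 hd0
        have hd2 : (derivative (X ^ (2 * m) : F[X])).natDegree ≤ 2 * m - 1 := by
          refine (natDegree_derivative_le _).trans ?_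
          rw [natDegree_X_pow]
        rw [RatFunc.intDegree_div (mul_ne_zero (pow_ne_zero 2 hD0) hd1)
          (pow_ne_zero 2 (pow_ne_zero _ hX0)),
          RatFunc.intDegree_mul (pow_ne_zero 2 hD0) hd1, intDegree_pow hD0,
          intDegree_pow (pow_ne_zero _ hX0),
          intDegree_pow hX0, hDdeg, RatFunc.intDegree_X, RatFunc.intDegree_polynomial]
        push_cast
        omega
    · rw [hθ, hδX]
      set E := algebraMap F[X] (RatFunc F) (derivative (X ^ (2 * m))) with hE
      have h1 : algebraMap (RatFunc F) L (D ^ 2 * E / (RatFunc.X ^ (2 * m)) ^ 2) =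
          algebraMap (RatFunc F) L D ^ 2 * algebraMap (RatFunc F) L E /
            (algebraMap (RatFunc F) L (RatFunc.X ^ (2 * m)) *
              algebraMap (RatFunc F) L (RatFunc.X ^ (2 * m))) := by
        rw [map_div₀, map_mul, map_pow (algebraMap (RatFunc F) L) D 2, pow_two (RatFunc.X ^ (2 * m)),
          map_mul (algebraMap (RatFunc F) L) (RatFunc.X ^ (2 * m))]
      rw [h1, mul_div_cancel₀ _ (mul_ne_zero hXL hXL)]
  · intro x hx hx0
    rw [sum_ord x hx0]
    exact infInt_norm hx
  · rw [sum_ord _ hXL, Algebra.norm_algebraMap, intDegree_pow (pow_ne_zero _ hX0),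
      intDegree_pow hX0, RatFunc.intDegree_X, ← hndef]
    push_cast
    apply le_of_eq
    ring
  · intro x hx hv
    obtain ⟨r, hr⟩ := HeightOneSpectrum.mem_integers_of_valuation_le_one
      (R := integralClosure F[X] L) L x hv
    have hxB : x ∈ integralClosure F[X] L := by
      rw [← hr]
      exact r.2
    obtain ⟨c, hc⟩ := infInt_const hx hxB
    exact ⟨c, hc.trans (const_eq c).symm⟩
  · have hh : (s.natDegree : ℤ) ≤ ∑ᶠ p : HeightOneSpectrum (integralClosure F[X] L),
        max 0 (-(-(WithZero.log (p.valuation L pb.gen)))) := by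
      simpa only [neg_neg] using hsdeg
    change ((2 * n * m : ℕ) : ℤ) ≤ 2 * (n : ℤ) ^ 3 *
      ∑ᶠ p : HeightOneSpectrum (integralClosure F[X] L),
        max 0 (-(-(WithZero.log (p.valuation L pb.gen))))
    refine le_trans ?_ (mul_le_mul_of_nonneg_left hh (by positivity))
    have h1 : 2 * n * m ≤ 2 * n ^ 3 * s.natDegree := by
      rw [hm]
      calc 2 * n * (n * (n - 1) * s.natDegree) ≤ 2 * n * (n * n * s.natDegree) := by
            gcongr
            omega
        _ = 2 * n ^ 3 * s.natDegree := by ring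
    exact_mod_cast h1

end Pool.Agent.Lib.P62g
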