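import Pool.Agent.Lib.P62a0c3.Scale

/-!
# Module P62g.CollB: reduction of bicritical maps at a valuation

(imports P62a0c3 as a black box: `toP1 p q = [p : q]`, `bic α β γ δ d : x ↦ (αx^d+β)/(γx^d+δ)` on
`OnePoint L`; `toP1_mul` in `Inv.lean`.)
`nmL q, dnL q` is a representative `(nm : dn)` of the point `q` of `ℙ¹(L)`: `(z : 1)` or `(1 : 0)`.
`nu v q = max (v nm) (v dn)` is nonzero. For `q, r` the number
`c(q, r) = v(nm q * dn r - nm r * dn q) / (nu q * nu r) ≤ 1`; `coll v q r` (the points have the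
same reduction) says `c(q, r) < 1`, and `clp v d z` says that `z ^ d` has the same reduction as `1`.

`collapse`. Write `x = 1`, `f = bic α β γ δ d`. For `q ∈ ℙ¹(L)` there is `c_q ≠ 0` in `L` with
`α nm(q)^d + β dn(q)^d = c_q nm(f q)`, `γ nm(q)^d + δ dn(q)^d = c_q dn(f q)` (the vector is not
zero by `hdet`, and `f q` is its class). So with `Δ = αδ - βγ`,
`(nm(fq) dn(fr) - nm(fr) dn(fq)) c_q c_r = Δ (nm(q)^d dn(r)^d - nm(r)^d dn(q)^d)`, and for all
points `x, y, z, w`, writing `[q,r] = nm q * dn r - nm r * dn q` and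
`[q,r]_d = nm(q)^d dn(r)^d - nm(r)^d dn(q)^d`:
`[fx,fy] [fz,fw] [x,w]_d [z,y]_d = [fx,fw] [fz,fy] [x,y]_d [z,w]_d` (cancel `c_x c_y c_z c_w ≠ 0`).
Take `x = 1` and the given `y, z, w`. `v(y^d - 1) < 1` gives `v(y) = 1`, `nu y = 1`,
`v [x,y]_d < 1`. `v [x,w]_d = nu(w)^d` (`hw`; `≤` always holds). `v [z,y]_d = nu(z)^d`:
`[z,y]_d = nm(z)^d - y^d dn(z)^d = (nm(z)^d - dn(z)^d) + (1 - y^d) dn(z)^d`, the first term has
value `nu(z)^d` (`hz`), the second is smaller. `v [fx,fy] = nu(fx) nu(fy)` (`hV`).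
`v[fx,fw] ≤ nu(fx) nu(fw)`, `v[fz,fy] ≤ nu(fz) nu(fy)`, `v[z,w]_d ≤ nu(z)^d nu(w)^d`. So
`nu(fx) nu(fy) v[fz,fw] nu(w)^d nu(z)^d ≤ nu(fx) nu(fw) nu(fz) nu(fy) v[x,y]_d nu(z)^d nu(w)^d`
and cancelling: `v [fz,fw] ≤ nu(fz) nu(fw) v[x,y]_d < nu(fz) nu(fw)`.

`fiber_card`: `f w = f z` with `z = ∞` forces `w = ∞` (by `hdet`), with `z ∈ L` forces `w ∈ L` and
`w^d = z^d` (`hdet`), at most `d` solutions (`Polynomial.nthRoots`, `card_nthRoots`).
Compare `Pool.Agent.Lib.P62a0c3.normalised`, `pow_eq_of_bic_eq`, `toP1_eq_imp` (`Preper.lean`) for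
similar proofs over `F(t)`.
-/

namespace Pool.Agent.Lib.P62g

open Pool.Agent.Lib.P62a0c3 WithZero

/-- First coordinate of a representative. -/
def nmL {L : Type*} [Field L] : OnePoint L → L
  | OnePoint.infty => 1
  | OnePoint.some z => z

/-- Second coordinate of a representative. -/
def dnL {L : Type*} [Field L] : OnePoint L → L
  | OnePoint.infty => 0
  | OnePoint.some _ => 1

/-- The size of the representative. -/
def nu {L : Type*} [Field L] (v : Valuation L ℤᵐ⁰) (q : OnePoint L) : ℤᵐ⁰ :=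
  max (v (nmL q)) (v (dnL q))

/-- `q` and `r` have the same reduction. -/
def coll {L : Type*} [Field L] (v : Valuation L ℤᵐ⁰) (q r : OnePoint L) : Prop :=
  v (nmL q * dnL r - nmL r * dnL q) < nu v q * nu v r

/-- `z ^ d` has the same reduction as `1`. -/
def clp {L : Type*} [Field L] (v : Valuation L ℤᵐ⁰) (d : ℕ) (z : OnePoint L) : Prop :=
  v (nmL z ^ d - dnL z ^ d) < nu v z ^ d

section aux

variable {L : Type*} [Field L]

private theorem rep_toP1 {p q : L} (h : p ≠ 0 ∨ q ≠ 0) :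
    ∃ c : L, c ≠ 0 ∧ p = c * nmL (toP1 p q) ∧ q = c * dnL (toP1 p q) := by
  by_cases hq : q = 0
  · have hp : p ≠ 0 := by
      rcases h with h | h
      · exact h
      · exact absurd hq h
    have h1 : toP1 p q = OnePoint.infty := by rw [toP1, if_pos hq]
    refine ⟨p, hp, ?_, ?_⟩
    · rw [h1]; exact (mul_one p).symm
    · rw [h1, hq]; exact (mul_zero p).symm
  · have h1 : toP1 p q = ((p / q : L) : OnePoint L) := by rw [toP1, if_neg hq]
    refine ⟨q, hq, ?_, ?_⟩
    · rw [h1]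
      change p = q * (p / q)
      field_simp
    · rw [h1]; exact (mul_one q).symm

private theorem toP1_eq_imp' {p q p' q' : L} (h : toP1 p q = toP1 p' q') : p * q' = p' * q := by
  unfold toP1 at h
  by_cases hq : q = 0
  · by_cases hq' : q' = 0
    · rw [hq, hq']; ring
    · rw [if_pos hq, if_neg hq'] at h
      exact absurd h.symm (OnePoint.coe_ne_infty _)
  · by_cases hq' : q' = 0
    · rw [if_neg hq, if_pos hq'] at h
      exact absurd h (OnePoint.coe_ne_infty _)
    · rw [if_neg hq, if_neg hq'] at h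
      exact (div_eq_div_iff hq hq').1 (OnePoint.coe_injective h)

private theorem pow_eq_of_bic_eq' {α β γ δ : L} (hdet : α * δ - β * γ ≠ 0) {d : ℕ} {z w : L}
    (h : bic α β γ δ d (z : OnePoint L) = bic α β γ δ d (w : OnePoint L)) : z ^ d = w ^ d := by
  rw [bic_some, bic_some] at h
  have h1 := toP1_eq_imp' h
  have h2 : (α * δ - β * γ) * (z ^ d - w ^ d) = 0 := by linear_combination h1
  exact sub_eq_zero.1 ((mul_eq_zero.1 h2).resolve_left hdet)

private theorem bic_rep {d : ℕ} (hd : d ≠ 0) {α β γ δ : L} (hdet : α * δ - β * γ ≠ 0)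
    (q : OnePoint L) :
    ∃ c : L, c ≠ 0 ∧ α * nmL q ^ d + β * dnL q ^ d = c * nmL (bic α β γ δ d q) ∧
      γ * nmL q ^ d + δ * dnL q ^ d = c * dnL (bic α β γ δ d q) := by
  induction q using OnePoint.rec with
  | infty =>
    rw [bic_infty]
    have e1 : α * nmL (OnePoint.infty : OnePoint L) ^ d + β * dnL (OnePoint.infty : OnePoint L) ^ d
        = α := by
      change α * (1 : L) ^ d + β * (0 : L) ^ d = α
      rw [one_pow, zero_pow hd]; ring
    have e2 : γ * nmL (OnePoint.infty : OnePoint L) ^ d + δ * dnL (OnePoint.infty : OnePoint L) ^ d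
        = γ := by
      change γ * (1 : L) ^ d + δ * (0 : L) ^ d = γ
      rw [one_pow, zero_pow hd]; ring
    rw [e1, e2]
    apply rep_toP1
    by_contra hcon
    push Not at hcon
    exact hdet (by rw [hcon.1, hcon.2]; ring)
  | coe z =>
    rw [bic_some]
    have e1 : α * nmL (z : OnePoint L) ^ d + β * dnL (z : OnePoint L) ^ d = α * z ^ d + β := by
      change α * z ^ d + β * (1 : L) ^ d = _
      rw [one_pow]; ring
    have e2 : γ * nmL (z : OnePoint L) ^ d + δ * dnL (z : OnePoint L) ^ d = γ * z ^ d + δ := by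
      change γ * z ^ d + δ * (1 : L) ^ d = _
      rw [one_pow]; ring
    rw [e1, e2]
    apply rep_toP1
    by_contra hcon
    push Not at hcon
    apply hdet
    have h1 : β = -(α * z ^ d) := by linear_combination hcon.1
    have h2 : δ = -(γ * z ^ d) := by linear_combination hcon.2
    rw [h1, h2]; ring

variable (v : Valuation L ℤᵐ⁰)

private theorem nu_pos (q : OnePoint L) : 0 < nu v q := by
  induction q using OnePoint.rec with
  | infty =>
    refine lt_of_lt_of_le ?_ (le_max_left _ _)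
    change 0 < v (1 : L)
    rw [map_one]; exact zero_lt_one
  | coe z =>
    refine lt_of_lt_of_le ?_ (le_max_right _ _)
    change 0 < v (1 : L)
    rw [map_one]; exact zero_lt_one

private theorem brk_le (d : ℕ) (q r : OnePoint L) :
    v (nmL q ^ d * dnL r ^ d - nmL r ^ d * dnL q ^ d) ≤ nu v q ^ d * nu v r ^ d := by
  refine (Valuation.map_sub v _ _).trans (max_le ?_ ?_)
  · rw [map_mul, map_pow, map_pow]
    exact mul_le_mul' (pow_le_pow_left' (le_max_left _ _) d) (pow_le_pow_left' (le_max_right _ _) d)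
  · rw [map_mul, map_pow, map_pow, mul_comm (nu v q ^ d)]
    exact mul_le_mul' (pow_le_pow_left' (le_max_left _ _) d) (pow_le_pow_left' (le_max_right _ _) d)

private theorem brk_le1 (q r : OnePoint L) :
    v (nmL q * dnL r - nmL r * dnL q) ≤ nu v q * nu v r := by
  have := brk_le v 1 q r
  simpa using this

private theorem clp_le (d : ℕ) (z : OnePoint L) :
    v (nmL z ^ d - dnL z ^ d) ≤ nu v z ^ d := by
  refine (Valuation.map_sub v _ _).trans (max_le ?_ ?_)
  · rw [map_pow]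
    exact pow_le_pow_left' (le_max_left _ _) d
  · rw [map_pow]
    exact pow_le_pow_left' (le_max_right _ _) d

private theorem brk_id {d : ℕ} (hd : d ≠ 0) {α β γ δ : L}
    (hdet : α * δ - β * γ ≠ 0) (x y z w : OnePoint L) :
    let f := bic α β γ δ d
    (nmL (f x) * dnL (f y) - nmL (f y) * dnL (f x)) *
      (nmL (f z) * dnL (f w) - nmL (f w) * dnL (f z)) *
      ((nmL x ^ d * dnL w ^ d - nmL w ^ d * dnL x ^ d) *
      (nmL z ^ d * dnL y ^ d - nmL y ^ d * dnL z ^ d)) =
    (nmL (f x) * dnL (f w) - nmL (f w) * dnL (f x)) *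
      (nmL (f z) * dnL (f y) - nmL (f y) * dnL (f z)) *
      ((nmL x ^ d * dnL y ^ d - nmL y ^ d * dnL x ^ d) *
      (nmL z ^ d * dnL w ^ d - nmL w ^ d * dnL z ^ d)) := by
  intro f
  obtain ⟨cx, hcx, x1, x2⟩ := bic_rep hd hdet x
  obtain ⟨cy, hcy, y1, y2⟩ := bic_rep hd hdet y
  obtain ⟨cz, hcz, z1, z2⟩ := bic_rep hd hdet z
  obtain ⟨cw, hcw, w1, w2⟩ := bic_rep hd hdet w
  have key : ∀ (a b : OnePoint L) (ca cb : L)
      (_ : α * nmL a ^ d + β * dnL a ^ d = ca * nmL (bic α β γ δ d a))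
      (_ : γ * nmL a ^ d + δ * dnL a ^ d = ca * dnL (bic α β γ δ d a))
      (_ : α * nmL b ^ d + β * dnL b ^ d = cb * nmL (bic α β γ δ d b))
      (_ : γ * nmL b ^ d + δ * dnL b ^ d = cb * dnL (bic α β γ δ d b)),
      (nmL (f a) * dnL (f b) - nmL (f b) * dnL (f a)) * (ca * cb) =
        (α * δ - β * γ) * (nmL a ^ d * dnL b ^ d - nmL b ^ d * dnL a ^ d) := by
    intro a b ca cb a1 a2 b1 b2
    have : (nmL (f a) * dnL (f b) - nmL (f b) * dnL (f a)) * (ca * cb) =
        (ca * nmL (bic α β γ δ d a)) * (cb * dnL (bic α β γ δ d b)) -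
          (cb * nmL (bic α β γ δ d b)) * (ca * dnL (bic α β γ δ d a)) := by
      simp only [f]; ring
    rw [this, ← a1, ← a2, ← b1, ← b2]; ring
  have kxy := key x y cx cy x1 x2 y1 y2
  have kzw := key z w cz cw z1 z2 w1 w2
  have kxw := key x w cx cw x1 x2 w1 w2
  have kzy := key z y cz cy z1 z2 y1 y2
  have hc : cx * cy * (cz * cw) ≠ 0 := mul_ne_zero (mul_ne_zero hcx hcy) (mul_ne_zero hcz hcw)
  apply mul_right_cancel₀ hc
  generalize nmL (f x) * dnL (f y) - nmL (f y) * dnL (f x) = A at *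
  generalize nmL (f z) * dnL (f w) - nmL (f w) * dnL (f z) = B at *
  generalize nmL (f x) * dnL (f w) - nmL (f w) * dnL (f x) = C at *
  generalize nmL (f z) * dnL (f y) - nmL (f y) * dnL (f z) = D at *
  generalize nmL x ^ d * dnL y ^ d - nmL y ^ d * dnL x ^ d = a at *
  generalize nmL z ^ d * dnL w ^ d - nmL w ^ d * dnL z ^ d = b at *
  generalize nmL x ^ d * dnL w ^ d - nmL w ^ d * dnL x ^ d = c at *
  generalize nmL z ^ d * dnL y ^ d - nmL y ^ d * dnL z ^ d = e at *
  have h1 : A * B * (c * e) * (cx * cy * (cz * cw)) = (A * (cx * cy)) * (B * (cz * cw)) * (c * e) := by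
    ring
  have h2 : C * D * (a * b) * (cx * cy * (cz * cw)) = (C * (cx * cw)) * (D * (cz * cy)) * (a * b) := by
    ring
  rw [h1, h2, kxy, kzw, kxw, kzy]; ring

end aux

theorem collapse {L : Type*} [Field L] (v : Valuation L ℤᵐ⁰) {d : ℕ} (hd : d ≠ 0) {α β γ δ : L}
    (hdet : α * δ - β * γ ≠ 0) {y : L} (hy : v (y ^ d - 1) < 1)
    (hV : ¬ coll v (bic α β γ δ d ((1 : L) : OnePoint L)) (bic α β γ δ d (y : OnePoint L)))
    {z w : OnePoint L} (hz : ¬ clp v d z) (hw : ¬ clp v d w) :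
    coll v (bic α β γ δ d z) (bic α β γ δ d w) := by
  have hid := congrArg v (brk_id hd hdet ((1 : L) : OnePoint L) (y : OnePoint L) z w)
  simp only [map_mul] at hid
  have e1 : v (nmL ((1 : L) : OnePoint L) ^ d * dnL w ^ d - nmL w ^ d * dnL ((1 : L) : OnePoint L) ^ d)
      = nu v w ^ d := by
    have h1 : nmL ((1 : L) : OnePoint L) ^ d * dnL w ^ d - nmL w ^ d * dnL ((1 : L) : OnePoint L) ^ d
        = -(nmL w ^ d - dnL w ^ d) := by
      change (1 : L) ^ d * dnL w ^ d - nmL w ^ d * (1 : L) ^ d = _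
      rw [one_pow]; ring
    rw [h1, Valuation.map_neg]
    exact le_antisymm (clp_le v d w) (not_lt.1 hw)
  have hy' : v (1 - y ^ d) < 1 := by rw [Valuation.map_sub_swap]; exact hy
  have e2 : v (nmL z ^ d * dnL (y : OnePoint L) ^ d - nmL (y : OnePoint L) ^ d * dnL z ^ d)
      = nu v z ^ d := by
    have h1 : nmL z ^ d * dnL (y : OnePoint L) ^ d - nmL (y : OnePoint L) ^ d * dnL z ^ d
        = (nmL z ^ d - dnL z ^ d) + (1 - y ^ d) * dnL z ^ d := by
      change nmL z ^ d * (1 : L) ^ d - y ^ d * dnL z ^ d = _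
      rw [one_pow]; ring
    have h2 : v (nmL z ^ d - dnL z ^ d) = nu v z ^ d := le_antisymm (clp_le v d z) (not_lt.1 hz)
    have h3 : v ((1 - y ^ d) * dnL z ^ d) < v (nmL z ^ d - dnL z ^ d) := by
      rw [h2, map_mul, map_pow]
      have h4 : v (dnL z) ^ d ≤ nu v z ^ d := pow_le_pow_left' (le_max_right _ _) d
      have h5 : 0 < nu v z ^ d := pow_pos (nu_pos v z) d
      calc v (1 - y ^ d) * v (dnL z) ^ d ≤ v (1 - y ^ d) * nu v z ^ d := mul_le_mul_right h4 _
        _ < 1 * nu v z ^ d := by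
          exact mul_lt_mul_of_pos_right hy' h5
        _ = nu v z ^ d := one_mul _
    rw [h1, Valuation.map_add_eq_of_lt_left v h3, h2]
  have e3 : v (nmL ((1 : L) : OnePoint L) ^ d * dnL (y : OnePoint L) ^ d -
      nmL (y : OnePoint L) ^ d * dnL ((1 : L) : OnePoint L) ^ d) = v (1 - y ^ d) := by
    congr 1
    change (1 : L) ^ d * (1 : L) ^ d - y ^ d * (1 : L) ^ d = _
    rw [one_pow]; ring
  have e4 := brk_le v d z w
  have e5 : nu v (bic α β γ δ d ((1 : L) : OnePoint L)) * nu v (bic α β γ δ d (y : OnePoint L)) ≤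
      v (nmL (bic α β γ δ d ((1 : L) : OnePoint L)) * dnL (bic α β γ δ d (y : OnePoint L)) -
      nmL (bic α β γ δ d (y : OnePoint L)) * dnL (bic α β γ δ d ((1 : L) : OnePoint L))) :=
    not_lt.1 hV
  have e6 := brk_le1 v (bic α β γ δ d ((1 : L) : OnePoint L)) (bic α β γ δ d w)
  have e7 := brk_le1 v (bic α β γ δ d z) (bic α β γ δ d (y : OnePoint L))
  have p1 := nu_pos v (bic α β γ δ d ((1 : L) : OnePoint L))
  have p2 := nu_pos v (bic α β γ δ d (y : OnePoint L))
  have p3 := nu_pos v (bic α β γ δ d z)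
  have p4 := nu_pos v (bic α β γ δ d w)
  have p5 := nu_pos v z
  have p6 := nu_pos v w
  rw [e1, e2, e3] at hid
  unfold coll
  generalize v (nmL (bic α β γ δ d z) * dnL (bic α β γ δ d w) -
    nmL (bic α β γ δ d w) * dnL (bic α β γ δ d z)) = V at *
  generalize v (nmL (bic α β γ δ d ((1 : L) : OnePoint L)) * dnL (bic α β γ δ d (y : OnePoint L)) -
      nmL (bic α β γ δ d (y : OnePoint L)) * dnL (bic α β γ δ d ((1 : L) : OnePoint L))) = A at *
  generalize v (nmL (bic α β γ δ d ((1 : L) : OnePoint L)) * dnL (bic α β γ δ d w) -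
      nmL (bic α β γ δ d w) * dnL (bic α β γ δ d ((1 : L) : OnePoint L))) = B at *
  generalize v (nmL (bic α β γ δ d z) * dnL (bic α β γ δ d (y : OnePoint L)) -
      nmL (bic α β γ δ d (y : OnePoint L)) * dnL (bic α β γ δ d z)) = C at *
  generalize nu v (bic α β γ δ d ((1 : L) : OnePoint L)) = n1 at *
  generalize nu v (bic α β γ δ d (y : OnePoint L)) = n2 at *
  generalize nu v (bic α β γ δ d z) = n3 at *
  generalize nu v (bic α β γ δ d w) = n4 at *
  generalize nu v z = n5 at *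
  generalize nu v w = n6 at *
  generalize v (nmL z ^ d * dnL w ^ d - nmL w ^ d * dnL z ^ d) = E at *
  generalize v (1 - y ^ d) = t at *
  -- A * V * (n6^d * n5^d) = B * C * (t * E)
  have q5 : 0 < n5 ^ d := pow_pos p5 d
  have q6 : 0 < n6 ^ d := pow_pos p6 d
  have hpos : 0 < n1 * n2 * (n6 ^ d * n5 ^ d) := mul_pos (mul_pos p1 p2) (mul_pos q6 q5)
  have step : (n1 * n2 * (n6 ^ d * n5 ^ d)) * V ≤ (n1 * n2 * (n6 ^ d * n5 ^ d)) * (n3 * n4 * t) := by
    calc (n1 * n2 * (n6 ^ d * n5 ^ d)) * V = (n1 * n2) * V * (n6 ^ d * n5 ^ d) := by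
          simp only [mul_comm, mul_left_comm, mul_assoc]
      _ ≤ A * V * (n6 ^ d * n5 ^ d) := mul_le_mul_left (mul_le_mul_left e5 _) _
      _ = B * C * (t * E) := hid
      _ ≤ (n1 * n4) * (n3 * n2) * (t * (n5 ^ d * n6 ^ d)) :=
          mul_le_mul' (mul_le_mul' e6 e7) (mul_le_mul_right e4 _)
      _ = (n1 * n2 * (n6 ^ d * n5 ^ d)) * (n3 * n4 * t) := by
          simp only [mul_comm, mul_left_comm, mul_assoc]
  have hV' : V ≤ n3 * n4 * t := le_of_mul_le_mul_left step hpos
  refine lt_of_le_of_lt hV' ?_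
  calc n3 * n4 * t < n3 * n4 * 1 := mul_lt_mul_of_pos_left hy' (mul_pos p3 p4)
    _ = n3 * n4 := mul_one _

theorem fiber_card {L : Type*} [Field L] {d : ℕ} (hd : d ≠ 0) {α β γ δ : L}
    (hdet : α * δ - β * γ ≠ 0) (P : Finset (OnePoint L)) (z : OnePoint L) :
    {w | w ∈ P ∧ bic α β γ δ d z = bic α β γ δ d w}.ncard ≤ d := by
  classical
  have hnz : ∀ u : L, bic α β γ δ d (OnePoint.infty : OnePoint L) ≠ bic α β γ δ d (u : OnePoint L) := by
    intro u h
    rw [bic_infty, bic_some] at h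
    have h1 := toP1_eq_imp' h
    exact hdet (by linear_combination h1)
  induction z using OnePoint.rec with
  | infty =>
    have hsub : {w | w ∈ P ∧ bic α β γ δ d (OnePoint.infty : OnePoint L) = bic α β γ δ d w} ⊆
        {OnePoint.infty} := by
      rintro w ⟨-, hw⟩
      induction w using OnePoint.rec with
      | infty => rfl
      | coe u => exact absurd hw (hnz u)
    refine (Set.ncard_le_ncard hsub (Set.finite_singleton _)).trans ?_
    rw [Set.ncard_singleton]
    exact Nat.one_le_iff_ne_zero.2 hd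
  | coe z =>
    have hsub : {w | w ∈ P ∧ bic α β γ δ d (z : OnePoint L) = bic α β γ δ d w} ⊆
        (((Polynomial.nthRoots d (z ^ d)).toFinset.image
          (fun w : L => (w : OnePoint L)) : Finset (OnePoint L)) : Set (OnePoint L)) := by
      rintro w ⟨-, hw⟩
      induction w using OnePoint.rec with
      | infty => exact absurd hw.symm (hnz z)
      | coe u =>
        rw [Finset.mem_coe]
        refine Finset.mem_image.2 ⟨u, ?_, rfl⟩
        rw [Multiset.mem_toFinset, Polynomial.mem_nthRoots (Nat.pos_of_ne_zero hd)]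
        exact (pow_eq_of_bic_eq' hdet hw).symm
    refine (Set.ncard_le_ncard hsub (Finset.finite_toSet _)).trans ?_
    rw [Set.ncard_coe_finset]
    exact Finset.card_image_le.trans ((Multiset.toFinset_card_le _).trans
      (Polynomial.card_nthRoots d _))

end Pool.Agent.Lib.P62g
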