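import Pool.Agent.Lib.P62g.Geo
import Pool.Agent.Lib.P62g.CollB

/-!
# Module P62g.CollA: two different points have the same reduction at few places

(imports only the DEFINITIONS `nmL, dnL, nu, coll` of CollB, used as a black box.)
A point is `∞`, `0` or a unit at infinity `z` (`z ≠ 0`, `z ∈ Inf`, `z⁻¹ ∈ Inf`) with `h z ≤ R`.
Symmetric in `q, r`.
* `q = z`, `r = w` nonzero, `z ≠ w`: `coll` at `p` says `v(z - w) < max(v z, 1) max(v w, 1)`. In
  additive form `ord(z - w) + max 0 (-ord z) + max 0 (-ord w) > 0`; the left side is `≥ 0` at every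
  place (ultrametric inequality). Sum over a finite set containing all supports: it is
  `tot (z - w) + h z + h w ≤ 0 + 2 R` (`Geo.tot_nonpos`, `z - w ∈ Inf`; `Geo.tot_eq_sum`,
  `Geo.h_eq_sum`), and each place in the set of the statement contributes at least `1`.
* `q = z ≠ 0`, `r = ∞`: `coll` says `1 < max(v z, 1)`, i.e. `ord z < 0`: at most `h z` places.
* `q = z ≠ 0`, `r = 0`: `coll` says `v z < max (v z) 1`, i.e. `ord z > 0`: at most `h z` places
  (`Geo.h_eq_zeros`).
* `q = 0, r = ∞` (or conversely): never `coll`.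
-/

namespace Pool.Agent.Lib.P62g

open WithZero

universe u w

namespace CollAAux

theorem count_le {ι : Type*} (A : Set ι) (S : Finset ι) (g : ι → ℤ)
    (hA : ∀ p ∈ A, p ∈ S ∧ 1 ≤ g p) (hg : ∀ p ∈ S, 0 ≤ g p) :
    A.Finite ∧ (A.ncard : ℤ) ≤ ∑ p ∈ S, g p := by
  classical
  have hsub : A ⊆ (↑S : Set ι) := fun p hp => (hA p hp).1
  refine ⟨S.finite_toSet.subset hsub, ?_⟩
  have h1 : A = ((S.filter (fun p => p ∈ A) : Finset ι) : Set ι) := by
    ext p
    rw [Finset.mem_coe, Finset.mem_filter]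
    exact ⟨fun hp => ⟨(hA p hp).1, hp⟩, fun hp => hp.2⟩
  have h2 : A.ncard = (S.filter (fun p => p ∈ A)).card := by
    conv_lhs => rw [h1]
    rw [Set.ncard_coe_finset]
  rw [h2]
  calc ((S.filter (fun p => p ∈ A)).card : ℤ) = ∑ p ∈ S.filter (fun p => p ∈ A), (1 : ℤ) := by
        rw [Finset.sum_const, nsmul_eq_mul, mul_one]
    _ ≤ ∑ p ∈ S.filter (fun p => p ∈ A), g p :=
        Finset.sum_le_sum fun p hp => (hA p (Finset.mem_filter.1 hp).2).2
    _ ≤ ∑ p ∈ S, g p :=
        Finset.sum_le_sum_of_subset_of_nonneg (Finset.filter_subset _ _) fun p hp _ => hg p hp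

section

variable {F : Type w} {L : Type u} [Field F] [Field L] [Algebra F L] (G : Geo F L)

theorem max_v {x : L} (hx : x ≠ 0) (p : G.Pl) :
    max (G.v p x) 1 = exp (max 0 (-(G.ord p x))) := by
  rw [Geo.v_eq hx p, ← exp_zero]
  rcases le_total 0 (-(G.ord p x)) with h | h
  · rw [max_eq_left (exp_le_exp.2 h), max_eq_right h]
  · rw [max_eq_right (exp_le_exp.2 h), max_eq_left h]

theorem poles {x : L} (hx : x ≠ 0) :
    {p | 1 < G.v p x}.Finite ∧ ({p | 1 < G.v p x}.ncard : ℤ) ≤ G.h x := by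
  classical
  have hS : ∀ p, G.ord p x ≠ 0 → p ∈ (Geo.ord_fin (G := G) x).toFinset := by
    intro p hp
    rw [Set.Finite.mem_toFinset]
    exact hp
  rw [Geo.h_eq_sum _ hS]
  refine count_le _ _ _ ?_ fun p _ => le_max_left _ _
  intro p hp
  have h1 : ¬ G.v p x ≤ 1 := not_le.2 hp
  rw [Geo.v_le_one_iff hx] at h1
  exact ⟨hS p (by omega), le_max_of_le_right (by omega)⟩

theorem zeros {x : L} (hx : x ≠ 0) (h1 : x ∈ G.Inf) (h2 : x⁻¹ ∈ G.Inf) :
    {p | G.v p x < 1}.Finite ∧ ({p | G.v p x < 1}.ncard : ℤ) ≤ G.h x := by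
  classical
  have hS : ∀ p, G.ord p x ≠ 0 → p ∈ (Geo.ord_fin (G := G) x).toFinset := by
    intro p hp
    rw [Set.Finite.mem_toFinset]
    exact hp
  rw [Geo.h_eq_zeros hx h1 h2 _ hS]
  refine count_le _ _ _ ?_ fun p _ => le_max_left _ _
  intro p hp
  have h3 : 0 < G.ord p x := (Geo.v_lt_one_iff hx p).1 hp
  exact ⟨hS p (by omega), le_max_of_le_right (by omega)⟩

theorem diffs {z w : L} (hz : z ≠ 0) (hw : w ≠ 0) (hzw : z ≠ w) (h1 : z ∈ G.Inf)
    (h2 : w ∈ G.Inf) :
    {p | G.v p (z - w) < max (G.v p z) 1 * max (G.v p w) 1}.Finite ∧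
    ({p | G.v p (z - w) < max (G.v p z) 1 * max (G.v p w) 1}.ncard : ℤ) ≤ G.h z + G.h w := by
  classical
  have hd : z - w ≠ 0 := sub_ne_zero.2 hzw
  obtain ⟨S, hSz, hSw, hSd⟩ : ∃ S : Finset G.Pl, (∀ p, G.ord p z ≠ 0 → p ∈ S) ∧
      (∀ p, G.ord p w ≠ 0 → p ∈ S) ∧ (∀ p, G.ord p (z - w) ≠ 0 → p ∈ S) := by
    refine ⟨(Geo.ord_fin z).toFinset ∪ (Geo.ord_fin w).toFinset ∪
      (Geo.ord_fin (z - w)).toFinset, ?_, ?_, ?_⟩ <;>
    · intro p hp
      simp only [Finset.mem_union, Set.Finite.mem_toFinset, Set.mem_ofPred_eq]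
      tauto
  have hiff : ∀ p, (G.v p (z - w) < max (G.v p z) 1 * max (G.v p w) 1 ↔
      1 ≤ G.ord p (z - w) + max 0 (-(G.ord p z)) + max 0 (-(G.ord p w))) := by
    intro p
    rw [max_v G hz, max_v G hw, Geo.v_eq hd, ← exp_add, exp_lt_exp]
    omega
  have hnn : ∀ p, 0 ≤ G.ord p (z - w) + max 0 (-(G.ord p z)) + max 0 (-(G.ord p w)) := by
    intro p
    have h3 : G.v p (z - w) ≤ max (G.v p z) 1 * max (G.v p w) 1 := by
      refine ((G.v p).map_sub _ _).trans (max_le ?_ ?_)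
      · calc G.v p z ≤ max (G.v p z) 1 := le_max_left _ _
          _ = max (G.v p z) 1 * 1 := (mul_one _).symm
          _ ≤ max (G.v p z) 1 * max (G.v p w) 1 := mul_le_mul_right (le_max_right _ _) _
      · calc G.v p w ≤ max (G.v p w) 1 := le_max_left _ _
          _ = 1 * max (G.v p w) 1 := (one_mul _).symm
          _ ≤ max (G.v p z) 1 * max (G.v p w) 1 := mul_le_mul_left (le_max_right _ _) _
    rw [max_v G hz, max_v G hw, Geo.v_eq hd, ← exp_add, exp_le_exp] at h3
    omega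
  have h5 : ∑ p ∈ S, (G.ord p (z - w) + max 0 (-(G.ord p z)) + max 0 (-(G.ord p w))) ≤
      G.h z + G.h w := by
    rw [Finset.sum_add_distrib, Finset.sum_add_distrib, ← Geo.h_eq_sum S hSz,
      ← Geo.h_eq_sum S hSw, ← Geo.tot_eq_sum S hSd]
    have := Geo.tot_nonpos (G := G) hd (G.Inf.sub_mem h1 h2)
    linarith
  have h6 := count_le {p | G.v p (z - w) < max (G.v p z) 1 * max (G.v p w) 1} S
    (fun p => G.ord p (z - w) + max 0 (-(G.ord p z)) + max 0 (-(G.ord p w))) (by
      intro p hp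
      have h7 := (hiff p).1 hp
      refine ⟨?_, h7⟩
      by_contra hpS
      have a1 : G.ord p z = 0 := by
        by_contra h
        exact hpS (hSz p h)
      have a2 : G.ord p w = 0 := by
        by_contra h
        exact hpS (hSw p h)
      have a3 : G.ord p (z - w) = 0 := by
        by_contra h
        exact hpS (hSd p h)
      rw [a1, a2, a3] at h7
      simp at h7) (fun p _ => hnn p)
  exact ⟨h6.1, h6.2.trans h5⟩

end

end CollAAux

open CollAAux in
theorem ncard_coll {F : Type w} {L : Type u} [Field F] [CharZero F] [Field L] [Algebra F L]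
    (G : Geo F L) {R : ℤ} (hR : 0 ≤ R) {q r : OnePoint L}
    (hq : ∀ z : L, q = (z : OnePoint L) → z ≠ 0 → z ∈ G.Inf ∧ z⁻¹ ∈ G.Inf ∧ G.h z ≤ R)
    (hr : ∀ z : L, r = (z : OnePoint L) → z ≠ 0 → z ∈ G.Inf ∧ z⁻¹ ∈ G.Inf ∧ G.h z ≤ R)
    (hqr : q ≠ r) :
    {p | coll (G.v p) q r}.Finite ∧ ({p | coll (G.v p) q r}.ncard : ℤ) ≤ 2 * R := by
  have hempty : ∀ A : Set G.Pl, (∀ p, p ∉ A) → A.Finite ∧ (A.ncard : ℤ) ≤ 2 * R := by
    intro A hA
    have : A = ∅ := Set.eq_empty_of_forall_notMem hA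
    rw [this]
    refine ⟨Set.finite_empty, ?_⟩
    rw [Set.ncard_empty]
    push_cast
    omega
  have hpole : ∀ (A : Set G.Pl) (x : L), x ≠ 0 → G.h x ≤ R → (∀ p, p ∈ A ↔ 1 < G.v p x) →
      A.Finite ∧ (A.ncard : ℤ) ≤ 2 * R := by
    intro A x hx hh hA
    have h1 : A = {p | 1 < G.v p x} := Set.ext hA
    rw [h1]
    have h2 := poles G hx
    exact ⟨h2.1, by linarith [h2.2]⟩
  have hzero : ∀ (A : Set G.Pl) (x : L), x ≠ 0 → x ∈ G.Inf → x⁻¹ ∈ G.Inf → G.h x ≤ R →
      (∀ p, p ∈ A ↔ G.v p x < 1) → A.Finite ∧ (A.ncard : ℤ) ≤ 2 * R := by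
    intro A x hx hx1 hx2 hh hA
    have h1 : A = {p | G.v p x < 1} := Set.ext hA
    rw [h1]
    have h2 := zeros G hx hx1 hx2
    exact ⟨h2.1, by linarith [h2.2]⟩
  have hlt : ∀ a : ℤᵐ⁰, 1 < max a 1 ↔ 1 < a := by
    intro a
    rw [lt_max_iff]
    exact ⟨fun h => h.resolve_right (lt_irrefl _), Or.inl⟩
  have hlt2 : ∀ a : ℤᵐ⁰, a < max a 1 ↔ a < 1 := by
    intro a
    rw [lt_max_iff]
    exact ⟨fun h => h.resolve_left (lt_irrefl _), Or.inr⟩
  induction q using OnePoint.rec with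
  | infty =>
    induction r using OnePoint.rec with
    | infty => exact absurd rfl hqr
    | coe w =>
      have hc : ∀ p, coll (G.v p) OnePoint.infty (w : OnePoint L) ↔ 1 < G.v p w := by
        intro p
        show G.v p (1 * 1 - w * 0) < max (G.v p 1) (G.v p 0) * max (G.v p w) (G.v p 1) ↔ _
        rw [mul_zero, mul_one, sub_zero, map_one, map_zero, max_eq_left (zero_le_one' ℤᵐ⁰),
          one_mul]
        exact hlt _
      by_cases hw : w = 0
      · refine hempty _ fun p hp => ?_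
        have h1 := (hc p).1 hp
        rw [hw, map_zero] at h1
        exact absurd h1 (not_lt.2 (zero_le_one' ℤᵐ⁰))
      · exact hpole _ w hw (hr w rfl hw).2.2 hc
  | coe z =>
    induction r using OnePoint.rec with
    | infty =>
      have hc : ∀ p, coll (G.v p) (z : OnePoint L) OnePoint.infty ↔ 1 < G.v p z := by
        intro p
        show G.v p (z * 0 - 1 * 1) < max (G.v p z) (G.v p 1) * max (G.v p 1) (G.v p 0) ↔ _
        rw [mul_zero, mul_one, zero_sub, Valuation.map_neg, map_one, map_zero,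
          max_eq_left (zero_le_one' ℤᵐ⁰), mul_one]
        exact hlt _
      by_cases hz : z = 0
      · refine hempty _ fun p hp => ?_
        have h1 := (hc p).1 hp
        rw [hz, map_zero] at h1
        exact absurd h1 (not_lt.2 (zero_le_one' ℤᵐ⁰))
      · exact hpole _ z hz (hq z rfl hz).2.2 hc
    | coe w =>
      have hc : ∀ p, coll (G.v p) (z : OnePoint L) (w : OnePoint L) ↔
          G.v p (z - w) < max (G.v p z) 1 * max (G.v p w) 1 := by
        intro p
        show G.v p (z * 1 - w * 1) < max (G.v p z) (G.v p 1) * max (G.v p w) (G.v p 1) ↔ _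
        rw [mul_one, mul_one, map_one]
      have hzw : z ≠ w := fun h => hqr (by rw [h])
      by_cases hz : z = 0
      · have hw : w ≠ 0 := fun h => hzw (hz.trans h.symm)
        obtain ⟨a1, a2, a3⟩ := hr w rfl hw
        refine hzero _ w hw a1 a2 a3 fun p => ?_
        show coll (G.v p) (z : OnePoint L) (w : OnePoint L) ↔ _
        rw [hc p, hz, zero_sub, Valuation.map_neg, map_zero, max_eq_right (zero_le_one' ℤᵐ⁰),
          one_mul]
        exact hlt2 _
      · obtain ⟨a1, a2, a3⟩ := hq z rfl hz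
        by_cases hw : w = 0
        · refine hzero _ z hz a1 a2 a3 fun p => ?_
          show coll (G.v p) (z : OnePoint L) (w : OnePoint L) ↔ _
          rw [hc p, hw, sub_zero, map_zero, max_eq_right (zero_le_one' ℤᵐ⁰), mul_one]
          exact hlt2 _
        · obtain ⟨b1, b2, b3⟩ := hr w rfl hw
          have h1 : {p | coll (G.v p) (z : OnePoint L) (w : OnePoint L)} =
              {p | G.v p (z - w) < max (G.v p z) 1 * max (G.v p w) 1} := Set.ext hc
          rw [h1]
          have h2 := diffs G hz hw hzw a1 b1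
          exact ⟨h2.1, by linarith [h2.2]⟩

end Pool.Agent.Lib.P62g
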