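import Pool.Agent.Lib.P62a0c3.Scale

/-!
# Bicritical maps preserving many points of a subfield have coefficients in the subfield
-/

namespace Pool.Agent.Lib.P62g

open Polynomial Pool.Agent.Lib.P62a0c3

/-- If `bic α β γ δ d` preserves a finite set of more than `3 d + 1` points, all of whose finite
points lie in the subfield `F`, then its coefficients lie in `F` up to a common factor. -/
theorem const_of_points {F K : Type*} [Field F] [Field K] [Algebra F K] {d : ℕ} (hd : 1 ≤ d)
    {α β γ δ : K} (hdet : α * δ - β * γ ≠ 0) (P : Finset (OnePoint K))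
    (hP : ∀ p ∈ P, bic α β γ δ d p ∈ P)
    (hconst : ∀ z : K, (z : OnePoint K) ∈ P → ∃ c : F, z = algebraMap F K c)
    (hcard : 3 * d + 2 ≤ P.card) :
    ∃ (l : K) (α0 β0 γ0 δ0 : F), l ≠ 0 ∧ α = l * algebraMap F K α0 ∧ β = l * algebraMap F K β0 ∧
      γ = l * algebraMap F K γ0 ∧ δ = l * algebraMap F K δ0 := by
  classical
  set φ := algebraMap F K with hφ
  have hinj : Function.Injective φ := FaithfulSMul.algebraMap_injective _ _
  have hinj2 : Function.Injective (fun c : F => ((φ c : K) : OnePoint K)) :=
    OnePoint.coe_injective.comp hinj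
  set C0 : Finset F := (P.preimage (fun c : F => ((φ c : K) : OnePoint K)) hinj2.injOn) with hC0
  have hC0mem : ∀ c, c ∈ C0 ↔ ((φ c : K) : OnePoint K) ∈ P := by
    intro c; rw [hC0, Finset.mem_preimage]
  have hC0card : P.card ≤ C0.card + 1 := by
    have h1 : P ⊆ (C0.image fun c : F => ((φ c : K) : OnePoint K)) ∪ {OnePoint.infty} := by
      intro p hp
      rw [Finset.mem_union]
      induction p using OnePoint.rec with
      | infty => right; simp
      | coe z =>
        left
        obtain ⟨c, hc⟩ := hconst z hp
        exact Finset.mem_image.2 ⟨c, (hC0mem c).2 (by rw [← hc]; exact hp), by rw [hc]⟩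
    refine (Finset.card_le_card h1).trans ((Finset.card_union_le _ _).trans ?_)
    exact Nat.add_le_add Finset.card_image_le (by simp)
  set U := C0.image fun c : F => c ^ d with hU
  have hUcard : C0.card ≤ d * U.card := by
    apply Finset.card_le_mul_card_image
    intro a _
    calc _ ≤ (nthRoots d a).toFinset.card := by
          apply Finset.card_le_card
          intro c hc
          rw [Multiset.mem_toFinset, mem_nthRoots (by omega)]
          exact (Finset.mem_filter.1 hc).2
      _ ≤ (nthRoots d a).card := Multiset.toFinset_card_le _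
      _ ≤ d := card_nthRoots d a
  set U' := U.filter fun u => γ * φ u + δ ≠ 0 with hU'
  have hU'card : U.card ≤ U'.card + 1 := by
    have h1 : (U.filter fun u => ¬ (γ * φ u + δ ≠ 0)).card ≤ 1 := by
      rw [Finset.card_le_one]
      intro u hu u' hu'
      have e1 : γ * φ u + δ = 0 := by
        have := (Finset.mem_filter.1 hu).2
        push Not at this
        exact this
      have e2 : γ * φ u' + δ = 0 := by
        have := (Finset.mem_filter.1 hu').2
        push Not at this
        exact this
      have e3 : γ * (φ u - φ u') = 0 := by linear_combination e1 - e2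
      rcases mul_eq_zero.1 e3 with h | h
      · exfalso
        rw [h, zero_mul, zero_add] at e1
        apply hdet
        rw [h, e1]; ring
      · exact hinj (sub_eq_zero.1 h)
    have h2 := Finset.card_filter_add_card_filter_not (s := U) (fun u => γ * φ u + δ ≠ 0)
    rw [← h2]
    exact Nat.add_le_add_left h1 _
  have hbig : 2 < U'.card := by
    by_contra hcon
    have h1 : U.card ≤ 3 := by omega
    have h2 : d * U.card ≤ d * 3 := Nat.mul_le_mul_left d h1
    omega
  obtain ⟨u1, hu1, u2, hu2, u3, hu3, h12, h13, h23⟩ := Finset.two_lt_card.1 hbig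
  have hval : ∀ u ∈ U', ∃ v : F, α * φ u + β = φ v * (γ * φ u + δ) := by
    intro u hu
    obtain ⟨huU, hne⟩ := Finset.mem_filter.1 hu
    obtain ⟨c, hc, rfl⟩ := Finset.mem_image.1 huU
    have h1 := hP _ ((hC0mem c).1 hc)
    rw [bic_some, ← map_pow] at h1
    unfold toP1 at h1
    rw [if_neg hne] at h1
    obtain ⟨v, hv⟩ := hconst _ h1
    refine ⟨v, ?_⟩
    rw [← hv]
    exact (div_mul_cancel₀ _ hne).symm
  obtain ⟨v1, e1⟩ := hval u1 hu1
  obtain ⟨v2, e2⟩ := hval u2 hu2
  obtain ⟨v3, e3⟩ := hval u3 hu3
  exact const_matrix hdet h12 h13 h23 e1 e2 e3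

end Pool.Agent.Lib.P62g
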