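import Pool.Agent.Lib.P62g.Base

/-!
# Module P62g.Generic: integrality at a generic place

`u ∈ L` transcendental over `F`, `x ∈ L` algebraic over `F(u)`. For all but finitely many `c ∈ F`
the element `x` is integral at the places above `u = c`, i.e. at infinity for the coordinate
`w = 1 / (u - c)`.

Proof. Clear denominators: there are `a_0, …, a_N ∈ F[X]`, `a_N ≠ 0`, with
`Σ a_i(u) x ^ i = 0` and `N ≥ 1` (multiply the minimal polynomial over `F(u)` by a common
denominator). Let `S` be the set of roots of `a_N`. For `c ∉ S` divide by `a_N(u) ≠ 0`: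
`q = X ^ N + Σ_{i<N} r_i X ^ i`, where `r_i ∈ RatFunc F` must satisfy `φ r_i = a_i(u) / a_N(u)` and
`intDegree r_i ≤ 0`. With `w = φ(X) = 1/(u-c)`, `u = c + 1/w`; let `M` be at least all degrees of
the `a_i`; `A_i = reflect M (a_i.comp (X + C c))`, so that `A_i(w) = w ^ M * a_i(c + 1/w)
= w ^ M * a_i(u)`, `natDegree A_i ≤ M` and `coeff A_N M = a_N(c) ≠ 0` so `natDegree A_N = M`.
Put `r_i = A_i / A_N ∈ RatFunc F`. Then `φ r_i = A_i(w) / A_N(w) = a_i(u) / a_N(u)` and
`intDegree r_i = natDegree A_i - natDegree A_N ≤ 0` (or `r_i = 0`).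
-/

namespace Pool.Agent.Lib.P62g

open Polynomial IntermediateField

theorem generic_phi_algebraMap {F L : Type*} [Field F] [Field L] [Algebra F L]
    (φ : RatFunc F →+* L) (hC : ∀ a : F, φ (RatFunc.C a) = algebraMap F L a) (f : F[X]) :
    φ (algebraMap F[X] (RatFunc F) f) = aeval (φ RatFunc.X) f := by
  have h : (φ.comp (algebraMap F[X] (RatFunc F))) = (aeval (φ RatFunc.X) : F[X] →ₐ[F] L).toRingHom := by
    refine Polynomial.ringHom_ext (fun a => ?_) ?_
    · simp [hC]
    · simp
  exact congrArg (fun g : F[X] →+* L => g f) h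

/-- algebraic over `F(u)`: an equation with coefficients in `F[u]` -/
theorem generic_exists_coeffs {F L : Type*} [Field F] [Field L] [Algebra F L] (u : L)
    (x : L) (hx : IsAlgebraic F⟮u⟯ x) :
    ∃ (N : ℕ) (a : ℕ → F[X]), aeval u (a N) ≠ 0 ∧
      ∑ i ∈ Finset.range (N + 1), aeval u (a i) * x ^ i = 0 := by
  open scoped algebraAdjoinAdjoin in
  have hx' : IsAlgebraic (Algebra.adjoin F {u}) x :=
    (IsFractionRing.isAlgebraic_iff (Algebra.adjoin F {u}) F⟮u⟯ L).2 hx
  obtain ⟨p, hp0, hp⟩ := hx'
  have hmem : ∀ i, ∃ a : F[X], aeval u a = ((p.coeff i : Algebra.adjoin F {u}) : L) := by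
    intro i
    have h : ∀ z ∈ Algebra.adjoin F {u}, ∃ a : F[X], aeval u a = z := by
      intro z hz
      rw [Algebra.adjoin_singleton_eq_range_aeval] at hz
      exact hz
    exact h _ (p.coeff i).2
  choose a ha using hmem
  refine ⟨p.natDegree, a, ?_, ?_⟩
  · rw [ha]
    intro h0
    exact hp0 (Polynomial.leadingCoeff_eq_zero.1 (Subtype.ext h0))
  · rw [Polynomial.aeval_eq_sum_range] at hp
    rw [← hp]
    refine Finset.sum_congr rfl fun i _ => ?_
    rw [ha]
    rfl

theorem generic_infInt {F L : Type*} [Field F] [Field L] [Algebra F L] (u : L)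
    (hu : Transcendental F u) (x : L) (hx : IsAlgebraic F⟮u⟯ x) :
    ∃ S : Finset F, ∀ c ∉ S, ∀ φ : RatFunc F →+* L,
      (∀ a : F, φ (RatFunc.C a) = algebraMap F L a) → φ RatFunc.X = (u - algebraMap F L c)⁻¹ →
      InfInt φ x := by
  classical
  obtain ⟨N, a, haN, hsum⟩ := generic_exists_coeffs u x hx
  have haN0 : a N ≠ 0 := by
    intro h; rw [h, map_zero] at haN; exact haN rfl
  refine ⟨(a N).roots.toFinset, fun c hc φ hC hX => ?_⟩
  have hroot : (a N).eval c ≠ 0 := by
    intro h
    exact hc (Multiset.mem_toFinset.2 ((Polynomial.mem_roots haN0).2 h))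
  have ht : u - algebraMap F L c ≠ 0 := by
    intro h
    have h1 : u = algebraMap F L c := sub_eq_zero.1 h
    exact hu (h1 ▸ isAlgebraic_algebraMap c)
  set M : ℕ := (Finset.range (N + 1)).sup (fun i => (a i).natDegree) with hM
  have hMle : ∀ i, i ≤ N → (a i).natDegree ≤ M := fun i hi =>
    Finset.le_sup (f := fun i => (a i).natDegree) (Finset.mem_range.2 (by omega))
  set b : ℕ → F[X] := fun i => (a i).comp (X + C c) with hb
  have hbdeg : ∀ i, i ≤ N → (b i).natDegree ≤ M := by
    intro i hi
    refine le_trans ?_ (hMle i hi)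
    rw [hb]
    refine le_trans Polynomial.natDegree_comp_le ?_
    rw [Polynomial.natDegree_X_add_C, mul_one]
  set A : ℕ → F[X] := fun i => reflect M (b i) with hA
  have hval : ∀ i, i ≤ N → φ (algebraMap F[X] (RatFunc F) (A i)) *
      (u - algebraMap F L c) ^ M = aeval u (a i) := by
    intro i hi
    rw [generic_phi_algebraMap φ hC, hX]
    let _ : Invertible (u - algebraMap F L c) := invertibleOfNonzero ht
    have h1 := Polynomial.eval₂_reflect_mul_pow (algebraMap F L) (u - algebraMap F L c) M (b i)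
      (hbdeg i hi)
    rw [invOf_eq_inv] at h1
    rw [Polynomial.aeval_def, h1, hb]
    simp only
    rw [Polynomial.eval₂_comp, Polynomial.aeval_def]
    simp
  have hANcoeff : (A N).coeff M ≠ 0 := by
    rw [hA]
    simp only
    rw [Polynomial.coeff_reflect, Polynomial.revAt_le le_rfl, Nat.sub_self, hb]
    simp only
    rw [Polynomial.coeff_zero_eq_eval_zero, Polynomial.eval_comp]
    simpa using hroot
  have hAN0 : A N ≠ 0 := by
    intro h; rw [h, Polynomial.coeff_zero] at hANcoeff; exact hANcoeff rfl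
  have hANdeg : M ≤ (A N).natDegree := Polynomial.le_natDegree_of_ne_zero hANcoeff
  have hAdeg : ∀ i, i ≤ N → (A i).natDegree ≤ M := by
    intro i hi
    refine le_trans Polynomial.natDegree_reflect_le ?_
    exact max_le le_rfl (hbdeg i hi)
  set r : ℕ → RatFunc F := fun i =>
    algebraMap F[X] (RatFunc F) (A i) * (algebraMap F[X] (RatFunc F) (A N))⁻¹ with hr
  have hmapN : algebraMap F[X] (RatFunc F) (A N) ≠ 0 := RatFunc.algebraMap_ne_zero hAN0
  have hrN : r N = 1 := by rw [hr]; exact mul_inv_cancel₀ hmapN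
  have hrdeg : ∀ i, i ≤ N → (r i).intDegree ≤ 0 := by
    intro i hi
    rw [hr]
    simp only
    by_cases h0 : A i = 0
    · rw [h0, map_zero, zero_mul, RatFunc.intDegree_zero]
    · rw [RatFunc.intDegree_mul (RatFunc.algebraMap_ne_zero h0) (inv_ne_zero hmapN),
        RatFunc.intDegree_inv, RatFunc.intDegree_polynomial, RatFunc.intDegree_polynomial]
      have := hAdeg i hi
      omega
  set q : (RatFunc F)[X] := ∑ i ∈ Finset.range (N + 1), monomial i (r i) with hq
  have hcoeff : ∀ j, q.coeff j = if j ≤ N then r j else 0 := by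
    intro j
    rw [hq, Polynomial.finsetSum_coeff]
    simp only [Polynomial.coeff_monomial]
    rw [Finset.sum_ite_eq']
    simp only [Finset.mem_range, Nat.lt_succ_iff]
  refine ⟨q, ?_, ?_, ?_⟩
  · refine Polynomial.monic_of_natDegree_le_of_coeff_eq_one N ?_ ?_
    · rw [Polynomial.natDegree_le_iff_coeff_eq_zero]
      intro j hj
      rw [hcoeff, if_neg (by omega)]
    · rw [hcoeff, if_pos le_rfl, hrN]
  · intro i
    rw [hcoeff]
    split_ifs with h
    · exact hrdeg i h
    · rw [RatFunc.intDegree_zero]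
  · rw [hq, Polynomial.eval₂_finsetSum]
    have hφN : φ (algebraMap F[X] (RatFunc F) (A N)) ≠ 0 := by
      intro h
      have := hval N le_rfl
      rw [h, zero_mul] at this
      exact haN this.symm
    have hpow : (u - algebraMap F L c) ^ M ≠ 0 := pow_ne_zero _ ht
    have hterm : ∀ i ∈ Finset.range (N + 1), (monomial i (r i)).eval₂ φ x =
        (aeval u (a N))⁻¹ * (aeval u (a i) * x ^ i) := by
      intro i hi
      have hi' : i ≤ N := Nat.lt_succ_iff.1 (Finset.mem_range.1 hi)
      rw [Polynomial.eval₂_monomial, ← hval i hi', ← hval N le_rfl, hr]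
      simp only
      rw [map_mul, map_inv₀]
      field_simp
    rw [Finset.sum_congr rfl hterm, ← Finset.mul_sum, hsum, mul_zero]

/-- The embedding of `F(X)` with `X ↦ 1 / (u - c)`; it has the same image as `X ↦ u`. -/
theorem exists_phi {F L : Type*} [Field F] [Field L] [Algebra F L] (u : L)
    (hu : Transcendental F u) (c : F) :
    ∃ φ : RatFunc F →+* L, (∀ a : F, φ (RatFunc.C a) = algebraMap F L a) ∧
      φ RatFunc.X = (u - algebraMap F L c)⁻¹ ∧ φ.fieldRange = F⟮u⟯.toSubfield := by
  set v : L := (u - algebraMap F L c)⁻¹ with hv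
  have hvt : Transcendental F v := by
    intro h
    apply hu
    have h1 : IsAlgebraic F (u - algebraMap F L c) := by
      have := h.inv
      rwa [hv, inv_inv] at this
    have h2 := h1.add (isAlgebraic_algebraMap (R := F) (A := L) c)
    rwa [sub_add_cancel] at h2
  have hadj : F⟮v⟯ = F⟮u⟯ := by
    apply le_antisymm
    · rw [IntermediateField.adjoin_simple_le_iff, hv]
      exact inv_mem (sub_mem (IntermediateField.mem_adjoin_simple_self F u)
        (IntermediateField.algebraMap_mem _ c))
    · rw [IntermediateField.adjoin_simple_le_iff]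
      have h1 : u = v⁻¹ + algebraMap F L c := by rw [hv, inv_inv, sub_add_cancel]
      have h2 : v⁻¹ + algebraMap F L c ∈ F⟮v⟯ :=
        add_mem (inv_mem (IntermediateField.mem_adjoin_simple_self F v))
          (IntermediateField.algebraMap_mem _ c)
      rwa [← h1] at h2
  let e := RatFunc.algEquivOfTranscendental v hvt
  let ψ : RatFunc F →ₐ[F] L := (F⟮v⟯.val).comp e.toAlgHom
  have hψX : ψ RatFunc.X = v := by
    change ((RatFunc.algEquivOfTranscendental v hvt RatFunc.X : F⟮v⟯) : L) = v
    exact RatFunc.algEquivOfTranscendental_X v hvt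
  refine ⟨ψ.toRingHom, fun a => ?_, hψX, ?_⟩
  · have h1 : (RatFunc.C a : RatFunc F) = algebraMap F (RatFunc F) a := rfl
    rw [h1]
    exact ψ.commutes a
  · rw [← hadj]
    ext y
    constructor
    · rintro ⟨z, rfl⟩
      exact (e z).2
    · intro hy
      obtain ⟨z, hz⟩ := e.surjective ⟨y, hy⟩
      refine ⟨z, ?_⟩
      change ((e z : F⟮v⟯) : L) = y
      rw [hz]

end Pool.Agent.Lib.P62g
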