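import Pool.Agent.Lib.P62g.InfRing
import Pool.Agent.Lib.P62g.Generic

/-!
# Module P62g.Infty: choice of the point at infinity

(imports `generic_infInt`, `exists_phi`, `infInt_base_iff`.) `F` is algebraically closed of
characteristic zero, `u ∈ L` transcendental, `[L : F(u)]` finite, `L = F(u, ξ)`.
Proof. Let `K = F⟮u⟯`, `m = [L : K]`. `1, ξ, …, ξ^(m-1)` is a power basis of `L` over `K`:
`K⟮ξ⟯ = ⊤` (`IntermediateField.adjoin_adjoin_left` or similar from `hgen`), so take
`((IntermediateField.adjoin.powerBasis h).map (topEquiv ...))` or `Field.powerBasisOf...`; let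
`pbK` be this power basis and `D' ∈ L` the image of `Algebra.discr K pbK.basis`, `D' ≠ 0`
(`Algebra.discr_not_zero_of_basis`, `L/K` separable).
By `generic_infInt` for each element `w` of the finite set `W ∪ {ξ, D', D'⁻¹}` there is a finite
exceptional set; `F` is infinite, so there is `c ∈ F` outside all of them. Let `φ` be given by
`exists_phi u hu c`; then `InfInt φ w` for all these `w`. The algebra structure on `L` is
`φ.toAlgebra`. As `φ.fieldRange = F⟮u⟯.toSubfield`, `φ` is a ring isomorphism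
`e : RatFunc F ≃+* F⟮u⟯` followed by the inclusion, so `L` is finite over `RatFunc F` with the same
`finrank` (`Algebra.finrank_eq_of_equiv_equiv`), and the family `1, ξ, …, ξ^(m-1)` is a basis over
`RatFunc F`: this gives `pb` with `pb.gen = ξ` (transport `pbK` along `e`, e.g.
`Module.Basis.mapCoeffs`, or construct the power basis again from
`Algebra.adjoin (RatFunc F) {ξ} = ⊤`). Discriminant: `e (discr (RatFunc F) b) = discr K b` for the
same family `b` (`Algebra.trace_eq_of_ringEquiv`, `RingHom.map_det`), so `φ (discr pb.basis) = D'`,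
and `InfInt φ D'`, `InfInt φ D'⁻¹` and `infInt_base_iff` give `intDegree ≤ 0` for `discr` and
`discr⁻¹`, hence `intDegree = 0`.
-/

namespace Pool.Agent.Lib.P62g

open Polynomial IntermediateField

namespace InftyAux

/-- A basis over `K` and the same family over an isomorphic field acting in the same way. -/
theorem discr_transport {A B L ι : Type*} [Field A] [Field B] [Field L] [Fintype ι]
    [DecidableEq ι] [Algebra A L] [Algebra B L] (e : A ≃+* B)
    (he : (algebraMap B L).comp (e : A →+* B) = algebraMap A L) (b : ι → L) :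
    e (Algebra.discr A b) = Algebra.discr B b := by
  rw [Algebra.discr_def, Algebra.discr_def]
  have h := RingHom.map_det (e : A →+* B) (Algebra.traceMatrix A b)
  have h2 : (e : A →+* B) (Algebra.traceMatrix A b).det = e (Algebra.traceMatrix A b).det := rfl
  rw [← h2, h]
  congr 1
  ext i j
  rw [RingHom.mapMatrix_apply, Matrix.map_apply, Algebra.traceMatrix_apply,
    Algebra.traceMatrix_apply, Algebra.traceForm_apply, Algebra.traceForm_apply]
  exact Algebra.trace_eq_of_ringEquiv e he _

/-- The same for the embedding `φ` with image `F⟮u⟯`. -/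
theorem exists_equiv {F L : Type*} [Field F] [Field L] [Algebra F L] (u : L)
    (φ : RatFunc F →+* L) (hr : φ.fieldRange = F⟮u⟯.toSubfield) :
    ∃ e : RatFunc F ≃+* F⟮u⟯, ∀ r, ((e r : F⟮u⟯) : L) = φ r := by
  have hm : ∀ r, φ r ∈ F⟮u⟯ := by
    intro r
    have : φ r ∈ φ.fieldRange := ⟨r, rfl⟩
    rw [hr] at this
    exact this
  let f : RatFunc F →+* F⟮u⟯ := φ.codRestrict F⟮u⟯ hm
  have hf : ∀ r, ((f r : F⟮u⟯) : L) = φ r := fun r => rfl
  have hb : Function.Bijective f := by
    refine ⟨f.injective, fun y => ?_⟩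
    have : (y : L) ∈ φ.fieldRange := by
      rw [hr]
      exact y.2
    obtain ⟨r, hr'⟩ := this
    exact ⟨r, Subtype.ext hr'⟩
  exact ⟨RingEquiv.ofBijective f hb, fun r => rfl⟩

end InftyAux

open InftyAux

theorem exists_infty {F L : Type*} [Field F] [IsAlgClosed F] [CharZero F] [Field L] [Algebra F L]
    (u : L) (hu : Transcendental F u) (hpos : 0 < Module.finrank F⟮u⟯ L) (ξ : L)
    (hgen : IntermediateField.adjoin F {u, ξ} = ⊤) (W : Finset L) :
    ∃ φ : RatFunc F →+* L, (∀ a : F, φ (RatFunc.C a) = algebraMap F L a) ∧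
      (∀ w ∈ W, InfInt φ w) ∧ InfInt φ ξ ∧
      ∃ (_ : Algebra (RatFunc F) L), algebraMap (RatFunc F) L = φ ∧
        FiniteDimensional (RatFunc F) L ∧
        Module.finrank (RatFunc F) L = Module.finrank F⟮u⟯ L ∧
        ∃ pb : PowerBasis (RatFunc F) L, pb.gen = ξ ∧
          (Algebra.discr (RatFunc F) pb.basis).intDegree = 0 := by
  classical
  haveI hfin : FiniteDimensional F⟮u⟯ L := Module.finite_of_finrank_pos hpos
  have halg : ∀ w : L, IsAlgebraic F⟮u⟯ w := fun w => Algebra.IsAlgebraic.isAlgebraic w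
  -- the power basis over `K = F⟮u⟯`
  have htop : (IntermediateField.adjoin F⟮u⟯ {ξ}) = ⊤ := by
    have h1 := IntermediateField.adjoin_adjoin_left F {u} ({ξ} : Set L)
    have h2 : ({u} ∪ {ξ} : Set L) = {u, ξ} := by
      ext; simp [or_comm]
    rw [h2, hgen] at h1
    ext w
    simp only [IntermediateField.mem_top, iff_true]
    have : w ∈ (IntermediateField.adjoin F⟮u⟯ {ξ}).restrictScalars F := by
      rw [h1]; exact IntermediateField.mem_top
    exact this
  have hint : IsIntegral F⟮u⟯ ξ := Algebra.IsIntegral.isIntegral ξ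
  have hadj : Algebra.adjoin F⟮u⟯ {ξ} = ⊤ := by
    have h1 := IntermediateField.adjoin_simple_toSubalgebra_of_isAlgebraic (halg ξ)
    rw [← h1, htop]
    rfl
  obtain ⟨pbK, hpbK⟩ : ∃ pb : PowerBasis F⟮u⟯ L, pb.gen = ξ :=
    ⟨PowerBasis.ofAdjoinEqTop hint hadj, PowerBasis.ofAdjoinEqTop_gen hint hadj⟩
  set d : F⟮u⟯ := Algebra.discr F⟮u⟯ pbK.basis with hd
  have hd0 : d ≠ 0 := Algebra.discr_not_zero_of_basis F⟮u⟯ pbK.basis
  -- the exceptional sets
  have hex : ∀ w : L, ∃ S : Finset F, ∀ c ∉ S, ∀ φ : RatFunc F →+* L,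
      (∀ a : F, φ (RatFunc.C a) = algebraMap F L a) →
      φ RatFunc.X = (u - algebraMap F L c)⁻¹ → InfInt φ w :=
    fun w => generic_infInt u hu w (halg w)
  choose S hS using hex
  set W' : Finset L := insert ξ (insert (d : L) (insert ((d : L)⁻¹) W)) with hW'
  obtain ⟨c, hc⟩ := Infinite.exists_notMem_finset (W'.biUnion S)
  have hcw : ∀ w ∈ W', c ∉ S w := by
    intro w hw h
    exact hc (Finset.mem_biUnion.2 ⟨w, hw, h⟩)
  obtain ⟨φ, hC, hX, hr⟩ := exists_phi u hu c
  have hinf : ∀ w ∈ W', InfInt φ w := fun w hw => hS w c (hcw w hw) φ hC hX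
  obtain ⟨e, he⟩ := exists_equiv u φ hr
  letI alg : Algebra (RatFunc F) L := φ.toAlgebra
  have halgm : algebraMap (RatFunc F) L = φ := rfl
  have hcomp : (algebraMap F⟮u⟯ L).comp (e : RatFunc F →+* F⟮u⟯) = algebraMap (RatFunc F) L := by
    exact RingHom.ext (fun r => he r)
  have hcomp' : ∀ r, algebraMap F⟮u⟯ L (e r) = algebraMap (RatFunc F) L r := fun r => he r
  have hsm : ∀ (k : F⟮u⟯) (x : L), e.symm k • x = k • x := by
    intro k x
    rw [Algebra.smul_def, Algebra.smul_def, ← hcomp', e.apply_symm_apply]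
  let B : Module.Basis (Fin pbK.dim) (RatFunc F) L := pbK.basis.mapCoeffs e.symm hsm
  have hB : (B : Fin pbK.dim → L) = pbK.basis := Module.Basis.coe_mapCoeffs _ _ _
  let pb : PowerBasis (RatFunc F) L :=
    { gen := ξ
      dim := pbK.dim
      basis := B
      basis_eq_pow := fun i => by
        rw [hB, pbK.basis_eq_pow, hpbK] }
  have hfr : Module.finrank (RatFunc F) L = Module.finrank F⟮u⟯ L := by
    rw [PowerBasis.finrank pb, PowerBasis.finrank pbK]
  have hdisc : e (Algebra.discr (RatFunc F) pb.basis) = d := by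
    rw [discr_transport e hcomp]
    have : (pb.basis : Fin pbK.dim → L) = pbK.basis := hB
    rw [hd]
    exact congrArg (Algebra.discr F⟮u⟯) this
  have hφd : φ (Algebra.discr (RatFunc F) pb.basis) = (d : L) := by
    rw [← he, hdisc]
  refine ⟨φ, hC, ?_, ?_, alg, rfl, pb.finite, hfr, pb, rfl, ?_⟩
  · intro w hw
    exact hinf w (by simp [hW', hw])
  · exact hinf ξ (by simp [hW'])
  · have h1 : (Algebra.discr (RatFunc F) pb.basis).intDegree ≤ 0 := by
      rw [← infInt_base_iff φ, hφd]
      exact hinf _ (by simp [hW'])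
    have h2 : ((Algebra.discr (RatFunc F) pb.basis)⁻¹).intDegree ≤ 0 := by
      rw [← infInt_base_iff φ, map_inv₀, hφd]
      exact hinf _ (by simp [hW'])
    rw [RatFunc.intDegree_inv] at h2
    omega

end Pool.Agent.Lib.P62g
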