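import Mathlib

/-!
# Module P62g.Prim: primitive elements which are `F`-combinations of few generators

`K = F(u)`, `L/K` finite of degree `≤ n`, `L` generated over `K` by the set `S`. Then there is a
primitive element `Σ_{z ∈ T} c_z z`, `c_z ∈ F`, `T ⊆ S`, `|T| ≤ n`.
-/

namespace Pool.Agent.Lib.P62g

open IntermediateField

private theorem prim_sum_update {F L : Type*} [Field F] [Field L] [Algebra F L]
    [DecidableEq L] (T : Finset L) (c : L → F) (z : L) (a : F) :
    ∑ w ∈ insert z T, algebraMap F L ((if w ∈ T then c w else 0) + (if w = z then a else 0)) * w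
      = ∑ w ∈ T, algebraMap F L (c w) * w + algebraMap F L a * z := by
  have h1 : ∀ w : L, algebraMap F L ((if w ∈ T then c w else 0) + (if w = z then a else 0)) * w
      = algebraMap F L (if w ∈ T then c w else 0) * w
        + algebraMap F L (if w = z then a else 0) * w := by
    intro w
    rw [map_add, add_mul]
  rw [Finset.sum_congr rfl (fun w _ => h1 w), Finset.sum_add_distrib]
  congr 1
  · rw [← Finset.sum_subset (Finset.subset_insert z T)]
    · refine Finset.sum_congr rfl (fun w hw => ?_)
      rw [if_pos hw]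
    · intro w _ hw
      rw [if_neg hw, map_zero, zero_mul]
  · rw [Finset.sum_eq_single z]
    · rw [if_pos rfl]
    · intro w _ hw
      rw [if_neg hw, map_zero, zero_mul]
    · intro h
      exact absurd (Finset.mem_insert_self z T) h

private theorem prim_step {F L : Type*} [Field F] [CharZero F] [Field L] [Algebra F L]
    (K : IntermediateField F L) [FiniteDimensional K L] (ξ z : L) (hz : z ∉ K⟮ξ⟯) :
    ∃ a : F, Module.finrank K K⟮ξ⟯ < Module.finrank K K⟮ξ + algebraMap F L a * z⟯ := by
  haveI : CharZero K := charZero_of_injective_algebraMap (algebraMap F K).injective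
  haveI : Finite (IntermediateField K L) :=
    Field.finite_intermediateField_of_exists_primitive_element K L
      (Field.exists_primitive_element K L)
  obtain ⟨a, b, hab, hne⟩ := Finite.exists_ne_map_eq_of_infinite
    (fun a : F => (K⟮ξ + algebraMap F L a * z⟯ : IntermediateField K L))
  refine ⟨a, ?_⟩
  have hne' : (K⟮ξ + algebraMap F L a * z⟯ : IntermediateField K L)
      = K⟮ξ + algebraMap F L b * z⟯ := hne
  set M : IntermediateField K L := K⟮ξ + algebraMap F L a * z⟯ with hM
  have hmF : ∀ x : F, algebraMap F L x ∈ M := by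
    intro x
    have := M.algebraMap_mem (algebraMap F K x)
    rwa [← IsScalarTower.algebraMap_apply F K L] at this
  have h1 : ξ + algebraMap F L a * z ∈ M := mem_adjoin_simple_self K _
  have h2 : ξ + algebraMap F L b * z ∈ M := by
    rw [hne']
    exact mem_adjoin_simple_self K _
  have h3 : algebraMap F L (a - b) * z ∈ M := by
    have := M.sub_mem h1 h2
    have e : algebraMap F L (a - b) * z
        = ξ + algebraMap F L a * z - (ξ + algebraMap F L b * z) := by
      rw [map_sub]
      ring
    rw [e]
    exact this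
  have hab0 : algebraMap F L (a - b) ≠ 0 := by
    intro h
    have h0 : a - b = 0 := (map_eq_zero (algebraMap F L)).1 h
    exact hab (sub_eq_zero.1 h0)
  have h4 : z ∈ M := by
    have := M.mul_mem (M.inv_mem (hmF (a - b))) h3
    rwa [inv_mul_cancel_left₀ hab0] at this
  have h5 : ξ ∈ M := by
    have := M.sub_mem h1 (M.mul_mem (hmF a) h4)
    rwa [add_sub_cancel_right] at this
  have hle : K⟮ξ⟯ ≤ M := by
    rw [adjoin_simple_le_iff]
    exact h5
  by_contra hcon
  have heq := IntermediateField.eq_of_le_of_finrank_le hle (not_lt.1 hcon)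
  exact hz (heq ▸ h4)

private theorem prim_claim {F L : Type*} [Field F] [CharZero F] [Field L] [Algebra F L]
    (u : L) (hpos : 0 < Module.finrank F⟮u⟯ L)
    (S : Set L) (hS : IntermediateField.adjoin F (insert u S) = ⊤) (j : ℕ) :
    ∃ (T : Finset L) (c : L → F), (T : Set L) ⊆ S ∧ T.card ≤ j ∧
      ((F⟮u⟯)⟮∑ z ∈ T, algebraMap F L (c z) * z⟯ = ⊤ ∨
        j + 1 ≤ Module.finrank F⟮u⟯ (F⟮u⟯)⟮∑ z ∈ T, algebraMap F L (c z) * z⟯) := by
  classical
  haveI : FiniteDimensional F⟮u⟯ L := Module.finite_of_finrank_pos hpos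
  induction j with
  | zero =>
    refine ⟨∅, fun _ => 0, by simp, by simp, Or.inr ?_⟩
    exact Module.finrank_pos
  | succ j ih =>
    obtain ⟨T, c, hTS, hTc, h⟩ := ih
    by_cases htop : (F⟮u⟯)⟮∑ z ∈ T, algebraMap F L (c z) * z⟯ = ⊤
    · exact ⟨T, c, hTS, hTc.trans (Nat.le_succ j), Or.inl htop⟩
    · have hdeg := h.resolve_left htop
      have hex : ∃ z ∈ S, z ∉ (F⟮u⟯)⟮∑ z ∈ T, algebraMap F L (c z) * z⟯ := by
        by_contra hcon
        push Not at hcon
        apply htop
        rw [eq_top_iff]
        intro x _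
        have hx : x ∈ IntermediateField.adjoin F (insert u S) := by
          rw [hS]
          exact IntermediateField.mem_top
        have hle : IntermediateField.adjoin F (insert u S)
            ≤ ((F⟮u⟯)⟮∑ z ∈ T, algebraMap F L (c z) * z⟯).restrictScalars F := by
          rw [IntermediateField.adjoin_le_iff]
          intro y hy
          rcases Set.mem_insert_iff.1 hy with rfl | hy
          · exact ((F⟮y⟯)⟮∑ z ∈ T, algebraMap F L (c z) * z⟯).algebraMap_mem
              (⟨y, mem_adjoin_simple_self F y⟩ : F⟮y⟯)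
          · exact hcon y hy
        exact hle hx
      obtain ⟨z, hzS, hz⟩ := hex
      obtain ⟨a, ha⟩ := prim_step F⟮u⟯ _ z hz
      refine ⟨insert z T,
        fun w => (if w ∈ T then c w else 0) + (if w = z then a else 0), ?_, ?_, Or.inr ?_⟩
      · rw [Finset.coe_insert]
        exact Set.insert_subset hzS hTS
      · exact (Finset.card_insert_le z T).trans (Nat.succ_le_succ hTc)
      · rw [prim_sum_update T c z a]
        exact Nat.succ_le_of_lt (lt_of_le_of_lt hdeg ha)

theorem exists_primitive_combination {F L : Type*} [Field F] [CharZero F] [Field L] [Algebra F L]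
    (u : L) {n : ℕ} (hpos : 0 < Module.finrank F⟮u⟯ L) (hn : Module.finrank F⟮u⟯ L ≤ n)
    (S : Set L) (hS : IntermediateField.adjoin F (insert u S) = ⊤) :
    ∃ (T : Finset L) (c : L → F), (T : Set L) ⊆ S ∧ T.card ≤ n ∧
      IntermediateField.adjoin F {u, ∑ z ∈ T, algebraMap F L (c z) * z} = ⊤ := by
  haveI : FiniteDimensional F⟮u⟯ L := Module.finite_of_finrank_pos hpos
  obtain ⟨T, c, hTS, hTc, h⟩ := prim_claim u hpos S hS n
  refine ⟨T, c, hTS, hTc, ?_⟩
  have htop : (F⟮u⟯)⟮∑ z ∈ T, algebraMap F L (c z) * z⟯ = ⊤ := by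
    rcases h with h | h
    · exact h
    · exfalso
      have h1 : Module.finrank F⟮u⟯ (F⟮u⟯)⟮∑ z ∈ T, algebraMap F L (c z) * z⟯
          ≤ Module.finrank F⟮u⟯ L := by
        exact Submodule.finrank_le
          (Subalgebra.toSubmodule ((F⟮u⟯)⟮∑ z ∈ T, algebraMap F L (c z) * z⟯).toSubalgebra)
      omega
  have h2 : IntermediateField.adjoin F ({u, ∑ z ∈ T, algebraMap F L (c z) * z} : Set L)
      = ((F⟮u⟯)⟮∑ z ∈ T, algebraMap F L (c z) * z⟯).restrictScalars F := by
    rw [IntermediateField.adjoin_simple_adjoin_simple]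
  rw [h2, htop]
  exact IntermediateField.restrictScalars_top

end Pool.Agent.Lib.P62g
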