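import Pool.Agent.Lib.P62g.Build
import Pool.Agent.Lib.P62g.Infty
import Pool.Agent.Lib.P62g.Prim

/-!
# Existence of a suitable `Geo`
-/

namespace Pool.Agent.Lib.P62g

open Polynomial IntermediateField WithZero

universe u w

/-- Heights of linear combinations. -/
theorem h_sum_le {F : Type w} {L : Type u} [Field F] [Field L] [Algebra F L] (G : Geo F L)
    (T : Finset L) (c : L → F) (hT : ∀ z ∈ T, z ≠ 0) :
    G.h (∑ z ∈ T, algebraMap F L (c z) * z) ≤ ∑ z ∈ T, G.h z := by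
  classical
  set x := ∑ z ∈ T, algebraMap F L (c z) * z with hx
  set S : Finset G.Pl := (Geo.ord_fin x).toFinset ∪ T.biUnion fun z => (Geo.ord_fin (G := G) z).toFinset
    with hS
  have hxS : ∀ p, G.ord p x ≠ 0 → p ∈ S := by
    intro p hp
    rw [hS, Finset.mem_union]
    left
    simpa using hp
  have hzS : ∀ z ∈ T, ∀ p, G.ord p z ≠ 0 → p ∈ S := by
    intro z hz p hp
    rw [hS, Finset.mem_union]
    right
    exact Finset.mem_biUnion.2 ⟨z, hz, by simpa using hp⟩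
  rw [Geo.h_eq_sum S hxS]
  have h1 : ∑ z ∈ T, G.h z = ∑ p ∈ S, ∑ z ∈ T, max 0 (-(G.ord p z)) := by
    rw [Finset.sum_comm]
    exact Finset.sum_congr rfl fun z hz => Geo.h_eq_sum S (hzS z hz)
  rw [h1]
  refine Finset.sum_le_sum fun p _ => ?_
  have hM : 0 ≤ ∑ z ∈ T, max 0 (-(G.ord p z)) := Finset.sum_nonneg fun z _ => le_max_left _ _
  refine max_le hM ?_
  rcases eq_or_ne x 0 with h0 | h0
  · rw [h0, Geo.ord_zero, neg_zero]; exact hM
  set M := ∑ z ∈ T, max 0 (-(G.ord p z)) with hMdef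
  have h2 : G.v p x ≤ exp M := by
    rw [hx]
    refine Valuation.map_sum_le _ fun z hz => ?_
    rw [map_mul]
    have h3 : G.v p (algebraMap F L (c z)) ≤ 1 := by
      rcases eq_or_ne (c z) 0 with h | h
      · rw [h, map_zero, map_zero]; exact zero_le
      · rw [G.v_const p _ h]
    have h4 : G.v p z ≤ exp M := by
      rw [Geo.v_eq (hT z hz), exp_le_exp]
      refine (le_max_right 0 _).trans ?_
      exact Finset.single_le_sum (f := fun z => max 0 (-(G.ord p z)))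
        (fun z _ => le_max_left _ _) hz
    calc _ ≤ 1 * exp M := mul_le_mul' h3 h4
      _ = exp M := one_mul _
  rw [Geo.v_eq h0, exp_le_exp] at h2
  exact h2

theorem exists_geo {F : Type w} {L : Type u} [Field F] [IsAlgClosed F] [CharZero F] [Field L]
    [Algebra F L] (u : L) (hu : Transcendental F u) {n : ℕ}
    (hpos : 0 < Module.finrank F⟮u⟯ L) (hn : Module.finrank F⟮u⟯ L ≤ n) (Z : Finset L)
    (h0 : (0 : L) ∉ Z) (hgen : IntermediateField.adjoin F (insert u (Z : Set L)) = ⊤)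
    (W : Finset L) :
    ∃ G : Geo F L, (∀ w ∈ W, w ∈ G.Inf) ∧
      ∀ R : ℤ, 0 ≤ R → (∀ z ∈ Z, G.h z ≤ R) → (G.κ : ℤ) ≤ ((2 * n ^ 4 : ℕ) : ℤ) * R := by
  classical
  obtain ⟨T, c, hTZ, hTn, hprim⟩ := exists_primitive_combination (F := F) u hpos hn (Z : Set L) hgen
  set ξ := ∑ z ∈ T, algebraMap F L (c z) * z with hξ
  obtain ⟨φ, hφC, hφW, hφξ, inst, hφ, hfin, hrank, pb, hpb, hdisc⟩ :=
    exists_infty u hu hpos ξ hprim W
  letI := inst
  letI : Algebra F[X] L := ((algebraMap (RatFunc F) L).comp (algebraMap F[X] (RatFunc F))).toAlgebra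
  haveI : IsScalarTower F[X] (RatFunc F) L := IsScalarTower.of_algebraMap_eq fun _ => rfl
  haveI : IsScalarTower F (RatFunc F) L := by
    refine IsScalarTower.of_algebraMap_eq fun a => ?_
    rw [hφ]
    exact (hφC a).symm
  haveI := hfin
  obtain ⟨G, hG1, hG2⟩ := exists_geo_core pb (by rw [hφ, hpb]; exact hφξ) hdisc
  refine ⟨G, fun w hw => (hG1 w).2 (by rw [hφ]; exact hφW w hw), ?_⟩
  intro R hR hZR
  rw [hpb, hrank] at hG2
  have h1 : G.h ξ ≤ n * R := by
    refine (h_sum_le G T c fun z hz h => h0 (by rw [← h]; exact_mod_cast hTZ hz)).trans ?_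
    have h2 : ∑ z ∈ T, G.h z ≤ ∑ z ∈ T, R :=
      Finset.sum_le_sum fun z hz => hZR z (by exact_mod_cast hTZ hz)
    refine h2.trans ?_
    rw [Finset.sum_const, nsmul_eq_mul]
    exact mul_le_mul_of_nonneg_right (by exact_mod_cast hTn) hR
  have hn' : (Module.finrank F⟮u⟯ L : ℤ) ≤ n := by exact_mod_cast hn
  have h3 : (Module.finrank F⟮u⟯ L : ℤ) ^ 3 ≤ (n : ℤ) ^ 3 :=
    pow_le_pow_left₀ (by positivity) hn' 3
  have h4 : 0 ≤ G.h ξ := Geo.h_nonneg ξ
  calc (G.κ : ℤ) ≤ 2 * (Module.finrank F⟮u⟯ L : ℤ) ^ 3 * G.h ξ := hG2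
    _ ≤ 2 * (n : ℤ) ^ 3 * G.h ξ := by
        apply mul_le_mul_of_nonneg_right _ h4
        linarith
    _ ≤ 2 * (n : ℤ) ^ 3 * (n * R) := by
        apply mul_le_mul_of_nonneg_left h1
        positivity
    _ = _ := by push_cast; ring

end Pool.Agent.Lib.P62g
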