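import Mathlib

/-!
# Module P62g.CountC: the double counting

`N = |ι| ≥ 2000 d`; `T` a finite set of places, `B t ⊆ ι` for `t ∈ T`. This is the second half of
`Pool.Agent.Lib.P62a0c3.main_count` (file `Pool/Agent/Lib/P62a0c3/Count.lean`), copy from there.
`S = Σ_{t ∈ T} |B t|`. Cauchy-Schwarz (`sq_sum_le_card_mul_sum_sq`):
`S ^ 2 ≤ |T| Σ_t |B t| ^ 2`, and `Σ_t |B t| ^ 2 = Σ_{z,w} #{t ∈ T | z, w ∈ B t}
≤ Σ_z (d |T| + 2 R N) = d N |T| + 2 R N ^ 2` (`hfib`, `hpair`).
Lower bound: `32 S = Σ_z 32 #{t | z ∈ B t} ≥ (N - |E|) |T|`. So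
`(N - |E|)^2 |T|^2 ≤ 1024 |T| (d N |T| + 2 R N^2)`, divide by `|T| > 0`:
`(N - |E|)^2 |T| ≤ 1024 d N |T| + 2048 R N^2 ≤ 1024 d N |T| + N^2 |T| / 4` (`hT`), so
`(N - |E|)^2 ≤ 1024 d N + N^2 / 4`. With `1024 d ≤ 0.512 N` and
`|E| ≤ 3 d + 2 ≤ 5 d ≤ N / 400`: `(399/400)^2 ≤ 0.512 + 0.25`, contradiction.
-/

namespace Pool.Agent.Lib.P62g

/-- The numerical inequality at the end of the counting argument, over the reals. -/
theorem CountC_numeric {d N M T R S : ℝ} (q1 : T * M ≤ 32 * S)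
    (q2 : S ^ 2 ≤ T * (d * N * T + 2 * R * N ^ 2)) (q3 : 8192 * R ≤ T)
    (q4 : 399 * N ≤ 400 * M) (q5 : 1 ≤ d) (q6 : 2000 * d ≤ N) (qT : 0 < T) : False := by
  have qN : 0 < N := by linarith
  have qM : 0 < M := by linarith
  have r1 : T ^ 2 * M ^ 2 ≤ 1024 * S ^ 2 := by
    have h0 : 0 ≤ T * M := by positivity
    calc T ^ 2 * M ^ 2 = (T * M) ^ 2 := by ring
      _ ≤ (32 * S) ^ 2 := pow_le_pow_left₀ h0 q1 2
      _ = 1024 * S ^ 2 := by ring
  have r3 : T * M ^ 2 ≤ 1024 * (d * N * T + 2 * R * N ^ 2) := by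
    have : T * (T * M ^ 2) ≤ T * (1024 * (d * N * T + 2 * R * N ^ 2)) := by
      calc T * (T * M ^ 2) = T ^ 2 * M ^ 2 := by ring
        _ ≤ 1024 * S ^ 2 := r1
        _ ≤ 1024 * (T * (d * N * T + 2 * R * N ^ 2)) :=
            mul_le_mul_of_nonneg_left q2 (by norm_num)
        _ = T * (1024 * (d * N * T + 2 * R * N ^ 2)) := by ring
    exact le_of_mul_le_mul_left this qT
  have r4 : 4 * M ^ 2 ≤ 4096 * d * N + N ^ 2 := by
    have h3 : (8192 * R) * N ^ 2 ≤ T * N ^ 2 :=
      mul_le_mul_of_nonneg_right q3 (by positivity)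
    have : T * (4 * M ^ 2) ≤ T * (4096 * d * N + N ^ 2) := by
      calc T * (4 * M ^ 2) = 4 * (T * M ^ 2) := by ring
        _ ≤ 4 * (1024 * (d * N * T + 2 * R * N ^ 2)) :=
            mul_le_mul_of_nonneg_left r3 (by norm_num)
        _ = 4096 * d * N * T + (8192 * R) * N ^ 2 := by ring
        _ ≤ 4096 * d * N * T + T * N ^ 2 := by linarith
        _ = T * (4096 * d * N + N ^ 2) := by ring
    exact le_of_mul_le_mul_left this qT
  have r6 : 159201 * N ^ 2 ≤ 160000 * M ^ 2 := by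
    calc 159201 * N ^ 2 = (399 * N) ^ 2 := by ring
      _ ≤ (400 * M) ^ 2 := pow_le_pow_left₀ (by positivity) q4 2
      _ = 160000 * M ^ 2 := by ring
  have r7 : d * N ≤ N ^ 2 / 2000 := by
    have := mul_le_mul_of_nonneg_right q6 qN.le
    nlinarith
  have r8 : 0 < N ^ 2 := by positivity
  nlinarith

open Classical in
theorem counting {ι Pl X : Type*} [Fintype ι] (f : ι → X) {d R : ℕ} (hd : 1 ≤ d) (hR : 1 ≤ R)
    (hN : 2000 * d ≤ Fintype.card ι) (T : Finset Pl) (B : Pl → Finset ι) (E : Finset ι)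
    (hE : E.card ≤ 3 * d + 2)
    (hpair : ∀ z w, f z ≠ f w → (T.filter fun t => z ∈ B t ∧ w ∈ B t).card ≤ 2 * R)
    (hfib : ∀ z, (Finset.univ.filter fun w => f z = f w).card ≤ d)
    (hlow : ∀ z, z ∉ E → T.card ≤ 32 * (T.filter fun t => z ∈ B t).card)
    (hT : 8192 * R ≤ T.card) : False := by
  set N := Fintype.card ι with hNdef
  set S := ∑ t ∈ T, (B t).card with hS
  have hS2 : S ^ 2 ≤ T.card * (d * N * T.card + 2 * R * N ^ 2) := by
    have h1 : S ^ 2 ≤ T.card * ∑ t ∈ T, (B t).card ^ 2 := by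
      rw [hS]
      exact sq_sum_le_card_mul_sum_sq
    have h2 : ∑ t ∈ T, (B t).card ^ 2 ≤ d * N * T.card + 2 * R * N ^ 2 := by
      have e1 : ∀ t ∈ T, (B t).card ^ 2 = ∑ z : ι, ∑ w : ι, if z ∈ B t ∧ w ∈ B t then 1 else 0 := by
        intro t _
        have : (B t).card = ∑ z : ι, if z ∈ B t then 1 else 0 := by
          rw [Finset.sum_ite_mem, Finset.univ_inter, Finset.sum_const, smul_eq_mul, mul_one]
        rw [sq, this, Finset.sum_mul_sum]
        refine Finset.sum_congr rfl fun z _ => Finset.sum_congr rfl fun w _ => ?_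
        by_cases hz : z ∈ B t <;> by_cases hw : w ∈ B t <;> simp [hz, hw]
      rw [Finset.sum_congr rfl e1, Finset.sum_comm]
      have e2 : ∀ z : ι, ∑ t ∈ T, ∑ w : ι, (if z ∈ B t ∧ w ∈ B t then 1 else 0) ≤
          d * T.card + 2 * R * N := by
        intro z
        rw [Finset.sum_comm]
        have e3 : ∀ w : ι, ∑ t ∈ T, (if z ∈ B t ∧ w ∈ B t then 1 else 0) ≤
            (if f z = f w then T.card else 0) + 2 * R := by
          intro w
          rw [← Finset.card_filter]
          split_ifs with h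
          · exact (Finset.card_filter_le _ _).trans (Nat.le_add_right _ _)
          · rw [zero_add]
            exact hpair z w h
        refine (Finset.sum_le_sum fun w _ => e3 w).trans ?_
        rw [Finset.sum_add_distrib, ← Finset.sum_filter, Finset.sum_const, Finset.sum_const]
        have e4 := hfib z
        rw [smul_eq_mul, smul_eq_mul, Finset.card_univ, ← hNdef]
        have e5 := Nat.mul_le_mul_right T.card e4
        have e6 : N * (2 * R) = 2 * R * N := by ring
        rw [e6]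
        exact Nat.add_le_add_right e5 _
      refine (Finset.sum_le_sum fun z _ => e2 z).trans ?_
      rw [Finset.sum_const, smul_eq_mul, Finset.card_univ, ← hNdef]
      apply le_of_eq
      ring
    exact h1.trans (Nat.mul_le_mul_left _ h2)
  have hS1 : T.card * (N - E.card) ≤ 32 * S := by
    have e1 : S = ∑ z : ι, (T.filter fun t => z ∈ B t).card := by
      rw [hS]
      have : ∀ t ∈ T, (B t).card = ∑ z : ι, if z ∈ B t then 1 else 0 := by
        intro t _
        rw [Finset.sum_ite_mem, Finset.univ_inter, Finset.sum_const, smul_eq_mul, mul_one]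
      rw [Finset.sum_congr rfl this, Finset.sum_comm]
      refine Finset.sum_congr rfl fun z _ => ?_
      rw [Finset.card_filter]
    have e2 : ∑ z ∈ Finset.univ \ E, T.card ≤
        ∑ z ∈ Finset.univ \ E, 32 * (T.filter fun t => z ∈ B t).card :=
      Finset.sum_le_sum fun z hz => hlow z (Finset.mem_sdiff.1 hz).2
    rw [Finset.sum_const, smul_eq_mul, Finset.card_sdiff_of_subset (Finset.subset_univ E),
      Finset.card_univ, ← hNdef, ← Finset.mul_sum] at e2
    have e3 : ∑ z ∈ Finset.univ \ E, (T.filter fun t => z ∈ B t).card ≤ S := by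
      rw [e1]
      exact Finset.sum_le_sum_of_subset (Finset.sdiff_subset)
    calc T.card * (N - E.card) = (N - E.card) * T.card := by ring
      _ ≤ 32 * ∑ z ∈ Finset.univ \ E, (T.filter fun t => z ∈ B t).card := e2
      _ ≤ 32 * S := Nat.mul_le_mul_left _ e3
  obtain ⟨M, hM⟩ : ∃ M, N = M + E.card := ⟨N - E.card, by omega⟩
  have hNE : N - E.card = M := by omega
  rw [hNE] at hS1
  have hM1 : 399 * N ≤ 400 * M := by omega
  have hTpos : 0 < T.card := by omega
  refine CountC_numeric (d := d) (N := N) (M := M) (T := T.card) (R := R) (S := S)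
    ?_ ?_ ?_ ?_ ?_ ?_ ?_
  · exact_mod_cast hS1
  · exact_mod_cast hS2
  · exact_mod_cast hT
  · exact_mod_cast hM1
  · exact_mod_cast hd
  · exact_mod_cast hN
  · exact_mod_cast hTpos

end Pool.Agent.Lib.P62g
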