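import Pool.Agent.Lib.P62g.Geo

/-!
# Module P62g.Wr: the Wronskian of three elements of a `Geo`

`w3 θ p q r` is the 3 by 3 Wronskian determinant for the derivation `θ`.

* `w3_of_sum`: if `p + q + r + s = 0` then `w3 p q s = - w3 p q r` (multilinear, alternating;
  cf. `Pool.Agent.Lib.P62a0c3.W3_of_sum` for polynomials, same proof).
* `w3_relation`: `w3 p q r = 0`, `p ≠ 0` gives a nontrivial linear relation over `F`
  (constants of `θ` are `F`, `G.θ_ker`): put `A = q/p`, `B = r/p`; then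
  `w3 p q r = p ^ 3 (θA θθB - θθA θB)` (check by `Derivation.leibniz_div` or multiply out
  `q = A p`, `r = B p`). If `θ A = 0` then `A = a ∈ F`, `-a p + q = 0`. Otherwise
  `θ (θB / θA) = 0`, so `θ B = c θ A`, `B - c A = e ∈ F`, `-e p - c q + r = 0`.
* `w3_tot`: if `p, q, r ∈ Inf` and `w3 ≠ 0` then `tot (w3 p q r) ≤ 3 κ`: `θ x ∈ U Inf` for `x ∈ Inf`
  (`Inf_θ`), `θ θ x = θ (U y) = θ U * y + U * θ y ∈ U ^ 2 Inf` (`Inf_U`, `Inf_θ`), so
  `w3 = U ^ 3 * b`, `b ∈ Inf` (each term of the determinant is a product of one undifferentiated,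
  one once and one twice differentiated factor), and `tot` is additive (`tot_mul`, `tot_pow`,
  `tot_U`, `tot_nonpos`).
* `w3_ord`: for nonzero `q i` (`i : Fin 4`) with `q 0 + q 1 + q 2 + q 3 = 0` and `w3 ≠ 0`:
  `ord_p (w3) ≥ Σ ord_p (q i) - ord_p (q j) - 2 #{i | ord_p (q i) ≠ 0}` for EVERY `j`.
  Proof: up to sign `w3 (q 0) (q 1) (q 2)` is the Wronskian of the three `q i`, `i ≠ j`
  (`w3_of_sum` and permutations). For a nonzero `x`: `v(x), v(θ x), v(θ θ x) ≤ v(x) exp(s)` with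
  `s = 0` if `v(x) = 1` (`θ_int` twice) and `s = 2` otherwise (`θ_v` twice). So each term of the
  determinant has `v ≤ Π_{i ≠ j} v(q i) exp(s_i)`.
-/

namespace Pool.Agent.Lib.P62g

open WithZero

universe u w

/-- The Wronskian of three elements for a derivation `θ`. -/
def w3 {F : Type w} {L : Type u} [Field F] [Field L] [Algebra F L] (θ : Derivation F L L)
    (p q r : L) : L :=
  p * (θ q * θ (θ r) - θ (θ q) * θ r) - q * (θ p * θ (θ r) - θ (θ p) * θ r)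
    + r * (θ p * θ (θ q) - θ (θ p) * θ q)

variable {F : Type w} {L : Type u} [Field F] [Field L] [Algebra F L]

theorem w3_of_sum (θ : Derivation F L L) (p q r s : L) (h : p + q + r + s = 0) :
    w3 θ p q s = - w3 θ p q r := by
  have hs : s = -(p + q + r) := by linear_combination h
  subst hs
  simp only [w3, map_neg, map_add]
  ring

theorem w3_relation (G : Geo F L) {p q r : L} (hp : p ≠ 0) (h : w3 G.θ p q r = 0) :
    ∃ a b c : F, (b ≠ 0 ∨ c ≠ 0) ∧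
      algebraMap F L a * p + algebraMap F L b * q + algebraMap F L c * r = 0 := by
  have hq : q = (q / p) * p := (div_mul_cancel₀ q hp).symm
  have hr : r = (r / p) * p := (div_mul_cancel₀ r hp).symm
  generalize q / p = A at hq
  generalize r / p = B at hr
  subst hq hr
  have h1 : w3 G.θ p (A * p) (B * p) =
      p ^ 3 * (G.θ A * G.θ (G.θ B) - G.θ (G.θ A) * G.θ B) := by
    simp only [w3, Derivation.leibniz, smul_eq_mul, map_add]
    ring
  have h2 : G.θ A * G.θ (G.θ B) - G.θ (G.θ A) * G.θ B = 0 := by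
    rw [h1] at h
    exact (mul_eq_zero.1 h).resolve_left (pow_ne_zero 3 hp)
  rcases eq_or_ne (G.θ A) 0 with h0 | h0
  · obtain ⟨a, rfl⟩ := G.θ_ker A h0
    refine ⟨-a, 1, 0, Or.inl one_ne_zero, ?_⟩
    rw [map_neg, map_one, map_zero]
    ring
  · have hB : G.θ B = (G.θ B / G.θ A) * G.θ A := (div_mul_cancel₀ _ h0).symm
    generalize G.θ B / G.θ A = C at hB
    have hC : G.θ C = 0 := by
      rw [hB] at h2
      simp only [Derivation.leibniz, smul_eq_mul] at h2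
      have h3 : G.θ A * G.θ A * G.θ C = 0 := by linear_combination h2
      exact (mul_eq_zero.1 h3).resolve_left (mul_ne_zero h0 h0)
    obtain ⟨c, rfl⟩ := G.θ_ker C hC
    have hE : G.θ (B - algebraMap F L c * A) = 0 := by
      rw [map_sub, Derivation.leibniz, Derivation.map_algebraMap, hB]
      simp only [smul_eq_mul]
      ring
    obtain ⟨e, he⟩ := G.θ_ker _ hE
    refine ⟨-e, -c, 1, Or.inr one_ne_zero, ?_⟩
    rw [map_neg, map_neg, map_one, ← he]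
    ring

theorem w3_tot (G : Geo F L) {p q r : L} (hp : p ∈ G.Inf) (hq : q ∈ G.Inf) (hr : r ∈ G.Inf)
    (h : w3 G.θ p q r ≠ 0) : G.tot (w3 G.θ p q r) ≤ 3 * G.κ := by
  obtain ⟨u, hu, hU⟩ := G.Inf_U
  have key : ∀ x ∈ G.Inf, ∃ y ∈ G.Inf, ∃ z ∈ G.Inf, G.θ x = G.U * y ∧
      G.θ (G.θ x) = G.U ^ 2 * z := by
    intro x hx
    obtain ⟨y, hy, h1⟩ := G.Inf_θ x hx
    obtain ⟨t, ht, h2⟩ := G.Inf_θ y hy
    refine ⟨y, hy, t + y * u, G.Inf.add_mem ht (G.Inf.mul_mem hy hu), h1, ?_⟩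
    rw [h1, Derivation.leibniz, h2, hU]
    simp only [smul_eq_mul]
    ring
  obtain ⟨p1, hp1, p2, hp2, e1, e2⟩ := key p hp
  obtain ⟨q1, hq1, q2, hq2, e3, e4⟩ := key q hq
  obtain ⟨r1, hr1, r2, hr2, e5, e6⟩ := key r hr
  have hw : w3 G.θ p q r = G.U ^ 3 * (p * (q1 * r2 - q2 * r1) - q * (p1 * r2 - p2 * r1) +
      r * (p1 * q2 - p2 * q1)) := by
    rw [w3, e2, e4, e6, e1, e3, e5]
    ring
  have hm : ∀ {a b c d : L}, a ∈ G.Inf → b ∈ G.Inf → c ∈ G.Inf → d ∈ G.Inf →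
      a * b - c * d ∈ G.Inf := fun ha hb hc hd =>
    G.Inf.sub_mem (G.Inf.mul_mem ha hb) (G.Inf.mul_mem hc hd)
  have hb : p * (q1 * r2 - q2 * r1) - q * (p1 * r2 - p2 * r1) +
      r * (p1 * q2 - p2 * q1) ∈ G.Inf :=
    G.Inf.add_mem (hm hp (hm hq1 hr2 hq2 hr1) hq (hm hp1 hr2 hp2 hr1))
      (G.Inf.mul_mem hr (hm hp1 hq2 hp2 hq1))
  rw [hw] at h ⊢
  have hb0 := right_ne_zero_of_mul h
  have h1 := Geo.tot_nonpos hb0 hb
  have h2 : G.tot G.U ≤ G.κ := G.tot_U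
  rw [Geo.tot_mul (pow_ne_zero 3 G.U_ne) hb0, Geo.tot_pow G.U_ne]
  push_cast
  linarith

/-- a bound for the valuation of the Wronskian -/
theorem v_w3_le (G : Geo F L) (p : G.Pl) {a b c : L} {A B C : ℤᵐ⁰}
    (a0 : G.v p a ≤ A) (a1 : G.v p (G.θ a) ≤ A) (a2 : G.v p (G.θ (G.θ a)) ≤ A)
    (b0 : G.v p b ≤ B) (b1 : G.v p (G.θ b) ≤ B) (b2 : G.v p (G.θ (G.θ b)) ≤ B)
    (c0 : G.v p c ≤ C) (c1 : G.v p (G.θ c) ≤ C) (c2 : G.v p (G.θ (G.θ c)) ≤ C) :
    G.v p (w3 G.θ a b c) ≤ A * (B * C) := by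
  have hm : ∀ {x y : L} {X Y : ℤᵐ⁰}, G.v p x ≤ X → G.v p y ≤ Y → G.v p (x * y) ≤ X * Y := by
    intro x y X Y hx hy
    rw [map_mul]
    exact mul_le_mul' hx hy
  have h1 : G.v p (a * (G.θ b * G.θ (G.θ c) - G.θ (G.θ b) * G.θ c)) ≤ A * (B * C) :=
    hm a0 (Valuation.map_sub_le _ (hm b1 c2) (hm b2 c1))
  have h2 : G.v p (b * (G.θ a * G.θ (G.θ c) - G.θ (G.θ a) * G.θ c)) ≤ A * (B * C) := by
    have := hm b0 (Valuation.map_sub_le _ (hm a1 c2) (hm a2 c1))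
    rwa [mul_left_comm B A C] at this
  have h3 : G.v p (c * (G.θ a * G.θ (G.θ b) - G.θ (G.θ a) * G.θ b)) ≤ A * (B * C) := by
    have := hm c0 (Valuation.map_sub_le _ (hm a1 b2) (hm a2 b1))
    rwa [mul_comm C (A * B), mul_assoc] at this
  exact Valuation.map_add_le _ (Valuation.map_sub_le _ h1 h2) h3

/-- the three bounds for a nonzero element -/
theorem v_bounds (G : Geo F L) (p : G.Pl) {x : L} (hx : x ≠ 0) :
    G.v p x ≤ exp (-(G.ord p x) + 2 * (if G.ord p x = 0 then 0 else 1 : ℤ)) ∧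
    G.v p (G.θ x) ≤ exp (-(G.ord p x) + 2 * (if G.ord p x = 0 then 0 else 1 : ℤ)) ∧
    G.v p (G.θ (G.θ x)) ≤ exp (-(G.ord p x) + 2 * (if G.ord p x = 0 then 0 else 1 : ℤ)) := by
  have hv := Geo.v_eq (G := G) hx p
  by_cases h0 : G.ord p x = 0
  · rw [if_pos h0, h0]
    have h1 : G.v p x ≤ 1 := by
      rw [hv, h0]
      simp
    have h2 := G.θ_int p x h1
    have h3 := G.θ_int p _ h2
    have h4 : exp (-(0 : ℤ) + 2 * 0) = (1 : ℤᵐ⁰) := by simp
    rw [h4]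
    exact ⟨h1, h2, h3⟩
  · rw [if_neg h0]
    have h2 := G.θ_v p x
    have h3 := G.θ_v p (G.θ x)
    rw [hv, ← exp_add] at h2
    refine ⟨?_, ?_, ?_⟩
    · rw [hv, exp_le_exp]
      omega
    · refine h2.trans ?_
      rw [exp_le_exp]
      omega
    · refine h3.trans ((mul_le_mul_right h2 _).trans ?_)
      rw [← exp_add, exp_le_exp]
      omega

theorem ord_w3_ge (G : Geo F L) (p : G.Pl) {a b c : L} (ha : a ≠ 0) (hb : b ≠ 0) (hc : c ≠ 0)
    (h : w3 G.θ a b c ≠ 0) :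
    G.ord p a + G.ord p b + G.ord p c - 2 * (if G.ord p a = 0 then 0 else 1 : ℤ) -
      2 * (if G.ord p b = 0 then 0 else 1 : ℤ) - 2 * (if G.ord p c = 0 then 0 else 1 : ℤ) ≤
      G.ord p (w3 G.θ a b c) := by
  obtain ⟨a0, a1, a2⟩ := v_bounds G p ha
  obtain ⟨b0, b1, b2⟩ := v_bounds G p hb
  obtain ⟨c0, c1, c2⟩ := v_bounds G p hc
  have h1 := v_w3_le G p a0 a1 a2 b0 b1 b2 c0 c1 c2
  rw [Geo.v_eq h, ← exp_add, ← exp_add, exp_le_exp] at h1
  linarith

theorem w3_ord (G : Geo F L) (q : Fin 4 → L) (hq : ∀ i, q i ≠ 0)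
    (hsum : q 0 + q 1 + q 2 + q 3 = 0) (h : w3 G.θ (q 0) (q 1) (q 2) ≠ 0) (p : G.Pl) (j : Fin 4) :
    (∑ i, G.ord p (q i)) - G.ord p (q j) - 2 * ∑ i, (if G.ord p (q i) = 0 then 0 else 1 : ℤ) ≤
      G.ord p (w3 G.θ (q 0) (q 1) (q 2)) := by
  have hi : ∀ i, (0 : ℤ) ≤ (if G.ord p (q i) = 0 then 0 else 1 : ℤ) := by
    intro i
    split_ifs <;> norm_num
  have i0 := hi 0
  have i1 := hi 1
  have i2 := hi 2
  have i3 := hi 3
  rw [Fin.sum_univ_four, Fin.sum_univ_four]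
  -- transfer to another triple
  have tr : ∀ {a b c : L}, a ≠ 0 → b ≠ 0 → c ≠ 0 →
      (w3 G.θ a b c = w3 G.θ (q 0) (q 1) (q 2) ∨ w3 G.θ a b c = -w3 G.θ (q 0) (q 1) (q 2)) →
      G.ord p a + G.ord p b + G.ord p c - 2 * (if G.ord p a = 0 then 0 else 1 : ℤ) -
      2 * (if G.ord p b = 0 then 0 else 1 : ℤ) - 2 * (if G.ord p c = 0 then 0 else 1 : ℤ) ≤
      G.ord p (w3 G.θ (q 0) (q 1) (q 2)) := by
    intro a b c ha hb hc hw
    rcases hw with hw | hw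
    · rw [← hw]
      exact ord_w3_ge G p ha hb hc (by rw [hw]; exact h)
    · have h1 := ord_w3_ge G p ha hb hc (by rw [hw]; exact neg_ne_zero.2 h)
      rwa [hw, Geo.ord_neg] at h1
  fin_cases j
  · have h1 := tr (hq 1) (hq 2) (hq 3) (Or.inr (by
      rw [w3_of_sum G.θ (q 1) (q 2) (q 0) (q 3) (by linear_combination hsum)]
      simp only [w3]
      ring))
    simp only [Fin.zero_eta]
    linarith
  · have h1 := tr (hq 0) (hq 2) (hq 3) (Or.inl (by
      rw [w3_of_sum G.θ (q 0) (q 2) (q 1) (q 3) (by linear_combination hsum)]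
      simp only [w3]
      ring))
    simp only [Fin.mk_one]
    linarith
  · have h1 := tr (hq 0) (hq 1) (hq 3) (Or.inr
      (w3_of_sum G.θ (q 0) (q 1) (q 2) (q 3) hsum))
    simp only [Fin.reduceFinMk]
    linarith
  · have h1 := tr (hq 0) (hq 1) (hq 2) (Or.inl rfl)
    simp only [Fin.reduceFinMk]
    linarith

end Pool.Agent.Lib.P62g
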