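import Pool.Agent.Lib.P62g.MasonL
import Pool.Agent.Lib.P62g.Wr

/-!
# Module P62g.GcdB: a common zero of `y ^ d - 1` and `z ^ d - 1`, zero Wronskian

(imports MasonL and Wr as black boxes, they may still contain `sorry` when you start.)
Write `v = (y ^ d - 1) / (z ^ d - 1)`. `w3_relation` for `y ^ d`, `-1`, `- (v z ^ d)` gives
`a y^d - b - c v z^d = 0` with `b ≠ 0` or `c ≠ 0`.
`c = 0`: then `b ≠ 0`, so `a ≠ 0` and `y^d = b/a` is a constant, `θ (y^d) = 0`, so `θ y = 0`, `y` is
a constant (`G.θ_ker`) and `h y = 0`, contradiction to `h y = R ≥ 1`. `c ≠ 0`: rename `a/c, b/c` to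
`a, b`: `v z^d = a y^d - b`, and subtracting `v (z^d - 1) = y^d - 1`: `v = (a-1) y^d + (1-b)`, so
  (*) `z^d ((a-1) y^d + (1-b)) = a y^d - b`.
If `a = b`: `z^d (a-1) (y^d-1) = a (y^d-1)`, so `z^d (a-1) = a`, `a ≠ 1`, `z^d` is the constant
`k = a/(a-1)`; there is a place with `v_p(z^d - 1) < 1` (`hp`), so `k = 1` (else
`v(k-1) = 1` by `G.v_const`), contradiction to `z ^ d - 1 ≠ 0`.
Lemma M (from `mason`): there is no `c ≠ 0` in `F` such that `s = y^d - c` has `s ≠ 0`, `s⁻¹ ∈ Inf`
and `d ≤ ord_p s` whenever `v_p s < 1`: otherwise `d #{v s < 1} ≤ Σ max 0 (ord s) = h s = d h y`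
(`Geo.h_eq_zeros`, and `max 0 (-ord s) = d max 0 (-ord y)`: `ord s = d ord y` if `ord y < 0`,
`ord s ≥ 0` otherwise), so `# ≤ R`, while `mason` gives `d R ≤ 2 R + κ + #`, contradiction to `h2`
(`θ y ≠ 0` since `y` is not a constant).
Now `a ≠ b`.
(i) `a = 0`, `b ≠ 1`: `z^d (y^d - (1-b)) = b`, `b ≠ 0`: `s = y^d - (1-b) = b z^{-d}` is a
unit at infinity and all its orders are divisible by `d`: Lemma M.
(ii) `a = 0`, `b = 1`: (*) says `- z^d y^d = -1`: conclusion `z^d y^d = 1`.
(iii) `a ≠ 0`, `b ≠ 0`: `c = b/a`, `s = y^d - c`, `s' = (a-1) y^d + (1-b) = (a-1) s + k₀` with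
`k₀ = (a-b)/a ≠ 0`, and `z^d s' = a s`. `s ≠ 0` (else `s' = k₀ ≠ 0` and `z^d s' = 0`). Unit:
`s (a - z^d (a-1)) = k₀ z^d`, so `s⁻¹ = (a - (a-1) z^d) z^{-d} / k₀ ∈ Inf`. If `v_p s < 1` then
`v_p s' = v_p k₀ = 1`, so `ord s = d ord z`, which is positive, hence `≥ d`. Lemma M.
(iv) `a ≠ 0`, `b = 0`, `a ≠ 1`: `z^d ((a-1) y^d + 1) = a y^d`; `c = 1/(1-a)`,
`(a-1) s = (a-1) y^d + 1` for `s = y^d - c`; `s = a y^d z^{-d} / (a-1)` is a unit at infinity; if
`v_p s < 1` then `v_p y = 1` and `ord s = - d ord z > 0`, so `≥ d`. Lemma M.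
(v) `a = 1`, `b = 0`: `z^d = y^d`.
(`Inf` contains the constants and is a subring, all orders are integers.)
-/

namespace Pool.Agent.Lib.P62g

open WithZero

universe u w

namespace GcdBAux

variable {F : Type w} {L : Type u} [Field F] [Field L] [Algebra F L]

theorem v_const_le (G : Geo F L) (p : G.Pl) (c : F) : G.v p (algebraMap F L c) ≤ 1 := by
  by_cases hc : c = 0
  · rw [hc, map_zero, map_zero]; exact zero_le
  · rw [G.v_const p c hc]

theorem h_const (G : Geo F L) {y : L} (h : ∀ p, G.ord p y = 0) : G.h y = 0 := by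
  rw [Geo.h]
  simp [h]

theorem θ_ne (G : Geo F L) {y : L} (hh : 1 ≤ G.h y) : G.θ y ≠ 0 := by
  intro h0
  obtain ⟨c, hc⟩ := G.θ_ker y h0
  have h1 : G.h y = 0 := by
    apply h_const
    intro p
    rw [hc]
    by_cases hc0 : c = 0
    · rw [hc0, map_zero]; exact Geo.ord_zero p
    · exact Geo.ord_const hc0 p
  omega

/-- Lemma M. -/
theorem lemM [CharZero F] (G : Geo F L) {d : ℕ} (hd : 1 ≤ d) {y : L} (hy : y ≠ 0)
    (hy1 : y ∈ G.Inf) (hy2 : y⁻¹ ∈ G.Inf) {R : ℤ} (hR : 1 ≤ R) (hyR : G.h y = R)
    (h2 : 3 * R + G.κ < d * R) {c : F} (hc : c ≠ 0) (hs : y ^ d - algebraMap F L c ≠ 0)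
    (hs' : (y ^ d - algebraMap F L c)⁻¹ ∈ G.Inf)
    (hdiv : ∀ p, G.v p (y ^ d - algebraMap F L c) < 1 →
      (d : ℤ) ≤ G.ord p (y ^ d - algebraMap F L c)) : False := by
  classical
  have hθ : G.θ y ≠ 0 := θ_ne G (by omega)
  have hm := mason G hd hy hy1 hy2 hθ hc hs hs'
  set s := y ^ d - algebraMap F L c with hsdef
  have hsI : s ∈ G.Inf := G.Inf.sub_mem (G.Inf.pow_mem hy1 d) (G.Inf_const c)
  let S : Finset G.Pl := (Geo.ord_fin (G := G) y).toFinset ∪ (Geo.ord_fin (G := G) s).toFinset
  have hSy : ∀ p, G.ord p y ≠ 0 → p ∈ S := fun p hp => by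
    simp only [S, Finset.mem_union, Set.Finite.mem_toFinset, Set.mem_ofPred_eq]
    exact Or.inl hp
  have hSs : ∀ p, G.ord p s ≠ 0 → p ∈ S := fun p hp => by
    simp only [S, Finset.mem_union, Set.Finite.mem_toFinset, Set.mem_ofPred_eq]
    exact Or.inr hp
  have hz := Geo.h_eq_zeros hs hsI hs' S hSs
  have hp1 := Geo.h_eq_sum (G := G) (x := s) S hSs
  have hp2 := Geo.h_eq_sum (G := G) (x := y) S hSy
  have hyd : y ^ d ≠ 0 := pow_ne_zero d hy
  have key : ∀ p, max 0 (-(G.ord p s)) = (d : ℤ) * max 0 (-(G.ord p y)) := by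
    intro p
    by_cases hlt : G.ord p y < 0
    · have h1 : G.v p (algebraMap F L c) < G.v p (y ^ d) := by
        rw [G.v_const p c hc, Geo.v_eq hyd, ← exp_zero, exp_lt_exp, Geo.ord_pow]
        have : (d : ℤ) * G.ord p y < 0 := by
          apply mul_neg_of_pos_of_neg _ hlt
          exact_mod_cast hd
        omega
      have h3 : G.v p s = G.v p (y ^ d) := by
        rw [hsdef]
        exact Valuation.map_sub_eq_of_lt_left _ h1
      have h4 : G.ord p s = (d : ℤ) * G.ord p y := by
        rw [← Geo.ord_pow, Geo.ord, Geo.ord, h3]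
      rw [h4, max_eq_right (by
        have : (d : ℤ) * G.ord p y < 0 := by
          apply mul_neg_of_pos_of_neg _ hlt
          exact_mod_cast hd
        omega), max_eq_right (by omega)]
      ring
    · have h5 : 0 ≤ G.ord p y := by omega
      have h6 : G.v p s ≤ 1 := by
        rw [hsdef]
        refine (Valuation.map_sub _ _ _).trans (max_le ?_ (v_const_le G p c))
        rw [Geo.v_le_one_iff hyd, Geo.ord_pow]
        positivity
      have h7 : 0 ≤ G.ord p s := (Geo.v_le_one_iff hs p).1 h6
      rw [max_eq_left (by omega), max_eq_left (by omega)]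
      ring
  have hhs : G.h s = (d : ℤ) * G.h y := by
    rw [hp1, hp2, Finset.mul_sum]
    exact Finset.sum_congr rfl fun p _ => key p
  have hset : {p | G.v p s < 1} = ((S.filter fun p => G.v p s < 1 : Finset G.Pl) : Set G.Pl) := by
    ext p
    simp only [Set.mem_ofPred_eq, Finset.coe_filter]
    constructor
    · intro h
      refine ⟨hSs p ?_, h⟩
      have := (Geo.v_lt_one_iff hs p).1 h
      omega
    · exact fun h => h.2
  have hcard : ({p | G.v p s < 1}.ncard : ℤ) * d ≤ G.h s := by
    rw [hset, Set.ncard_coe_finset, hz]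
    calc ((S.filter fun p => G.v p s < 1).card : ℤ) * d
        = ∑ p ∈ S.filter (fun p => G.v p s < 1), (d : ℤ) := by
          rw [Finset.sum_const, nsmul_eq_mul]
      _ ≤ ∑ p ∈ S.filter (fun p => G.v p s < 1), max 0 (G.ord p s) := by
          refine Finset.sum_le_sum fun p hp => ?_
          exact (hdiv p (Finset.mem_filter.1 hp).2).trans (le_max_right _ _)
      _ ≤ ∑ p ∈ S, max 0 (G.ord p s) :=
          Finset.sum_le_sum_of_subset_of_nonneg (Finset.filter_subset _ _)
            fun p _ _ => le_max_left _ _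
  rw [hhs, hyR] at hcard
  have hd' : (0 : ℤ) < d := by exact_mod_cast hd
  have hle : ({p | G.v p s < 1}.ncard : ℤ) ≤ R := by
    rw [mul_comm] at hcard
    exact le_of_mul_le_mul_left hcard hd'
  rw [hyR] at hm
  omega

theorem ord_ge (G : Geo F L) {d : ℕ} {z s : L} (hs : s ≠ 0) (p : G.Pl)
    (h : G.ord p s = (d : ℤ) * G.ord p z ∨ G.ord p s = -((d : ℤ) * G.ord p z))
    (hlt : G.v p s < 1) : (d : ℤ) ≤ G.ord p s := by
  have h1 : 0 < G.ord p s := (Geo.v_lt_one_iff hs p).1 hlt
  have hd0 : (0 : ℤ) ≤ d := Int.natCast_nonneg d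
  rcases h with h | h
  · rw [h] at h1 ⊢
    have h2 : 0 < G.ord p z := by
      by_contra hcon
      have := mul_nonpos_of_nonneg_of_nonpos hd0 (not_lt.1 hcon)
      omega
    nlinarith
  · rw [h] at h1 ⊢
    have h2 : G.ord p z < 0 := by
      by_contra hcon
      have := mul_nonneg hd0 (not_lt.1 hcon)
      omega
    nlinarith

theorem core [CharZero F] (G : Geo F L) {d : ℕ} (hd : 1 ≤ d) {y z : L} (hy : y ≠ 0)
    (hy1 : y ∈ G.Inf) (hy2 : y⁻¹ ∈ G.Inf) (hz : z ≠ 0) (hz1 : z ∈ G.Inf) (hz2 : z⁻¹ ∈ G.Inf)
    (hf : y ^ d - 1 ≠ 0)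
    {R : ℤ} (hR : 1 ≤ R) (hyR : G.h y = R) (hp : ∃ p, G.v p (z ^ d - 1) < 1)
    (h2 : 3 * R + G.κ < d * R) (a b : F)
    (hst : z ^ d * ((algebraMap F L a - 1) * y ^ d + (1 - algebraMap F L b)) =
      algebraMap F L a * y ^ d - algebraMap F L b) :
    z ^ d = y ^ d ∨ z ^ d * y ^ d = 1 := by
  have hyd : y ^ d ≠ 0 := pow_ne_zero d hy
  have hzd : z ^ d ≠ 0 := pow_ne_zero d hz
  have hYI : y ^ d ∈ G.Inf := G.Inf.pow_mem hy1 d
  have hZI : z ^ d ∈ G.Inf := G.Inf.pow_mem hz1 d
  have hYI' : (y ^ d)⁻¹ ∈ G.Inf := by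
    rw [← inv_pow]; exact G.Inf.pow_mem hy2 d
  have hZI' : (z ^ d)⁻¹ ∈ G.Inf := by
    rw [← inv_pow]; exact G.Inf.pow_mem hz2 d
  have hinj : Function.Injective (algebraMap F L) := (algebraMap F L).injective
  by_cases hab : a = b
  · -- constant case
    exfalso
    subst hab
    have h3 : (z ^ d * (algebraMap F L a - 1) - algebraMap F L a) * (y ^ d - 1) = 0 := by
      linear_combination hst
    have h4 : z ^ d * (algebraMap F L a - 1) - algebraMap F L a = 0 := by
      rcases mul_eq_zero.1 h3 with h | h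
      · exact h
      · exact absurd h hf
    have ha1 : a ≠ 1 := by
      rintro rfl
      rw [map_one] at h4
      simp at h4
    have ha1' : algebraMap F L a - 1 ≠ 0 := by
      rw [← map_one (algebraMap F L), ← map_sub]
      exact (map_ne_zero_iff _ hinj).2 (sub_ne_zero.2 ha1)
    have h5 : z ^ d - 1 = algebraMap F L (1 / (a - 1)) := by
      rw [map_div₀, map_sub, map_one]
      field_simp
      linear_combination h4
    obtain ⟨p, hp⟩ := hp
    rw [h5, G.v_const p _ (one_div_ne_zero (sub_ne_zero.2 ha1))] at hp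
    exact lt_irrefl _ hp
  · by_cases ha : a = 0
    · subst ha
      have hb : b ≠ 0 := fun h => hab h.symm
      have hB : algebraMap F L b ≠ 0 := (map_ne_zero_iff _ hinj).2 hb
      rw [map_zero] at hst
      by_cases hb1 : b = 1
      · right
        subst hb1
        rw [map_one] at hst
        linear_combination -hst
      · exfalso
        have hc : (1 - b : F) ≠ 0 := sub_ne_zero.2 (Ne.symm hb1)
        have h3 : z ^ d * (y ^ d - algebraMap F L (1 - b)) = algebraMap F L b := by
          rw [map_sub, map_one]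
          linear_combination -hst
        have hs : y ^ d - algebraMap F L (1 - b) ≠ 0 := by
          intro h0
          rw [h0, mul_zero] at h3
          exact hB h3.symm
        have hs' : (y ^ d - algebraMap F L (1 - b))⁻¹ ∈ G.Inf := by
          have : (y ^ d - algebraMap F L (1 - b))⁻¹ = z ^ d * algebraMap F L b⁻¹ := by
            rw [map_inv₀, ← h3]
            field_simp
          rw [this]
          exact G.Inf.mul_mem hZI (G.Inf_const _)
        refine lemM G hd hy hy1 hy2 hR hyR h2 hc hs hs' fun p hlt => ?_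
        refine ord_ge G (z := z) hs p (Or.inr ?_) hlt
        have h4 := Geo.ord_mul hzd hs p
        rw [h3, Geo.ord_const hb, Geo.ord_pow] at h4
        omega
    · have hA : algebraMap F L a ≠ 0 := (map_ne_zero_iff _ hinj).2 ha
      by_cases hb : b = 0
      · subst hb
        rw [map_zero] at hst
        by_cases ha1 : a = 1
        · left
          subst ha1
          rw [map_one] at hst
          linear_combination hst
        · exfalso
          have h1a : (1 - a : F) ≠ 0 := sub_ne_zero.2 (Ne.symm ha1)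
          have hA1 : algebraMap F L a - 1 ≠ 0 := by
            rw [← map_one (algebraMap F L), ← map_sub]
            exact (map_ne_zero_iff _ hinj).2 (sub_ne_zero.2 ha1)
          have h1A : 1 - algebraMap F L a ≠ 0 := by
            rw [← map_one (algebraMap F L), ← map_sub]
            exact (map_ne_zero_iff _ hinj).2 h1a
          have hc : (1 / (1 - a) : F) ≠ 0 := one_div_ne_zero h1a
          have h3 : (algebraMap F L a - 1) * (y ^ d - algebraMap F L (1 / (1 - a))) =
              (algebraMap F L a - 1) * y ^ d + 1 := by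
            rw [map_div₀, map_sub, map_one]
            field_simp
            ring
          have h4 : z ^ d * ((algebraMap F L a - 1) * (y ^ d - algebraMap F L (1 / (1 - a)))) =
              algebraMap F L a * y ^ d := by
            rw [h3]
            linear_combination hst
          have hs : y ^ d - algebraMap F L (1 / (1 - a)) ≠ 0 := by
            intro h0
            rw [h0, mul_zero, mul_zero] at h4
            exact mul_ne_zero hA hyd h4.symm
          have hs' : (y ^ d - algebraMap F L (1 / (1 - a)))⁻¹ ∈ G.Inf := by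
            have : (y ^ d - algebraMap F L (1 / (1 - a)))⁻¹ =
                (algebraMap F L a - 1) * z ^ d * (y ^ d)⁻¹ * algebraMap F L a⁻¹ := by
              have h5 : (y ^ d - algebraMap F L (1 / (1 - a))) * ((algebraMap F L a - 1) * z ^ d *
                  (y ^ d)⁻¹ * algebraMap F L a⁻¹) = 1 := by
                rw [map_inv₀]
                calc (y ^ d - algebraMap F L (1 / (1 - a))) * ((algebraMap F L a - 1) * z ^ d *
                      (y ^ d)⁻¹ * (algebraMap F L a)⁻¹)
                    = (z ^ d * ((algebraMap F L a - 1) *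
                        (y ^ d - algebraMap F L (1 / (1 - a))))) * (y ^ d)⁻¹ *
                        (algebraMap F L a)⁻¹ := by ring
                  _ = 1 := by
                      rw [h4]
                      field_simp
              exact (eq_inv_of_mul_eq_one_right h5).symm
            rw [this]
            exact G.Inf.mul_mem (G.Inf.mul_mem (G.Inf.mul_mem
              (G.Inf.sub_mem (G.Inf_const _) G.Inf.one_mem) hZI) hYI') (G.Inf_const _)
          refine lemM G hd hy hy1 hy2 hR hyR h2 hc hs hs' fun p hlt => ?_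
          refine ord_ge G (z := z) hs p (Or.inr ?_) hlt
          have hvY : G.v p (y ^ d) = 1 := by
            have h5 : y ^ d = algebraMap F L (1 / (1 - a)) +
                (y ^ d - algebraMap F L (1 / (1 - a))) := by ring
            rw [h5, Valuation.map_add_eq_of_lt_left _ (by rw [G.v_const p _ hc]; exact hlt),
              G.v_const p _ hc]
          have hoY : G.ord p (y ^ d) = 0 := (Geo.v_eq_one_iff hyd p).1 hvY
          have hoA1 : G.ord p (algebraMap F L a - 1) = 0 := by
            rw [← map_one (algebraMap F L), ← map_sub]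
            exact Geo.ord_const (sub_ne_zero.2 ha1) p
          have h6 := Geo.ord_mul (G := G) hzd (mul_ne_zero hA1 hs) p
          rw [h4, Geo.ord_mul hA1 hs, Geo.ord_mul hA hyd, Geo.ord_const ha, hoY, hoA1,
            Geo.ord_pow] at h6
          omega
      · exfalso
        have hB : algebraMap F L b ≠ 0 := (map_ne_zero_iff _ hinj).2 hb
        have hk : ((a - b) / a : F) ≠ 0 := div_ne_zero (sub_ne_zero.2 hab) ha
        have hK : algebraMap F L ((a - b) / a) ≠ 0 := (map_ne_zero_iff _ hinj).2 hk
        have hc : (b / a : F) ≠ 0 := div_ne_zero hb ha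
        set s := y ^ d - algebraMap F L (b / a) with hsdef
        set K := algebraMap F L ((a - b) / a) with hKdef
        have h3 : (algebraMap F L a - 1) * y ^ d + (1 - algebraMap F L b) =
            (algebraMap F L a - 1) * s + K := by
          rw [hsdef, hKdef, map_div₀, map_div₀, map_sub]
          field_simp
          ring
        have h4 : algebraMap F L a * s = algebraMap F L a * y ^ d - algebraMap F L b := by
          rw [hsdef, map_div₀]
          field_simp
        rw [h3, ← h4] at hst
        have hs : s ≠ 0 := by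
          intro h0
          rw [h0, mul_zero, mul_zero, zero_add] at hst
          exact mul_ne_zero hzd hK hst
        have h5 : s * (algebraMap F L a - (algebraMap F L a - 1) * z ^ d) = K * z ^ d := by
          linear_combination -hst
        have hs' : s⁻¹ ∈ G.Inf := by
          have : s⁻¹ = (algebraMap F L a - (algebraMap F L a - 1) * z ^ d) * (z ^ d)⁻¹ *
              algebraMap F L ((a - b) / a)⁻¹ := by
            rw [map_inv₀, ← hKdef]
            have h6 : s * ((algebraMap F L a - (algebraMap F L a - 1) * z ^ d) * (z ^ d)⁻¹ *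
              K⁻¹) = 1 := by
              rw [← mul_assoc, ← mul_assoc, h5]
              field_simp
            exact (eq_inv_of_mul_eq_one_right h6).symm
          rw [this]
          exact G.Inf.mul_mem (G.Inf.mul_mem (G.Inf.sub_mem (G.Inf_const _)
            (G.Inf.mul_mem (G.Inf.sub_mem (G.Inf_const _) G.Inf.one_mem) hZI)) hZI')
            (G.Inf_const _)
        refine lemM G hd hy hy1 hy2 hR hyR h2 hc hs hs' fun p hlt => ?_
        refine ord_ge G (z := z) hs p (Or.inl ?_) hlt
        have h7 : G.v p ((algebraMap F L a - 1) * s + K) = 1 := by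
          rw [add_comm, Valuation.map_add_eq_of_lt_left, G.v_const p _ hk]
          rw [G.v_const p _ hk, map_mul]
          have h8 : G.v p (algebraMap F L a - 1) ≤ 1 := by
            rw [← map_one (algebraMap F L), ← map_sub]
            exact v_const_le G p _
          calc G.v p (algebraMap F L a - 1) * G.v p s ≤ 1 * G.v p s := by
                exact mul_le_mul_left h8 _
            _ < 1 := by rw [one_mul]; exact hlt
        have hs0 : (algebraMap F L a - 1) * s + K ≠ 0 := by
          intro h0
          rw [h0, map_zero] at h7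
          exact zero_ne_one h7
        have h9 := Geo.ord_mul (G := G) hzd hs0 p
        rw [hst, Geo.ord_mul hA hs, Geo.ord_const ha, Geo.ord_pow,
          (Geo.v_eq_one_iff hs0 p).1 h7] at h9
        omega

end GcdBAux

theorem gcd_zero {F : Type w} {L : Type u} [Field F] [CharZero F] [Field L] [Algebra F L]
    (G : Geo F L) {d : ℕ} (hd : 1 ≤ d) {y z : L} (hy : y ≠ 0) (hy1 : y ∈ G.Inf)
    (hy2 : y⁻¹ ∈ G.Inf) (hz : z ≠ 0) (hz1 : z ∈ G.Inf) (hz2 : z⁻¹ ∈ G.Inf)
    (hf : y ^ d - 1 ≠ 0) (hg : z ^ d - 1 ≠ 0)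
    {R : ℤ} (hR : 1 ≤ R) (hyR : G.h y = R) (hp : ∃ p, G.v p (z ^ d - 1) < 1)
    (h2 : 3 * R + G.κ < d * R)
    (hW : w3 G.θ (y ^ d) (-1) (-((y ^ d - 1) / (z ^ d - 1) * z ^ d)) = 0) :
    z ^ d = y ^ d ∨ z ^ d * y ^ d = 1 := by
  have hyd : y ^ d ≠ 0 := pow_ne_zero d hy
  obtain ⟨a, b, c, hbc, hrel⟩ := w3_relation G hyd hW
  have hinj : Function.Injective (algebraMap F L) := (algebraMap F L).injective
  by_cases hc : c = 0
  · exfalso
    subst hc
    have hb : b ≠ 0 := by
      rcases hbc with h | h
      · exact h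
      · exact absurd rfl h
    rw [map_zero, zero_mul, add_zero] at hrel
    have hB : algebraMap F L b ≠ 0 := (map_ne_zero_iff _ hinj).2 hb
    have ha : a ≠ 0 := by
      rintro rfl
      rw [map_zero, zero_mul, zero_add] at hrel
      apply hB
      linear_combination -hrel
    have hA : algebraMap F L a ≠ 0 := (map_ne_zero_iff _ hinj).2 ha
    have hy0 : y ^ d = algebraMap F L (b / a) := by
      rw [map_div₀]
      field_simp
      linear_combination hrel
    have h0 : G.h y = 0 := by
      apply GcdBAux.h_const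
      intro p
      have h1 := Geo.ord_pow (G := G) y d p
      rw [hy0, Geo.ord_const (div_ne_zero hb ha)] at h1
      rcases mul_eq_zero.1 h1.symm with h | h
      · have : d = 0 := by exact_mod_cast h
        omega
      · exact h
    omega
  · have hC : algebraMap F L c ≠ 0 := (map_ne_zero_iff _ hinj).2 hc
    refine GcdBAux.core G hd hy hy1 hy2 hz hz1 hz2 hf hR hyR hp h2 (a / c) (b / c) ?_
    set v := (y ^ d - 1) / (z ^ d - 1) with hv
    have hv1 : v * (z ^ d - 1) = y ^ d - 1 := by
      rw [hv]
      field_simp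
    have h3 : v * z ^ d = algebraMap F L (a / c) * y ^ d - algebraMap F L (b / c) := by
      rw [map_div₀, map_div₀]
      field_simp
      linear_combination -hrel
    have h4 : (algebraMap F L (a / c) - 1) * y ^ d + (1 - algebraMap F L (b / c)) = v := by
      linear_combination hv1 - h3
    rw [h4, ← h3]
    ring

end Pool.Agent.Lib.P62g
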