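import Pool.Agent.Lib.P62g.GcdA
import Pool.Agent.Lib.P62g.GcdB

/-!
# Many common zeros of `y ^ d - 1` and `z ^ d - 1` in a `Geo`
-/

namespace Pool.Agent.Lib.P62g

open WithZero

universe u w

theorem large_gcd {F : Type w} {L : Type u} [Field F] [CharZero F] [Field L] [Algebra F L]
    (G : Geo F L) {d : ℕ} (hd : 1 ≤ d) {y z : L} (hy : y ≠ 0) (hy1 : y ∈ G.Inf)
    (hy2 : y⁻¹ ∈ G.Inf) (hz : z ≠ 0) (hz1 : z ∈ G.Inf) (hz2 : z⁻¹ ∈ G.Inf)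
    (hf : y ^ d - 1 ≠ 0) (hf' : (y ^ d - 1)⁻¹ ∈ G.Inf)
    (hg : z ^ d - 1 ≠ 0) (hg' : (z ^ d - 1)⁻¹ ∈ G.Inf)
    {R τ : ℤ} (hR : 1 ≤ R) (hyR : G.h y = R) (hzR : G.h z ≤ R) (hτ0 : 0 < τ)
    (hτ : τ ≤ ({p | G.v p (y ^ d - 1) < 1 ∧ G.v p (z ^ d - 1) < 1}.ncard : ℤ))
    (h1 : 16 * R + 8 * (d * R - τ) + 3 * G.κ < d * R)
    (h2 : 3 * R + G.κ < d * R) :
    z ^ d = y ^ d ∨ z ^ d * y ^ d = 1 := by
  by_cases hW : w3 G.θ (y ^ d) (-1) (-((y ^ d - 1) / (z ^ d - 1) * z ^ d)) = 0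
  · refine gcd_zero G hd hy hy1 hy2 hz hz1 hz2 hf hg hR hyR ?_ h2 hW
    have h0 : {p | G.v p (y ^ d - 1) < 1 ∧ G.v p (z ^ d - 1) < 1}.ncard ≠ 0 := by
      intro h0
      rw [h0] at hτ
      push_cast at hτ
      omega
    obtain ⟨p, hp⟩ := Set.nonempty_of_ncard_ne_zero h0
    exact ⟨p, hp.2⟩
  · exact (gcd_nonzero G hd hy hy1 hy2 hz hz1 hz2 hf hf' hg hg' hyR hzR hτ h1 hW).elim

end Pool.Agent.Lib.P62g
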