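import Pool.Agent.Lib.P62g.CollA
import Pool.Agent.Lib.P62g.CountC
import Pool.Agent.Lib.P62g.GcdL

/-!
# Module P62g.Dyn: the dynamical argument in a `Geo`

(imports MasonL (`mason`), GcdL (`large_gcd`), CollA (`ncard_coll`), CollB (`collapse`,
`fiber_card`), CountC (`counting`) as black boxes.) The model is
`Pool.Agent.Lib.P62a0c3.main_count` (file `Pool/Agent/Lib/P62a0c3/Count.lean`), the same proof with
places instead of points.

Suppose `2000 d ≤ |P|`. `f = bic α β γ δ d`. `h y = R ≥ 1`, so `y` is not a constant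
(`G.h (algebraMap F L c) = 0` by `Geo.ord_const`), so `θ y ≠ 0` (`G.θ_ker`) and `y ^ d ≠ 1`
(else `0 = θ(y^d) = d y^(d-1) θ y`, `Derivation.leibniz_pow`).
`Z = {p | v_p(y^d - 1) < 1}` is finite (`G.v_fin`) and `mason` with `c = 1` gives
`d R ≤ 2 R + κ + |Z|`. `f 1 ≠ f y` (else `y^d = 1`, cf. `pow_eq_of_bic_eq` in
`P62a0c3/Preper.lean`, or use that `α + β = l(α y^d + β)`, `γ + δ = l(γ y^d + δ)`), so
`V = {p | coll (f 1) (f y)}` has at most `2 R` elements (`ncard_coll`; its hypotheses hold for all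
points of `P`: `hInf`, `hle`). `T = Z \ V`, `|T| ≥ (d - 4) R - κ ≥ (d - 4 - C1) R ≥ 8192 R`.
`B p = {z ∈ P | ¬ clp (G.v p) d z}`. Apply `counting` with `ι = P`:
* `hpair`: if `f z ≠ f w` and `z, w ∈ B p`, `p ∈ T`, then `coll (G.v p) (f z) (f w)` (`collapse`),
  at most `2 R` places (`ncard_coll`).
* `hfib`: `fiber_card`.
* `E = {z ∈ P | z = 0 or z = ∞ or z^d = 1 or z^d = y^d or z^d y^d = 1}`, `|E| ≤ 3 d + 2`
  (at most `d` solutions in the field `L` each, `card_nthRoots`; `z ^ d = (y^d)⁻¹`).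
* `hlow`: let `z ∈ P`, `z ∉ E`, so `z ∈ L`, `z ≠ 0`, `z^d ≠ 1`. Let `u = #{p ∈ T | z ∈ B p}` and
  suppose `32 u < |T|`. For `p ∈ T` with `z ∉ B p`: `clp`, i.e. `v(z^d - 1) < max(v z, 1)^d`, so
  `v z ≤ 1` (if `v z > 1` then `v (z^d - 1) = v(z)^d`), so `v(z^d - 1) < 1`; also `v(y^d - 1) < 1`.
  So `τ := |T| - u` satisfies `τ ≤ #{p | v(y^d-1) < 1 ∧ v(z^d-1) < 1}` and `32 τ ≥ 31 |T|`,
  `|T| ≥ (d - 4 - C1) R`. `large_gcd` applies:
  `16 R + 8 (d R - τ) + 3 κ ≤ 16 R + 8 d R - (31/4) (d - 4 - C1) R + 3 C1 R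
   = (47 + d/4 + (43/4) C1) R < d R` since `3 d > 188 + 43 C1`; `3 R + κ ≤ (3 + C1) R < d R`.
  Conclusion `z^d = y^d` or `z^d y^d = 1`, i.e. `z ∈ E`, contradiction.
-/

namespace Pool.Agent.Lib.P62g

open Pool.Agent.Lib.P62a0c3 WithZero

universe u w

private theorem bic_pow_eq {L : Type*} [Field L] {α β γ δ : L} (hdet : α * δ - β * γ ≠ 0) {d : ℕ}
    {z w : L} (h : bic α β γ δ d (z : OnePoint L) = bic α β γ δ d (w : OnePoint L)) :
    z ^ d = w ^ d := by
  rw [bic_some, bic_some] at h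
  have h1 : (α * z ^ d + β) * (γ * w ^ d + δ) = (α * w ^ d + β) * (γ * z ^ d + δ) := by
    unfold toP1 at h
    by_cases hq : γ * z ^ d + δ = 0
    · by_cases hq' : γ * w ^ d + δ = 0
      · rw [hq, hq']; ring
      · rw [if_pos hq, if_neg hq'] at h
        exact absurd h.symm (OnePoint.coe_ne_infty _)
    · by_cases hq' : γ * w ^ d + δ = 0
      · rw [if_neg hq, if_pos hq'] at h
        exact absurd h (OnePoint.coe_ne_infty _)
      · rw [if_neg hq, if_neg hq'] at h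
        exact (div_eq_div_iff hq hq').1 (OnePoint.coe_injective h)
  have h2 : (α * δ - β * γ) * (z ^ d - w ^ d) = 0 := by linear_combination h1
  exact sub_eq_zero.1 ((mul_eq_zero.1 h2).resolve_left hdet)

private theorem v_lt_of_clp {L : Type*} [Field L] (v : Valuation L ℤᵐ⁰) {d : ℕ} (hd : d ≠ 0) {z : L}
    (h : clp v d (z : OnePoint L)) : v (z ^ d - 1) < 1 := by
  have h1 : v (z ^ d - 1) < max (v z) 1 ^ d := by
    have h2 : v (z ^ d - (1 : L) ^ d) < max (v z) (v (1 : L)) ^ d := h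
    rwa [one_pow, map_one] at h2
  rcases le_or_gt (v z) 1 with hz | hz
  · rwa [max_eq_right hz, one_pow] at h1
  · rw [max_eq_left hz.le, ← map_pow] at h1
    have h3 : v (1 : L) < v (z ^ d) := by
      rw [map_one, map_pow]
      exact one_lt_pow₀ hz hd
    rw [Valuation.map_sub_eq_of_lt_left v h3] at h1
    exact absurd h1 (lt_irrefl _)

private theorem excep_card {L : Type*} [Field L] {d : ℕ} (hd : 0 < d) {y : L} (hy : y ≠ 0)
    (S : Set (OnePoint L))
    (hS : ∀ z ∈ S, z = ((0 : L) : OnePoint L) ∨ z = OnePoint.infty ∨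
      ∃ u : L, z = (u : OnePoint L) ∧ (u ^ d = 1 ∨ u ^ d = y ^ d ∨ u ^ d * y ^ d = 1)) :
    S.Finite ∧ S.ncard ≤ 3 * d + 2 := by
  classical
  have hyd : y ^ d ≠ 0 := pow_ne_zero d hy
  set A : Finset (OnePoint L) := {((0 : L) : OnePoint L), OnePoint.infty}
  set N : L → Finset (OnePoint L) := fun c =>
    (Polynomial.nthRoots d c).toFinset.image (fun w : L => (w : OnePoint L)) with hN
  have hNc : ∀ c, (N c).card ≤ d := fun c =>
    Finset.card_image_le.trans ((Multiset.toFinset_card_le _).trans (Polynomial.card_nthRoots d _))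
  have hNm : ∀ c u : L, u ^ d = c → (u : OnePoint L) ∈ N c := by
    intro c u h
    refine Finset.mem_image.2 ⟨u, ?_, rfl⟩
    rw [Multiset.mem_toFinset, Polynomial.mem_nthRoots hd]
    exact h
  have hsub : S ⊆ ((A ∪ (N 1 ∪ (N (y ^ d) ∪ N (y ^ d)⁻¹)) : Finset (OnePoint L)) : Set (OnePoint L)) := by
    intro z hz
    rw [Finset.mem_coe]
    rcases hS z hz with h | h | ⟨u, rfl, h | h | h⟩
    · exact Finset.mem_union_left _ (by rw [h]; exact Finset.mem_insert_self _ _)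
    · exact Finset.mem_union_left _
        (by rw [h]; exact Finset.mem_insert_of_mem (Finset.mem_singleton_self _))
    · exact Finset.mem_union_right _ (Finset.mem_union_left _ (hNm _ _ h))
    · exact Finset.mem_union_right _ (Finset.mem_union_right _ (Finset.mem_union_left _ (hNm _ _ h)))
    · exact Finset.mem_union_right _ (Finset.mem_union_right _ (Finset.mem_union_right _
        (hNm _ _ (eq_inv_of_mul_eq_one_left h))))
  refine ⟨(Finset.finite_toSet _).subset hsub, ?_⟩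
  refine (Set.ncard_le_ncard hsub (Finset.finite_toSet _)).trans ?_
  rw [Set.ncard_coe_finset]
  have h0 : A.card ≤ 2 := Finset.card_le_two
  have h1 := hNc 1
  have h2 := hNc (y ^ d)
  have h3 := hNc (y ^ d)⁻¹
  have h4 := Finset.card_union_le A (N 1 ∪ (N (y ^ d) ∪ N (y ^ d)⁻¹))
  have h5 := Finset.card_union_le (N 1) (N (y ^ d) ∪ N (y ^ d)⁻¹)
  have h6 := Finset.card_union_le (N (y ^ d)) (N (y ^ d)⁻¹)
  omega

private theorem counting_set {ι Pl X : Type*} [Fintype ι] (f : ι → X) {d R : ℕ} (hd : 1 ≤ d)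
    (hR : 1 ≤ R) (hN : 2000 * d ≤ Fintype.card ι) (T : Finset Pl) (b : Pl → ι → Prop) (E : Set ι)
    (hE : E.ncard ≤ 3 * d + 2)
    (hpair : ∀ z w, f z ≠ f w → {t | t ∈ T ∧ b t z ∧ b t w}.ncard ≤ 2 * R)
    (hfib : ∀ z, {w | f z = f w}.ncard ≤ d)
    (hlow : ∀ z, z ∉ E → T.card ≤ 32 * {t | t ∈ T ∧ b t z}.ncard)
    (hT : 8192 * R ≤ T.card) : False := by
  classical
  refine counting f hd hR hN T (fun t => Finset.univ.filter fun z => b t z)
    (Finset.univ.filter fun z => z ∈ E) ?_ ?_ ?_ ?_ hT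
  · refine le_trans (le_of_eq ?_) hE
    rw [← Set.ncard_coe_finset]
    congr 1
    ext z
    simp
  · intro z w hzw
    refine le_trans (le_of_eq ?_) (hpair z w hzw)
    rw [← Set.ncard_coe_finset]
    congr 1
    ext t
    simp
  · intro z
    refine le_trans (le_of_eq ?_) (hfib z)
    rw [← Set.ncard_coe_finset]
    congr 1
    ext w
    simp
  · intro z hz
    refine le_trans (hlow z (fun h => hz (by simpa using h))) (Nat.mul_le_mul_left _ (le_of_eq ?_))
    rw [← Set.ncard_coe_finset]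
    congr 1
    ext t
    simp

theorem dyn {F : Type w} {L : Type u} [Field F] [CharZero F] [Field L] [Algebra F L]
    (G : Geo F L) {C1 d : ℕ} (hd : 8200 + 16 * C1 ≤ d) {R : ℤ} (hR : 1 ≤ R)
    (hκ : (G.κ : ℤ) ≤ C1 * R) {α β γ δ : L} (hdet : α * δ - β * γ ≠ 0)
    (P : Finset (OnePoint L)) (hP : ∀ p ∈ P, bic α β γ δ d p ∈ P)
    (h1 : ((1 : L) : OnePoint L) ∈ P)
    (hInf : ∀ z : L, (z : OnePoint L) ∈ P → z ≠ 0 → z ∈ G.Inf ∧ z⁻¹ ∈ G.Inf)
    (hInf' : ∀ z : L, (z : OnePoint L) ∈ P → z ≠ 0 → z ^ d ≠ 1 → (z ^ d - 1)⁻¹ ∈ G.Inf)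
    (hle : ∀ z : L, (z : OnePoint L) ∈ P → z ≠ 0 → G.h z ≤ R)
    (y : L) (hy : (y : OnePoint L) ∈ P) (hy0 : y ≠ 0) (hyR : G.h y = R) :
    P.card < 2000 * d := by
  classical
  by_contra hcon
  push Not at hcon
  have hd0 : d ≠ 0 := by omega
  have hd1 : 1 ≤ d := by omega
  -- `y` is not constant
  have hθ : G.θ y ≠ 0 := by
    intro h
    obtain ⟨c, hc⟩ := G.θ_ker y h
    have hc0 : c ≠ 0 := by
      rintro rfl
      exact hy0 (by rw [hc, map_zero])
    have h2 : G.h y = 0 := by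
      rw [hc, Geo.h]
      simp [Geo.ord_const hc0]
    omega
  have hs : y ^ d - 1 ≠ 0 := by
    intro h
    have h2 := (Geo.ord_θ_pow_sub (G := G) hd1 hy0 hθ 1).1
    rw [map_one, h, map_zero] at h2
    exact h2 rfl
  have hs1 : y ^ d ≠ 1 := fun h => hs (by rw [h, sub_self])
  have hm := mason G hd1 hy0 (hInf y hy hy0).1 (hInf y hy hy0).2 hθ (c := 1) one_ne_zero
    (by rw [map_one]; exact hs) (by rw [map_one]; exact hInf' y hy hy0 hs1)
  rw [map_one, hyR] at hm
  -- the zero set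
  have hZfin : {p | G.v p (y ^ d - 1) < 1}.Finite :=
    (G.v_fin _ hs).subset fun p hp => (ne_of_lt hp : _)
  have hfne : bic α β γ δ d ((1 : L) : OnePoint L) ≠ bic α β γ δ d (y : OnePoint L) := by
    intro h
    have h2 := bic_pow_eq hdet h
    rw [one_pow] at h2
    exact hs1 h2.symm
  have hpt : ∀ q ∈ P, ∀ z : L, q = (z : OnePoint L) → z ≠ 0 →
      z ∈ G.Inf ∧ z⁻¹ ∈ G.Inf ∧ G.h z ≤ R := by
    rintro q hq z rfl hz
    exact ⟨(hInf z hq hz).1, (hInf z hq hz).2, hle z hq hz⟩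
  have hcoll : ∀ q ∈ P, ∀ r ∈ P, q ≠ r →
      {p | coll (G.v p) q r}.Finite ∧ ({p | coll (G.v p) q r}.ncard : ℤ) ≤ 2 * R :=
    fun q hq r hr hqr => ncard_coll G (by omega) (hpt q hq) (hpt r hr) hqr
  obtain ⟨hVfin, hVcard⟩ := hcoll _ (hP _ h1) _ (hP _ hy) hfne
  rw [Set.ncard_eq_toFinset_card _ hZfin] at hm
  rw [Set.ncard_eq_toFinset_card _ hVfin] at hVcard
  set Z := hZfin.toFinset with hZ
  set V := hVfin.toFinset with hV
  set T := Z \ V with hT
  have hTZ : ∀ p ∈ T, G.v p (y ^ d - 1) < 1 := by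
    intro p hp
    have := (Finset.mem_sdiff.1 hp).1
    rwa [hZ, Set.Finite.mem_toFinset] at this
  have hTV : ∀ p ∈ T, ¬ coll (G.v p) (bic α β γ δ d ((1 : L) : OnePoint L))
      (bic α β γ δ d (y : OnePoint L)) := by
    intro p hp h
    apply (Finset.mem_sdiff.1 hp).2
    rw [hV, Set.Finite.mem_toFinset]
    exact h
  have hZT : Z.card ≤ T.card + V.card := by
    rw [hT]
    exact Finset.card_le_card_sdiff_add_card
  -- linear arithmetic
  have hdR : 8200 * R + 16 * ((C1 : ℤ) * R) ≤ (d : ℤ) * R := by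
    have h2 : ((8200 + 16 * C1 : ℕ) : ℤ) ≤ d := by exact_mod_cast hd
    have h3 := mul_le_mul_of_nonneg_right h2 (by omega : 0 ≤ R)
    push_cast at h3
    linarith
  have hC0 : 0 ≤ (C1 : ℤ) * R := mul_nonneg (by positivity) (by omega)
  have hZT' : (Z.card : ℤ) ≤ T.card + V.card := by exact_mod_cast hZT
  have hTcard : (d : ℤ) * R - 4 * R - C1 * R ≤ T.card := by omega
  obtain ⟨R', hR'⟩ : ∃ R' : ℕ, R = R' := ⟨R.toNat, by omega⟩
  -- the sets `B p`
  refine counting_set (ι := P) (fun z => bic α β γ δ d (z : OnePoint L)) (d := d) (R := R') hd1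
    (by omega) (by rw [Fintype.card_coe]; exact hcon) T
    (fun p z => ¬ clp (G.v p) d (z : OnePoint L))
    {z : P | (z : OnePoint L) = ((0 : L) : OnePoint L) ∨
      (z : OnePoint L) = OnePoint.infty ∨ ∃ u : L, (z : OnePoint L) = (u : OnePoint L) ∧
        (u ^ d = 1 ∨ u ^ d = y ^ d ∨ u ^ d * y ^ d = 1)} ?_ ?_ ?_ ?_ ?_
  · -- exceptional set
    have h2 := excep_card (d := d) (by omega) hy0 (Subtype.val '' {z : P |
      (z : OnePoint L) = ((0 : L) : OnePoint L) ∨
      (z : OnePoint L) = OnePoint.infty ∨ ∃ u : L, (z : OnePoint L) = (u : OnePoint L) ∧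
        (u ^ d = 1 ∨ u ^ d = y ^ d ∨ u ^ d * y ^ d = 1)}) (by
        rintro _ ⟨z, hz, rfl⟩
        exact hz)
    rw [Set.ncard_image_of_injective _ Subtype.val_injective] at h2
    exact h2.2
  · -- pairs
    rintro z w hzw
    obtain ⟨hfin, hcard⟩ := hcoll _ (hP _ z.2) _ (hP _ w.2) hzw
    refine le_trans (Set.ncard_le_ncard (fun t ht => ?_) hfin) ?_
    · exact collapse (G.v t) hd0 hdet (hTZ t ht.1) (hTV t ht.1) ht.2.1 ht.2.2
    · have : ({p | coll (G.v p) (bic α β γ δ d (z : OnePoint L))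
          (bic α β γ δ d (w : OnePoint L))}.ncard : ℤ) ≤ ((2 * R' : ℕ) : ℤ) := by
        push_cast
        rw [← hR']
        exact hcard
      exact_mod_cast this
  · -- fibers
    intro z
    have h2 := fiber_card hd0 hdet P (z : OnePoint L)
    have h3 : {w | w ∈ P ∧ bic α β γ δ d (z : OnePoint L) = bic α β γ δ d w} =
        Subtype.val '' {w : P | bic α β γ δ d (z : OnePoint L) = bic α β γ δ d (w : OnePoint L)} := by
      ext w
      constructor
      · rintro ⟨hw, hw'⟩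
        exact ⟨⟨w, hw⟩, hw', rfl⟩
      · rintro ⟨w, hw, rfl⟩
        exact ⟨w.2, hw⟩
    rw [h3, Set.ncard_image_of_injective _ Subtype.val_injective] at h2
    exact h2
  · -- lower bound
    rintro ⟨z, hzP⟩ hzE
    have hzE : ¬ (z = ((0 : L) : OnePoint L) ∨ z = OnePoint.infty ∨
      ∃ u : L, z = (u : OnePoint L) ∧ (u ^ d = 1 ∨ u ^ d = y ^ d ∨ u ^ d * y ^ d = 1)) := hzE
    push Not at hzE
    induction z using OnePoint.rec with
    | infty => exact absurd rfl hzE.2.1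
    | coe z =>
      have hz0 : z ≠ 0 := by
        rintro rfl
        exact hzE.1 rfl
      obtain ⟨hz1, hz2, hz3⟩ := hzE.2.2 z rfl
      by_contra hlt
      push Not at hlt
      have hlt : 32 * {t | t ∈ T ∧ ¬ clp (G.v t) d (z : OnePoint L)}.ncard < T.card := hlt
      have hzs : z ^ d - 1 ≠ 0 := sub_ne_zero.2 hz1
      -- the places where both vanish
      have hfin : {p | G.v p (y ^ d - 1) < 1 ∧ G.v p (z ^ d - 1) < 1}.Finite :=
        hZfin.subset fun p hp => hp.1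
      have hsplit : T.card ≤ {t | t ∈ T ∧ ¬ clp (G.v t) d (z : OnePoint L)}.ncard +
          {p | G.v p (y ^ d - 1) < 1 ∧ G.v p (z ^ d - 1) < 1}.ncard := by
        rw [← Set.ncard_coe_finset]
        have hsub : (T : Set G.Pl) ⊆ {t | t ∈ T ∧ ¬ clp (G.v t) d (z : OnePoint L)} ∪
            {p | G.v p (y ^ d - 1) < 1 ∧ G.v p (z ^ d - 1) < 1} := by
          intro t ht
          rw [Finset.mem_coe] at ht
          by_cases h : clp (G.v t) d (z : OnePoint L)
          · exact Or.inr ⟨hTZ t ht, v_lt_of_clp _ hd0 h⟩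
          · exact Or.inl ⟨ht, h⟩
        have hfinT : {t | t ∈ T ∧ ¬ clp (G.v t) d (z : OnePoint L)}.Finite :=
          T.finite_toSet.subset fun t ht => ht.1
        exact (Set.ncard_le_ncard hsub (hfinT.union hfin)).trans (Set.ncard_union_le _ _)
      generalize {t | t ∈ T ∧ ¬ clp (G.v t) d (z : OnePoint L)}.ncard = u at *
      have hlg := large_gcd G hd1 hy0 (hInf y hy hy0).1 (hInf y hy hy0).2 hz0 (hInf z hzP hz0).1
        (hInf z hzP hz0).2 hs (hInf' y hy hy0 hs1) hzs (hInf' z hzP hz0 hz1) hR hyR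
        (hle z hzP hz0) (τ := ({p | G.v p (y ^ d - 1) < 1 ∧ G.v p (z ^ d - 1) < 1}.ncard : ℤ))
      generalize {p | G.v p (y ^ d - 1) < 1 ∧ G.v p (z ^ d - 1) < 1}.ncard = τ at *
      have h4 : (T.card : ℤ) ≤ (u : ℤ) + τ := by exact_mod_cast hsplit
      have h5 : 32 * (u : ℤ) < T.card := by exact_mod_cast hlt
      have h6 := hlg (by omega) le_rfl (by omega) (by omega)
      rcases h6 with h6 | h6
      · exact hz2 h6
      · exact hz3 h6
  · have h2 : ((8192 * R' : ℕ) : ℤ) ≤ T.card := by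
      push_cast
      rw [← hR']
      omega
    exact_mod_cast h2

end Pool.Agent.Lib.P62g
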