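import Pool.Agent.Lib.P62g.Wr

/-!
# Module P62g.GcdA: many common zeros of `y ^ d - 1` and `z ^ d - 1`, nonzero Wronskian

(imports Wr as a black box, it may still contain `sorry` when you start.)
Write `f = y ^ d - 1`, `g = z ^ d - 1`, `v = f / g`; `y, z, f, g, v` are nonzero units at infinity
(they and their inverses lie in `Inf`), so they have `tot = 0` (`Geo.tot_unit`), and
`h f = d h y`, `h g = d h z` (`max 0 (-ord f) = d max 0 (-ord y)`: `ord f = d ord y` if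
`ord y < 0`, `ord f ≥ 0` otherwise), zeros and poles balance (`Geo.h_eq_zeros`).
`q 0 = y ^ d`, `q 1 = -1`, `q 2 = - (v z ^ d)`, `q 3 = v`; the sum is `f - v g = 0`.
`W = w3 (q 0) (q 1) (q 2)` and all `q i` lie in `Inf`, so `tot W ≤ 3 κ` (`w3_tot`).
Let `S` be a finite set of places containing all supports. By `w3_ord` with `j` chosen
at each place: `ord W ≥ Σ_i ord (q i) - min(ord (q 0), 0) - 2 #{i | ord (q i) ≠ 0}` (take `j = 0` or
`j = 1`, `ord (q 1) = 0`). Summing over `S` (`Geo.tot_eq_sum`), with `tot (q i) = 0`: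
`3 κ ≥ tot W ≥ 0 + d h(y) - 2 (#supp y + (#supp v + #supp z) + #supp v)`,
because `Σ_p max 0 (-(d ord_p y)) = d h(y)`; `#supp y ≤ 2 h(y) ≤ 2R` (zeros and poles),
`#supp z ≤ 2R`. For `v`: at each place
`[ord v ≠ 0] ≤ max 0 (ord f) + max 0 (ord g) - 2 [p ∈ T'] + [ord f < 0] + [ord g < 0]` where `T'` is
the set of places with `v_p f < 1` and `v_p g < 1`, i.e. `ord f > 0` and `ord g > 0`
(on `T'`: if `ord v = ord f - ord g ≠ 0` then `ord f ≥ 2` or `ord g ≥ 2`). So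
`#supp v ≤ d h(y) + d h(z) - 2 #T' + h(y) + h(z) ≤ 2 d R - 2 τ + 2 R`
(`[ord f < 0] = [ord y < 0] ≤ max 0 (-ord y)`). Altogether
`3 κ ≥ d R - 2 (2R + 2R + 2 (2 d R - 2 τ + 2 R)) = d R - 16 R - 8 (d R - τ)`, contradiction to `h1`.
-/

namespace Pool.Agent.Lib.P62g

open WithZero

universe u w

namespace GcdAAux

section

variable {F : Type w} {L : Type u} [Field F] [Field L] [Algebra F L] {G : Geo F L}

theorem ord_nonneg_sub {y : L} (hy : y ≠ 0) {d : ℕ} (hf : y ^ d - 1 ≠ 0) (p : G.Pl)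
    (h : 0 ≤ G.ord p y) : 0 ≤ G.ord p (y ^ d - 1) := by
  rw [← Geo.v_le_one_iff hf]
  have h1 : G.v p y ≤ 1 := (Geo.v_le_one_iff hy p).2 h
  have h2 : G.v p (y ^ d) ≤ 1 := by
    rw [map_pow]
    exact pow_le_one' h1 d
  refine ((G.v p).map_sub _ _).trans ?_
  rw [map_one]
  exact max_le h2 le_rfl

theorem ord_neg_sub {y : L} (hy : y ≠ 0) {d : ℕ} (hd : 1 ≤ d) (p : G.Pl)
    (h : G.ord p y < 0) : G.ord p (y ^ d - 1) = d * G.ord p y := by
  have hyd : y ^ d ≠ 0 := pow_ne_zero d hy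
  have h1 : G.ord p (y ^ d) < 0 := by
    rw [Geo.ord_pow]
    have hd' : (0 : ℤ) < d := by exact_mod_cast hd
    exact mul_neg_of_pos_of_neg hd' h
  have h2 : (1 : ℤᵐ⁰) < G.v p (y ^ d) := by
    rw [← not_le, Geo.v_le_one_iff hyd]
    omega
  have h3 : G.v p (y ^ d - 1) = G.v p (y ^ d) := by
    refine (G.v p).map_sub_eq_of_lt_left ?_
    rw [map_one]
    exact h2
  rw [← Geo.ord_pow, Geo.ord, Geo.ord, h3]

theorem max_sub {y : L} (hy : y ≠ 0) {d : ℕ} (hd : 1 ≤ d) (hf : y ^ d - 1 ≠ 0) (p : G.Pl) :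
    max 0 (-(G.ord p (y ^ d - 1))) = d * max 0 (-(G.ord p y)) := by
  rcases lt_or_ge (G.ord p y) 0 with h | h
  · rw [ord_neg_sub hy hd p h]
    have hd' : (0 : ℤ) < d := by exact_mod_cast hd
    have h1 : (d : ℤ) * G.ord p y < 0 := mul_neg_of_pos_of_neg hd' h
    rw [max_eq_right (by omega), max_eq_right (by omega)]
    ring
  · have h1 := ord_nonneg_sub hy hf p h
    rw [max_eq_left (by omega), max_eq_left (by omega), mul_zero]

theorem h_sub {y : L} (hy : y ≠ 0) {d : ℕ} (hd : 1 ≤ d) (hf : y ^ d - 1 ≠ 0)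
    (S : Finset G.Pl) (hS : ∀ p, G.ord p y ≠ 0 → p ∈ S)
    (hS' : ∀ p, G.ord p (y ^ d - 1) ≠ 0 → p ∈ S) : G.h (y ^ d - 1) = d * G.h y := by
  rw [Geo.h_eq_sum S hS, Geo.h_eq_sum S hS', Finset.mul_sum]
  exact Finset.sum_congr rfl fun p _ => max_sub hy hd hf p

/-- the local estimate -/
theorem pointwise (a b α β w d n0 n1 n2 n3 mda t : ℤ)
    (h0 : (d * a + 0 + (α - β + d * b) + (α - β)) - d * a - 2 * (n0 + n1 + n2 + n3) ≤ w)
    (h1 : (d * a + 0 + (α - β + d * b) + (α - β)) - 0 - 2 * (n0 + n1 + n2 + n3) ≤ w)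
    (hn0 : n0 ≤ max 0 a + max 0 (-a)) (hn1 : n1 ≤ 0)
    (hn3 : n3 ≤ max 0 α + max 0 β - 2 * t + max 0 (-a) + max 0 (-b))
    (hn2 : n2 ≤ n3 + (max 0 b + max 0 (-b)))
    (hm : mda = max 0 (-(d * a))) :
    d * a + 2 * α - 2 * β + d * b + mda - 2 * (max 0 a + max 0 (-a)) -
      2 * (max 0 b + max 0 (-b)) -
      4 * (max 0 α + max 0 β - 2 * t + max 0 (-a) + max 0 (-b)) ≤ w := by
  rcases le_total 0 (-(d * a)) with h | h
  · rw [max_eq_right h] at hm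
    linarith
  · rw [max_eq_left h] at hm
    linarith

end

end GcdAAux

open GcdAAux in
theorem gcd_nonzero {F : Type w} {L : Type u} [Field F] [CharZero F] [Field L] [Algebra F L]
    (G : Geo F L) {d : ℕ} (hd : 1 ≤ d) {y z : L} (hy : y ≠ 0) (hy1 : y ∈ G.Inf)
    (hy2 : y⁻¹ ∈ G.Inf) (hz : z ≠ 0) (hz1 : z ∈ G.Inf) (hz2 : z⁻¹ ∈ G.Inf)
    (hf : y ^ d - 1 ≠ 0) (hf' : (y ^ d - 1)⁻¹ ∈ G.Inf)
    (hg : z ^ d - 1 ≠ 0) (hg' : (z ^ d - 1)⁻¹ ∈ G.Inf)
    {R τ : ℤ} (hyR : G.h y = R) (hzR : G.h z ≤ R)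
    (hτ : τ ≤ ({p | G.v p (y ^ d - 1) < 1 ∧ G.v p (z ^ d - 1) < 1}.ncard : ℤ))
    (h1 : 16 * R + 8 * (d * R - τ) + 3 * G.κ < d * R)
    (hW : w3 G.θ (y ^ d) (-1) (-((y ^ d - 1) / (z ^ d - 1) * z ^ d)) ≠ 0) : False := by
  classical
  have hd0 : (1 : ℤ) ≤ d := by exact_mod_cast hd
  have hyd : y ^ d ≠ 0 := pow_ne_zero d hy
  have hzd : z ^ d ≠ 0 := pow_ne_zero d hz
  obtain ⟨f, hfe⟩ : ∃ f, f = y ^ d - 1 := ⟨_, rfl⟩
  obtain ⟨g, hge⟩ : ∃ g, g = z ^ d - 1 := ⟨_, rfl⟩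
  have hfI : y ^ d - 1 ∈ G.Inf := G.Inf.sub_mem (G.Inf.pow_mem hy1 d) G.Inf.one_mem
  have hgI : z ^ d - 1 ∈ G.Inf := G.Inf.sub_mem (G.Inf.pow_mem hz1 d) G.Inf.one_mem
  -- the four elements
  let q : Fin 4 → L := ![y ^ d, -1, -((y ^ d - 1) / (z ^ d - 1) * z ^ d),
    (y ^ d - 1) / (z ^ d - 1)]
  have hv : (y ^ d - 1) / (z ^ d - 1) ≠ 0 := div_ne_zero hf hg
  have hvI : (y ^ d - 1) / (z ^ d - 1) ∈ G.Inf := by
    rw [div_eq_mul_inv]
    exact G.Inf.mul_mem hfI hg'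
  have hq : ∀ i, q i ≠ 0 := by
    intro i
    fin_cases i
    · exact hyd
    · exact neg_ne_zero.2 one_ne_zero
    · exact neg_ne_zero.2 (mul_ne_zero hv hzd)
    · exact hv
  have hsum : q 0 + q 1 + q 2 + q 3 = 0 := by
    show y ^ d + -1 + -((y ^ d - 1) / (z ^ d - 1) * z ^ d) + (y ^ d - 1) / (z ^ d - 1) = 0
    field_simp
    ring
  have hW' : w3 G.θ (q 0) (q 1) (q 2) ≠ 0 := hW
  have htotW : G.tot (w3 G.θ (q 0) (q 1) (q 2)) ≤ 3 * G.κ :=
    w3_tot G (G.Inf.pow_mem hy1 d) (G.Inf.neg_mem G.Inf.one_mem)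
      (G.Inf.neg_mem (G.Inf.mul_mem hvI (G.Inf.pow_mem hz1 d))) hW'
  -- the set of places
  obtain ⟨S, hSy, hSz, hSf, hSg, hSW⟩ : ∃ S : Finset G.Pl, (∀ p, G.ord p y ≠ 0 → p ∈ S) ∧
      (∀ p, G.ord p z ≠ 0 → p ∈ S) ∧ (∀ p, G.ord p (y ^ d - 1) ≠ 0 → p ∈ S) ∧
      (∀ p, G.ord p (z ^ d - 1) ≠ 0 → p ∈ S) ∧
      (∀ p, G.ord p (w3 G.θ (q 0) (q 1) (q 2)) ≠ 0 → p ∈ S) := by
    refine ⟨(Geo.ord_fin y).toFinset ∪ (Geo.ord_fin z).toFinset ∪
      (Geo.ord_fin (y ^ d - 1)).toFinset ∪ (Geo.ord_fin (z ^ d - 1)).toFinset ∪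
      (Geo.ord_fin (w3 G.θ (q 0) (q 1) (q 2))).toFinset, ?_, ?_, ?_, ?_, ?_⟩ <;>
    · intro p hp
      simp only [Finset.mem_union, Set.Finite.mem_toFinset, Set.mem_ofPred_eq]
      tauto
  have hty := Geo.tot_unit hy hy1 hy2
  have htz := Geo.tot_unit hz hz1 hz2
  have htf := Geo.tot_unit hf hfI hf'
  have htg := Geo.tot_unit hg hgI hg'
  rw [Geo.tot_eq_sum S hSy] at hty
  rw [Geo.tot_eq_sum S hSz] at htz
  rw [Geo.tot_eq_sum S hSf] at htf
  rw [Geo.tot_eq_sum S hSg] at htg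
  rw [Geo.tot_eq_sum S hSW] at htotW
  have hhf := h_sub hy hd hf S hSy hSf
  have hhg := h_sub hz hd hg S hSz hSg
  rw [Geo.h_eq_zeros hf hfI hf' S hSf] at hhf
  rw [Geo.h_eq_zeros hg hgI hg' S hSg] at hhg
  have hy3 := Geo.h_eq_zeros hy hy1 hy2 S hSy
  have hz3 := Geo.h_eq_zeros hz hz1 hz2 S hSz
  have hy4 := Geo.h_eq_sum (G := G) (x := y) S hSy
  have hz4 := Geo.h_eq_sum (G := G) (x := z) S hSz
  have hmda : ∑ p ∈ S, max 0 (-((d : ℤ) * G.ord p y)) = d * G.h y := by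
    rw [hy4, Finset.mul_sum]
    refine Finset.sum_congr rfl fun p _ => ?_
    rcases le_total 0 (-(G.ord p y)) with h | h
    · rw [max_eq_right h, max_eq_right]
      · ring
      · have := mul_nonneg (le_trans zero_le_one hd0) h
        linarith
    · rw [max_eq_left h, max_eq_left, mul_zero]
      have := mul_nonpos_of_nonneg_of_nonpos (le_trans zero_le_one hd0) h
      linarith
  have hT : τ ≤ ∑ p ∈ S, (if 0 < G.ord p (y ^ d - 1) ∧ 0 < G.ord p (z ^ d - 1)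
      then (1 : ℤ) else 0) := by
    refine hτ.trans ?_
    have h2 : {p | G.v p (y ^ d - 1) < 1 ∧ G.v p (z ^ d - 1) < 1} =
        ((S.filter (fun p => 0 < G.ord p (y ^ d - 1) ∧ 0 < G.ord p (z ^ d - 1)) :
          Finset G.Pl) : Set G.Pl) := by
      ext p
      rw [Finset.mem_coe, Finset.mem_filter, Set.mem_ofPred_eq, Geo.v_lt_one_iff hf,
        Geo.v_lt_one_iff hg]
      exact ⟨fun h => ⟨hSf p h.1.ne', h⟩, fun h => h.2⟩
    rw [h2, Set.ncard_coe_finset, Finset.card_filter]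
    push_cast
    exact le_rfl
  have hpt : ∀ p ∈ S, (d : ℤ) * G.ord p y + 2 * G.ord p (y ^ d - 1) -
      2 * G.ord p (z ^ d - 1) + d * G.ord p z + max 0 (-((d : ℤ) * G.ord p y)) -
      2 * (max 0 (G.ord p y) + max 0 (-(G.ord p y))) -
      2 * (max 0 (G.ord p z) + max 0 (-(G.ord p z))) -
      4 * (max 0 (G.ord p (y ^ d - 1)) + max 0 (G.ord p (z ^ d - 1)) -
        2 * (if 0 < G.ord p (y ^ d - 1) ∧ 0 < G.ord p (z ^ d - 1) then (1 : ℤ) else 0) +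
        max 0 (-(G.ord p y)) + max 0 (-(G.ord p z))) ≤
      G.ord p (w3 G.θ (q 0) (q 1) (q 2)) := by
    intro p _
    have e0 : G.ord p (q 0) = d * G.ord p y := Geo.ord_pow y d p
    have e1 : G.ord p (q 1) = 0 := by
      show G.ord p (-1 : L) = 0
      rw [Geo.ord_neg, Geo.ord_one]
    have e3 : G.ord p (q 3) = G.ord p (y ^ d - 1) - G.ord p (z ^ d - 1) := by
      show G.ord p ((y ^ d - 1) / (z ^ d - 1)) = _
      rw [div_eq_mul_inv, Geo.ord_mul hf (inv_ne_zero hg), Geo.ord_inv]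
      ring
    have e2 : G.ord p (q 2) = G.ord p (y ^ d - 1) - G.ord p (z ^ d - 1) + d * G.ord p z := by
      show G.ord p (-((y ^ d - 1) / (z ^ d - 1) * z ^ d)) = _
      rw [Geo.ord_neg, Geo.ord_mul hv hzd, Geo.ord_pow]
      have e3' : G.ord p ((y ^ d - 1) / (z ^ d - 1)) =
        G.ord p (y ^ d - 1) - G.ord p (z ^ d - 1) := e3
      rw [e3']
    have k0 := w3_ord G q hq hsum hW' p 0
    have k1 := w3_ord G q hq hsum hW' p 1
    rw [Fin.sum_univ_four, Fin.sum_univ_four] at k0 k1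
    rw [e0, e1, e2, e3] at k0 k1
    have f1 := ord_nonneg_sub (G := G) hy hf p
    have f2 := ord_nonneg_sub (G := G) hz hg p
    refine pointwise _ _ _ _ _ _ _ _ _ _ _ _ k0 k1 ?_ ?_ ?_ ?_ rfl
    · split_ifs with h
      · positivity
      · have h2 : G.ord p y ≠ 0 := by
          intro h3
          apply h
          rw [h3, mul_zero]
        rcases lt_or_gt_of_ne h2 with h3 | h3
        · rw [max_eq_left h3.le, max_eq_right (by omega)]
          omega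
        · rw [max_eq_right h3.le, max_eq_left (by omega)]
          omega
    · rw [if_pos rfl]
    · generalize G.ord p (y ^ d - 1) = α at *
      generalize G.ord p (z ^ d - 1) = β at *
      generalize G.ord p y = a at *
      generalize G.ord p z = b at *
      rcases max_cases 0 α with ⟨m1, m1'⟩ | ⟨m1, m1'⟩ <;>
      rcases max_cases 0 β with ⟨m2, m2'⟩ | ⟨m2, m2'⟩ <;>
      rcases max_cases 0 (-a) with ⟨m3, m3'⟩ | ⟨m3, m3'⟩ <;>
      rcases max_cases 0 (-b) with ⟨m4, m4'⟩ | ⟨m4, m4'⟩ <;>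
      rw [m1, m2, m3, m4] <;> split_ifs <;> omega
    · generalize G.ord p (y ^ d - 1) = α at *
      generalize G.ord p (z ^ d - 1) = β at *
      have hb : G.ord p z = 0 ∨ 1 ≤ max 0 (G.ord p z) + max 0 (-(G.ord p z)) := by
        rcases max_cases 0 (G.ord p z) with ⟨m1, m1'⟩ | ⟨m1, m1'⟩ <;>
        rcases max_cases 0 (-(G.ord p z)) with ⟨m2, m2'⟩ | ⟨m2, m2'⟩ <;>
        rw [m1, m2] <;> omega
      have hb0 : 0 ≤ max 0 (G.ord p z) + max 0 (-(G.ord p z)) :=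
        add_nonneg (le_max_left _ _) (le_max_left _ _)
      rcases hb with hb | hb
      · rw [hb, mul_zero, add_zero] 
        rw [hb] at hb0
        split_ifs <;> omega
      · split_ifs <;> omega
  have hfin := Finset.sum_le_sum hpt
  simp only [Finset.sum_sub_distrib, Finset.sum_add_distrib, ← Finset.mul_sum] at hfin
  rw [hty, htz, htf, htg, hmda, hhf, hhg, ← hy3, ← hz3, ← hy4, ← hz4, hyR] at hfin
  have hdz : (d : ℤ) * G.h z ≤ d * R := mul_le_mul_of_nonneg_left hzR (by omega)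
  linarith

end Pool.Agent.Lib.P62g
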