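import Pool.Agent.Lib.P62a0c3.Scale

/-!
# Abstract function-field structure used by the dynamical argument

`Geo F L` collects what is needed about a function field `L` over an algebraically closed constant
field `F`: finite places (discrete valuations), a derivation, a subring `Inf` of elements which are
integral at infinity, and the element `U` measuring the growth of the derivation at infinity.
-/

namespace Pool.Agent.Lib.P62g

open WithZero

universe u w

/-- The abstract structure. -/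
structure Geo (F : Type w) (L : Type u) [Field F] [Field L] [Algebra F L] where
  /-- finite places -/
  Pl : Type u
  /-- valuations -/
  v : Pl → Valuation L ℤᵐ⁰
  /-- the derivation -/
  θ : Derivation F L L
  /-- elements integral at infinity -/
  Inf : Subring L
  /-- growth element -/
  U : L
  /-- growth constant -/
  κ : ℕ
  v_const : ∀ p (c : F), c ≠ 0 → v p (algebraMap F L c) = 1
  v_fin : ∀ x : L, x ≠ 0 → {p | v p x ≠ 1}.Finite
  θ_ker : ∀ x, θ x = 0 → ∃ c : F, x = algebraMap F L c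
  θ_v : ∀ p x, v p (θ x) ≤ exp (1 : ℤ) * v p x
  θ_int : ∀ p x, v p x ≤ 1 → v p (θ x) ≤ 1
  Inf_const : ∀ c : F, algebraMap F L c ∈ Inf
  Inf_θ : ∀ x ∈ Inf, ∃ y ∈ Inf, θ x = U * y
  Inf_U : ∃ y ∈ Inf, θ U = U * U * y
  U_ne : U ≠ 0
  tot_Inf : ∀ x ∈ Inf, x ≠ 0 → ∑ᶠ p, -(log (v p x)) ≤ 0
  tot_U : ∑ᶠ p, -(log (v p U)) ≤ κ
  const_of : ∀ x ∈ Inf, (∀ p, v p x ≤ 1) → ∃ c : F, x = algebraMap F L c

namespace Geo

variable {F : Type w} {L : Type u} [Field F] [Field L] [Algebra F L] (G : Geo F L)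

/-- The order of `x` at the place `p` (`0` for `x = 0`). -/
noncomputable def ord (p : G.Pl) (x : L) : ℤ := -(log (G.v p x))

/-- The total order. -/
noncomputable def tot (x : L) : ℤ := ∑ᶠ p, G.ord p x

/-- The height: number of (finite) poles with multiplicity. -/
noncomputable def h (x : L) : ℤ := ∑ᶠ p, max 0 (-(G.ord p x))

variable {G}

theorem v_ne_zero {x : L} (hx : x ≠ 0) (p : G.Pl) : G.v p x ≠ 0 := (Valuation.ne_zero_iff _).2 hx

theorem v_eq {x : L} (hx : x ≠ 0) (p : G.Pl) : G.v p x = exp (-(G.ord p x)) := by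
  rw [ord, neg_neg, exp_log (v_ne_zero hx p)]

theorem ord_mul {x y : L} (hx : x ≠ 0) (hy : y ≠ 0) (p : G.Pl) :
    G.ord p (x * y) = G.ord p x + G.ord p y := by
  rw [ord, ord, ord, map_mul, log_mul (v_ne_zero hx p) (v_ne_zero hy p)]
  ring

theorem ord_one (p : G.Pl) : G.ord p (1 : L) = 0 := by
  rw [ord, map_one, log_one, neg_zero]

theorem ord_neg (x : L) (p : G.Pl) : G.ord p (-x) = G.ord p x := by
  rw [ord, ord, Valuation.map_neg]

theorem ord_inv (x : L) (p : G.Pl) : G.ord p x⁻¹ = -(G.ord p x) := by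
  rw [ord, ord, map_inv₀, log_inv]

theorem ord_pow (x : L) (n : ℕ) (p : G.Pl) : G.ord p (x ^ n) = n * G.ord p x := by
  rw [ord, ord, map_pow, log_pow]
  simp

theorem ord_const {c : F} (hc : c ≠ 0) (p : G.Pl) : G.ord p (algebraMap F L c) = 0 := by
  rw [ord, G.v_const p c hc, log_one, neg_zero]

theorem ord_zero (p : G.Pl) : G.ord p (0 : L) = 0 := by
  rw [ord, map_zero, log_zero, neg_zero]

theorem ord_fin (x : L) : {p | G.ord p x ≠ 0}.Finite := by
  rcases eq_or_ne x 0 with rfl | hx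
  · simp [ord_zero]
  · refine (G.v_fin x hx).subset ?_
    intro p hp h
    apply hp
    rw [ord, h, log_one, neg_zero]

theorem v_lt_one_iff {x : L} (hx : x ≠ 0) (p : G.Pl) : G.v p x < 1 ↔ 0 < G.ord p x := by
  rw [v_eq hx, ← exp_zero, exp_lt_exp]
  omega

theorem v_le_one_iff {x : L} (hx : x ≠ 0) (p : G.Pl) : G.v p x ≤ 1 ↔ 0 ≤ G.ord p x := by
  rw [v_eq hx, ← exp_zero, exp_le_exp]
  omega

theorem v_eq_one_iff {x : L} (hx : x ≠ 0) (p : G.Pl) : G.v p x = 1 ↔ G.ord p x = 0 := by
  rw [v_eq hx, ← exp_zero, exp_inj]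
  omega

theorem tot_mul {x y : L} (hx : x ≠ 0) (hy : y ≠ 0) : G.tot (x * y) = G.tot x + G.tot y := by
  rw [tot, tot, tot, ← finsum_add_distrib (ord_fin x) (ord_fin y)]
  exact finsum_congr fun p => ord_mul hx hy p

theorem tot_one : G.tot (1 : L) = 0 := by
  rw [tot]
  simp [ord_one]

theorem tot_inv {x : L} (hx : x ≠ 0) : G.tot x⁻¹ = -(G.tot x) := by
  have h1 := tot_mul (G := G) hx (inv_ne_zero hx)
  rw [mul_inv_cancel₀ hx, tot_one] at h1
  omega

theorem tot_pow {x : L} (hx : x ≠ 0) (n : ℕ) : G.tot (x ^ n) = n * G.tot x := by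
  induction n with
  | zero => rw [pow_zero, tot_one]; simp
  | succ n ih =>
    rw [pow_succ, tot_mul (pow_ne_zero n hx) hx, ih]
    push_cast
    ring

theorem tot_nonpos {x : L} (hx : x ≠ 0) (h : x ∈ G.Inf) : G.tot x ≤ 0 := G.tot_Inf x h hx

/-- Units at infinity have total order zero. -/
theorem tot_unit {x : L} (hx : x ≠ 0) (h : x ∈ G.Inf) (h' : x⁻¹ ∈ G.Inf) : G.tot x = 0 := by
  have h1 := tot_nonpos hx h
  have h2 := tot_nonpos (inv_ne_zero hx) h'
  rw [tot_inv hx] at h2
  omega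

/-- Sum over a finite set containing the support. -/
theorem tot_eq_sum {x : L} (S : Finset G.Pl) (hS : ∀ p, G.ord p x ≠ 0 → p ∈ S) :
    G.tot x = ∑ p ∈ S, G.ord p x := by
  rw [tot]
  exact finsum_eq_sum_of_support_subset _ fun p hp => hS p hp

theorem h_eq_sum {x : L} (S : Finset G.Pl) (hS : ∀ p, G.ord p x ≠ 0 → p ∈ S) :
    G.h x = ∑ p ∈ S, max 0 (-(G.ord p x)) := by
  rw [h]
  refine finsum_eq_sum_of_support_subset _ fun p hp => hS p ?_
  intro h0
  apply hp
  change max 0 (-(G.ord p x)) = 0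
  rw [h0]
  simp

theorem h_nonneg (x : L) : 0 ≤ G.h x := by
  rw [h]
  exact finsum_nonneg fun p => le_max_left _ _

/-- For units at infinity the height also counts the zeros. -/
theorem h_eq_zeros {x : L} (hx : x ≠ 0) (h1 : x ∈ G.Inf) (h2 : x⁻¹ ∈ G.Inf) (S : Finset G.Pl)
    (hS : ∀ p, G.ord p x ≠ 0 → p ∈ S) : G.h x = ∑ p ∈ S, max 0 (G.ord p x) := by
  have h3 := tot_unit hx h1 h2
  rw [tot_eq_sum S hS] at h3
  rw [h_eq_sum S hS]
  have h4 : ∑ p ∈ S, max 0 (G.ord p x) - ∑ p ∈ S, max 0 (-(G.ord p x)) = ∑ p ∈ S, G.ord p x := by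
    rw [← Finset.sum_sub_distrib]
    refine Finset.sum_congr rfl fun p _ => ?_
    rcases le_total 0 (G.ord p x) with h | h
    · rw [max_eq_right h, max_eq_left (by omega)]; ring
    · rw [max_eq_left h, max_eq_right (by omega)]; ring
  omega

/-- Nonconstant elements which are integral at infinity have positive height. -/
theorem const_of_h_eq_zero {x : L} (h1 : x ∈ G.Inf) (h0 : G.h x = 0) :
    ∃ c : F, x = algebraMap F L c := by
  apply G.const_of x h1
  intro p
  rcases eq_or_ne x 0 with rfl | hx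
  · rw [map_zero]; exact zero_le
  rw [v_le_one_iff hx]
  classical
  have h2 := h_eq_sum (G := G) (x := x) (ord_fin x).toFinset (fun p hp => by simpa using hp)
  rw [h0] at h2
  have h3 := (Finset.sum_eq_zero_iff_of_nonneg (fun p _ => le_max_left 0 (-(G.ord p x)))).1 h2.symm
  by_cases hp : G.ord p x = 0
  · omega
  · have := h3 p (by simpa using hp)
    have h4 := le_max_right 0 (-(G.ord p x))
    omega

end Geo

end Pool.Agent.Lib.P62g
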