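import Pool.Agent.Lib.P62g.Base

/-!
# Module P62g.InfRing: elements integral at infinity

Let `R` be the subring `{r | intDegree r ≤ 0}` of `F(X)` (a valuation ring: it is
`(RatFunc.inftyValuation F).valuationSubring`). `InfInt φ x` says that `x` is integral over
`R` acting through `φ` (`φ` restricted to `R`; a polynomial over `RatFunc F` with coefficients in
`R` lifts to `R[X]`), so sums and products are integral (`IsIntegral.add`, `RingHom.IsIntegralElem`
versions with `Polynomial.eval₂`). `R` is integrally closed in `F(X)`. For `infInt_norm`: the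
conjugates of `x` are integral over `R`, so is the norm, which lies in `F(X)`
(`Algebra.isIntegral_norm`), and `R` is integrally closed. For `infInt_const`: the minimal
polynomial of `x` over `F(X)` has coefficients in `F[X]` (integrality over `F[X]`,
`minpoly.isIntegrallyClosed_eq_field_fractions`) and in `R`; `F[X] ∩ R = F` (a polynomial of
`intDegree ≤ 0` is constant), so `x` is algebraic over `F`, hence in `F`.
-/

namespace Pool.Agent.Lib.P62g

open Polynomial

namespace InfRingAux

open Classical in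
/-- The valuation ring at infinity of `F(X)`. -/
noncomputable abbrev Rinf (F : Type*) [Field F] : ValuationSubring (RatFunc F) :=
  (RatFunc.inftyValuation F).valuationSubring

theorem mem_Rinf {F : Type*} [Field F] (r : RatFunc F) : r ∈ Rinf F ↔ r.intDegree ≤ 0 := by
  classical
  rw [Valuation.mem_valuationSubring_iff, RatFunc.inftyValuation_apply]
  by_cases h : r = 0
  · subst h
    rw [RatFunc.InftyValuation.map_zero', RatFunc.intDegree_zero]
    simp
  · rw [RatFunc.inftyValuation_of_nonzero F h]
    rw [← WithZero.exp_zero, WithZero.exp_le_exp]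

theorem infInt_iff {F L : Type*} [Field F] [Field L] (φ : RatFunc F →+* L) (x : L) :
    InfInt φ x ↔ (φ.comp (algebraMap (Rinf F) (RatFunc F))).IsIntegralElem x := by
  constructor
  · rintro ⟨q, hq, hc, h0⟩
    have hl : q ∈ Polynomial.lifts (algebraMap (Rinf F) (RatFunc F)) := by
      rw [Polynomial.lifts_iff_coeff_lifts]
      intro i
      exact ⟨⟨q.coeff i, (mem_Rinf _).2 (hc i)⟩, rfl⟩
    obtain ⟨p, hp, -, hm⟩ := Polynomial.lifts_and_natDegree_eq_and_monic hl hq
    refine ⟨p, hm, ?_⟩
    rw [← Polynomial.eval₂_map, hp, h0]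
  · rintro ⟨p, hm, h0⟩
    refine ⟨p.map (algebraMap (Rinf F) (RatFunc F)), hm.map _, fun i => ?_, ?_⟩
    · rw [Polynomial.coeff_map]
      exact (mem_Rinf _).1 (p.coeff i).2
    · rw [Polynomial.eval₂_map, h0]

end InfRingAux

open InfRingAux

section ring

variable {F L : Type*} [Field F] [Field L] (φ : RatFunc F →+* L)

theorem infInt_base {r : RatFunc F} (hr : r.intDegree ≤ 0) : InfInt φ (φ r) := by
  rw [infInt_iff]
  exact RingHom.isIntegralElem_map (φ.comp (algebraMap (Rinf F) (RatFunc F)))
    (x := (⟨r, (mem_Rinf r).2 hr⟩ : Rinf F))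

theorem infInt_add {x y : L} (hx : InfInt φ x) (hy : InfInt φ y) : InfInt φ (x + y) := by
  rw [infInt_iff] at *
  exact RingHom.IsIntegralElem.add _ hx hy

theorem infInt_mul {x y : L} (hx : InfInt φ x) (hy : InfInt φ y) : InfInt φ (x * y) := by
  rw [infInt_iff] at *
  exact RingHom.IsIntegralElem.mul _ hx hy

theorem infInt_neg {x : L} (hx : InfInt φ x) : InfInt φ (-x) := by
  rw [infInt_iff] at *
  exact RingHom.IsIntegralElem.neg _ hx

/-- `R` is integrally closed. -/
theorem infInt_base_iff {r : RatFunc F} : InfInt φ (φ r) ↔ r.intDegree ≤ 0 := by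
  refine ⟨fun h => ?_, infInt_base φ⟩
  rw [infInt_iff] at h
  obtain ⟨p, hm, h0⟩ := h
  have h1 : IsIntegral (Rinf F) r := by
    refine ⟨p, hm, ?_⟩
    apply φ.injective
    rw [Polynomial.hom_eval₂, map_zero, h0]
  obtain ⟨y, hy⟩ := IsIntegrallyClosed.isIntegral_iff.1 h1
  rw [← hy]
  exact (mem_Rinf _).1 y.2

end ring

section norm

variable {F L : Type*} [Field F] [IsAlgClosed F] [CharZero F] [Field L] [Algebra F[X] L]
  [Algebra (RatFunc F) L] [IsScalarTower F[X] (RatFunc F) L] [FiniteDimensional (RatFunc F) L]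

omit [IsAlgClosed F] [Algebra F[X] L] [IsScalarTower F[X] (RatFunc F) L] in
theorem infInt_norm {x : L} (hx : InfInt (algebraMap (RatFunc F) L) x) :
    (Algebra.norm (RatFunc F) x).intDegree ≤ 0 := by
  rw [infInt_iff] at hx
  letI : Algebra (Rinf F) L := ((algebraMap (RatFunc F) L).comp
    (algebraMap (Rinf F) (RatFunc F))).toAlgebra
  haveI : IsScalarTower (Rinf F) (RatFunc F) L := IsScalarTower.of_algebraMap_eq (fun _ => rfl)
  have h1 : IsIntegral (Rinf F) x := hx
  have h2 := Algebra.isIntegral_norm (RatFunc F) h1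
  obtain ⟨y, hy⟩ := IsIntegrallyClosed.isIntegral_iff.1 h2
  rw [← hy]
  exact (mem_Rinf _).1 y.2

theorem infInt_const {x : L} (hx : InfInt (algebraMap (RatFunc F) L) x)
    (hx' : x ∈ integralClosure F[X] L) :
    ∃ c : F, x = algebraMap (RatFunc F) L (RatFunc.C c) := by
  rw [infInt_iff] at hx
  letI : Algebra (Rinf F) L := ((algebraMap (RatFunc F) L).comp
    (algebraMap (Rinf F) (RatFunc F))).toAlgebra
  haveI : IsScalarTower (Rinf F) (RatFunc F) L := IsScalarTower.of_algebraMap_eq (fun _ => rfl)
  have h1 : IsIntegral (Rinf F) x := hx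
  have h2 : IsIntegral F[X] x := hx'
  have e1 := minpoly.isIntegrallyClosed_eq_field_fractions' (RatFunc F) h1
  have e2 := minpoly.isIntegrallyClosed_eq_field_fractions' (RatFunc F) h2
  set m := minpoly (RatFunc F) x with hm
  -- each coefficient is a constant
  have hc : ∀ i, ∃ c : F, m.coeff i = RatFunc.C c := by
    intro i
    have a1 : (m.coeff i).intDegree ≤ 0 := by
      rw [e1, Polynomial.coeff_map]
      exact (mem_Rinf _).1 ((minpoly (Rinf F) x).coeff i).2
    have a2 : m.coeff i = algebraMap F[X] (RatFunc F) ((minpoly F[X] x).coeff i) := by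
      rw [e2, Polynomial.coeff_map]
    rw [a2, RatFunc.intDegree_polynomial] at a1
    have a3 : ((minpoly F[X] x).coeff i).natDegree = 0 := by omega
    rw [Polynomial.eq_C_of_natDegree_eq_zero a3, RatFunc.algebraMap_C] at a2
    exact ⟨_, a2⟩
  have hl : m ∈ Polynomial.lifts (RatFunc.C : F →+* RatFunc F) := by
    rw [Polynomial.lifts_iff_coeff_lifts]
    intro i
    obtain ⟨c, hc⟩ := hc i
    exact ⟨c, hc.symm⟩
  have hmm : m.Monic := minpoly.monic (IsIntegral.tower_top h2)
  obtain ⟨q, hq, -, hqm⟩ := Polynomial.lifts_and_natDegree_eq_and_monic hl hmm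
  have h0 : Polynomial.aeval x m = 0 := minpoly.aeval _ _
  rw [← hq, Polynomial.aeval_def, Polynomial.eval₂_map] at h0
  have hs := IsAlgClosed.splits q
  have hs2 := hs.eq_prod_roots
  rw [hqm.leadingCoeff] at hs2
  rw [hs2, Polynomial.eval₂_mul, Polynomial.eval₂_C, map_one, one_mul,
    Polynomial.eval₂_multiset_prod, Multiset.prod_eq_zero_iff] at h0
  rw [Multiset.mem_map] at h0
  obtain ⟨p, hp, hp0⟩ := h0
  rw [Multiset.mem_map] at hp
  obtain ⟨a, -, rfl⟩ := hp
  refine ⟨a, ?_⟩
  rw [Polynomial.eval₂_sub, Polynomial.eval₂_X, Polynomial.eval₂_C, sub_eq_zero] at hp0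
  rw [hp0]
  rfl

end norm

end Pool.Agent.Lib.P62g
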