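import Pool.Agent.Lib.P62g.Geo

/-!
# Module P62g.MasonL: Mason-Stothers type inequality in a `Geo`

Let `s = y ^ d - c`, `a = ord_p y`, `b = ord_p s`, `t = ord_p (θ y)`. For every place `p`
  `t ≥ a - [a ≠ 0] + max 0 b - [b > 0]`:
* `a > 0`: `v(s) = v(c) = 1` (`v(y^d) < 1`), so `b = 0`; `t ≥ a - 1` by `θ_v` (`ord(θ y) ≥ ord y - 1`);
* `a < 0`: `v(y ^ d) > 1 = v(c)`, so `b = d a < 0`; `t ≥ a - 1` by `θ_v`;
* `a = 0`: `v(s) ≤ 1`. If `b = 0`: `t ≥ 0` by `θ_int`. If `b > 0`: `θ s = d y ^ (d-1) θ y`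
  (`Derivation.leibniz_pow`, `θ c = 0`), `ord (θ s) = ord (θ y)` (`a = 0`, `d` is a nonzero
  constant), and `ord (θ s) ≥ b - 1` by `θ_v`.
Sum over a finite set of places containing all supports: `Σ t = tot (θ y) ≤ κ`
(`θ y = U y'` with `y' ∈ Inf`, `y' ≠ 0`: `tot_mul`, `tot_U`, `tot_nonpos`), `Σ a = tot y = 0`
(`tot_unit`), `Σ [a ≠ 0] ≤ Σ max 0 a + Σ max 0 (-a) = 2 h y` (`h_eq_zeros`, `h_eq_sum`),
`Σ max 0 b = h s` (`h_eq_zeros` for `s`; `s ∈ Inf`), `h s = Σ max 0 (-b) = d h y`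
(`-b = -d a` if `a < 0`, and `max 0 (-b) = 0` otherwise), and `Σ [b > 0]` is the cardinality of
`{p | v_p s < 1}` (`v_lt_one_iff`).
-/

namespace Pool.Agent.Lib.P62g

open WithZero

universe u w

namespace Geo

variable {F : Type w} {L : Type u} [Field F] [Field L] [Algebra F L] {G : Geo F L}

theorem ord_θ_ge {x : L} (hx : x ≠ 0) (hθ : G.θ x ≠ 0) (p : G.Pl) :
    G.ord p x - 1 ≤ G.ord p (G.θ x) := by
  have h := G.θ_v p x
  rw [v_eq hx, v_eq hθ, ← exp_add, exp_le_exp] at h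
  omega

theorem ord_θ_nonneg {x : L} (hx : x ≠ 0) (hθ : G.θ x ≠ 0) (p : G.Pl) (h : 0 ≤ G.ord p x) :
    0 ≤ G.ord p (G.θ x) :=
  (v_le_one_iff hθ p).1 (G.θ_int p x ((v_le_one_iff hx p).2 h))

variable [CharZero F]

theorem ord_θ_pow_sub {d : ℕ} (hd : 1 ≤ d) {y : L} (hy : y ≠ 0) (hθ : G.θ y ≠ 0) (c : F) :
    G.θ (y ^ d - algebraMap F L c) ≠ 0 ∧
      ∀ p, G.ord p (G.θ (y ^ d - algebraMap F L c)) =
        ((d - 1 : ℕ) : ℤ) * G.ord p y + G.ord p (G.θ y) := by
  have hd0 : (d : F) ≠ 0 := by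
    have : d ≠ 0 := by omega
    exact_mod_cast this
  have hdL : algebraMap F L (d : F) ≠ 0 := by
    intro h
    apply hd0
    exact (algebraMap F L).injective (by rw [h, map_zero])
  have h1 : G.θ (y ^ d - algebraMap F L c) = algebraMap F L (d : F) * (y ^ (d - 1) * G.θ y) := by
    rw [map_sub, Derivation.leibniz_pow, Derivation.map_algebraMap, sub_zero, map_natCast,
      nsmul_eq_mul, smul_eq_mul]
  have h2 : y ^ (d - 1) ≠ 0 := pow_ne_zero _ hy
  have h3 : y ^ (d - 1) * G.θ y ≠ 0 := mul_ne_zero h2 hθ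
  refine ⟨by rw [h1]; exact mul_ne_zero hdL h3, fun p => ?_⟩
  rw [h1, ord_mul hdL h3, ord_mul h2 hθ, ord_const hd0, ord_pow]
  ring

omit [CharZero F] in
theorem ord_pow_sub_of_pos {d : ℕ} (hd : 1 ≤ d) {y : L} (hy : y ≠ 0) {c : F} (hc : c ≠ 0)
    (hs : y ^ d - algebraMap F L c ≠ 0) {p : G.Pl} (ha : 0 < G.ord p y) :
    G.ord p (y ^ d - algebraMap F L c) = 0 := by
  rw [← v_eq_one_iff hs]
  have h1 : G.v p (y ^ d) < G.v p (algebraMap F L c) := by
    rw [G.v_const p c hc, v_lt_one_iff (pow_ne_zero d hy), ord_pow]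
    have : (0 : ℤ) < d := by exact_mod_cast hd
    exact mul_pos this ha
  rw [Valuation.map_sub_eq_of_lt_right _ h1, G.v_const p c hc]

omit [CharZero F] in
theorem ord_pow_sub_of_neg {d : ℕ} (hd : 1 ≤ d) {y : L} (hy : y ≠ 0) {c : F} (hc : c ≠ 0)
    {p : G.Pl} (ha : G.ord p y < 0) :
    G.ord p (y ^ d - algebraMap F L c) = d * G.ord p y := by
  have h1 : G.v p (algebraMap F L c) < G.v p (y ^ d) := by
    rw [G.v_const p c hc, v_eq (pow_ne_zero d hy), ord_pow, ← exp_zero, exp_lt_exp]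
    have : (0 : ℤ) < d := by exact_mod_cast hd
    have := mul_neg_of_pos_of_neg this ha
    omega
  rw [ord, Valuation.map_sub_eq_of_lt_left _ h1, ← ord, ord_pow]

omit [CharZero F] in
theorem ord_pow_sub_nonneg {d : ℕ} {y : L} (hy : y ≠ 0) {c : F} (hc : c ≠ 0)
    (hs : y ^ d - algebraMap F L c ≠ 0) {p : G.Pl} (ha : 0 ≤ G.ord p y) :
    0 ≤ G.ord p (y ^ d - algebraMap F L c) := by
  rw [← v_le_one_iff hs]
  refine (Valuation.map_sub _ _ _).trans (max_le ?_ ?_)
  · rw [v_le_one_iff (pow_ne_zero d hy), ord_pow]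
    positivity
  · rw [G.v_const p c hc]

end Geo

open Geo in
theorem mason {F : Type w} {L : Type u} [Field F] [CharZero F] [Field L] [Algebra F L]
    (G : Geo F L) {d : ℕ} (hd : 1 ≤ d) {y : L} (hy : y ≠ 0) (hy1 : y ∈ G.Inf) (hy2 : y⁻¹ ∈ G.Inf)
    (hθ : G.θ y ≠ 0) {c : F} (hc : c ≠ 0) (hs : y ^ d - algebraMap F L c ≠ 0)
    (hs' : (y ^ d - algebraMap F L c)⁻¹ ∈ G.Inf) :
    (d : ℤ) * G.h y ≤
      2 * G.h y + G.κ + ({p | G.v p (y ^ d - algebraMap F L c) < 1}.ncard : ℤ) := by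
  classical
  have hsI : y ^ d - algebraMap F L c ∈ G.Inf := sub_mem (pow_mem hy1 d) (G.Inf_const c)
  obtain ⟨hθs, hθs'⟩ := ord_θ_pow_sub (G := G) hd hy hθ c
  have hpos := fun p => ord_pow_sub_of_pos (G := G) (p := p) hd hy hc hs
  have hneg := fun p => ord_pow_sub_of_neg (G := G) (p := p) hd hy hc
  have hnn := fun p => ord_pow_sub_nonneg (G := G) (p := p) hy hc hs
  have hθ1' : ∀ p, G.ord p (y ^ d - algebraMap F L c) - 1 ≤
      G.ord p (G.θ (y ^ d - algebraMap F L c)) := fun p => ord_θ_ge (G := G) hs hθs p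
  generalize hsd : y ^ d - algebraMap F L c = s at *
  let S : Finset G.Pl := (ord_fin (G := G) y).toFinset ∪ (ord_fin (G := G) s).toFinset ∪
    (ord_fin (G := G) (G.θ y)).toFinset
  have hSy : ∀ p, G.ord p y ≠ 0 → p ∈ S := fun p hp => by
    simp only [S, Finset.mem_union, Set.Finite.mem_toFinset, Set.mem_ofPred_eq]; tauto
  have hSs : ∀ p, G.ord p s ≠ 0 → p ∈ S := fun p hp => by
    simp only [S, Finset.mem_union, Set.Finite.mem_toFinset, Set.mem_ofPred_eq]; tauto
  have hSθ : ∀ p, G.ord p (G.θ y) ≠ 0 → p ∈ S := fun p hp => by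
    simp only [S, Finset.mem_union, Set.Finite.mem_toFinset, Set.mem_ofPred_eq]; tauto
  -- local inequality
  have key : ∀ p, G.ord p y + max 0 (G.ord p s) ≤
      G.ord p (G.θ y) + (max 0 (G.ord p y) + max 0 (-(G.ord p y))) +
        (if 0 < G.ord p s then (1 : ℤ) else 0) := by
    intro p
    have h1 := ord_θ_ge hy hθ p
    have h2 := ord_θ_nonneg hy hθ p
    have h3 := hθ1' p
    rw [hθs' p] at h3
    rcases lt_trichotomy (G.ord p y) 0 with ha | ha | ha
    · have hb := hneg p ha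
      have hb' : G.ord p s < 0 := by
        rw [hb]
        have : (0 : ℤ) < d := by exact_mod_cast hd
        exact mul_neg_of_pos_of_neg this ha
      rw [if_neg (by omega), max_eq_left hb'.le, max_eq_left ha.le, max_eq_right (by omega)]
      omega
    · rw [ha, mul_zero] at h3
      have h4 := h2 (by omega)
      have h5 := hnn p (by omega)
      rw [ha]
      split_ifs with h
      · rw [max_eq_right h.le]
        simp
        omega
      · have : G.ord p s = 0 := by omega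
        rw [this]
        simp
        omega
    · have hb := hpos p ha
      rw [hb, max_eq_right ha.le, max_eq_left (by omega : -(G.ord p y) ≤ 0)]
      simp
      omega
  have hsum := Finset.sum_le_sum fun p (_ : p ∈ S) => key p
  simp only [Finset.sum_add_distrib] at hsum
  rw [← tot_eq_sum S hSy, ← tot_eq_sum S hSθ, ← h_eq_zeros hy hy1 hy2 S hSy, ← h_eq_sum S hSy,
    ← h_eq_zeros hs hsI hs' S hSs, tot_unit hy hy1 hy2] at hsum
  -- height of `s`
  have hhs : G.h s = d * G.h y := by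
    rw [h_eq_sum S hSs, h_eq_sum S hSy, Finset.mul_sum]
    refine Finset.sum_congr rfl fun p _ => ?_
    rcases lt_or_ge (G.ord p y) 0 with ha | ha
    · rw [hneg p ha, max_eq_right (by omega : 0 ≤ -(G.ord p y)), ← mul_neg, max_eq_right]
      have : 0 ≤ -(G.ord p y) := by omega
      positivity
    · have h5 := hnn p ha
      rw [max_eq_left (by omega), max_eq_left (by omega), mul_zero]
  -- total order of the derivative
  have htθ : G.tot (G.θ y) ≤ G.κ := by
    obtain ⟨z, hz, hz'⟩ := G.Inf_θ y hy1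
    have hz0 : z ≠ 0 := by
      rintro rfl
      exact hθ (by rw [hz', mul_zero])
    rw [hz', tot_mul G.U_ne hz0]
    have h1 : G.tot G.U ≤ G.κ := G.tot_U
    have h2 := tot_nonpos hz0 hz
    omega
  -- the number of zeros
  have hcard : (∑ p ∈ S, (if 0 < G.ord p s then (1 : ℤ) else 0)) = ({p | G.v p s < 1}.ncard : ℤ) := by
    have h1 : {p | G.v p s < 1} = ((S.filter fun p => 0 < G.ord p s : Finset G.Pl) : Set G.Pl) := by
      ext p
      simp only [Set.mem_ofPred_eq, Finset.coe_filter]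
      rw [v_lt_one_iff hs]
      exact ⟨fun h => ⟨hSs p (by omega), h⟩, fun h => h.2⟩
    rw [h1, Set.ncard_coe_finset, Finset.card_filter]
    push_cast
    rfl
  rw [hcard, hhs] at hsum
  omega

end Pool.Agent.Lib.P62g
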