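import Pool.Agent.Lib.P62g.Core
import Pool.Agent.Lib.P62g.Dyn
import Pool.Agent.Lib.P62g.ConstPts

/-!
# Finite invariant sets over function fields, generated case
-/

namespace Pool.Agent.Lib.P62g

open Polynomial IntermediateField Pool.Agent.Lib.P62a0c3

universe u w

theorem core_invariant {F : Type w} {L : Type u} [Field F] [IsAlgClosed F] [CharZero F] [Field L]
    [Algebra F L] (u : L) (hu : Transcendental F u) {n d : ℕ}
    (hpos : 0 < Module.finrank F⟮u⟯ L) (hn : Module.finrank F⟮u⟯ L ≤ n)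
    (hd : 8200 + 32 * n ^ 4 ≤ d) {α β γ δ : L} (hdet : α * δ - β * γ ≠ 0)
    (P : Finset (OnePoint L)) (hP : ∀ p ∈ P, bic α β γ δ d p ∈ P)
    (h1 : ((1 : L) : OnePoint L) ∈ P) (hcard : 2000 * d ≤ P.card)
    (hgen : IntermediateField.adjoin F (insert u {z : L | z ≠ 0 ∧ (z : OnePoint L) ∈ P}) = ⊤) :
    ∃ (s l : L) (α0 β0 γ0 δ0 : F), s ≠ 0 ∧ l ≠ 0 ∧
      α * s ^ d = l * algebraMap F L α0 ∧ β = l * algebraMap F L β0 ∧
      γ * s ^ (d + 1) = l * algebraMap F L γ0 ∧ δ * s = l * algebraMap F L δ0 := by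
  classical
  have hd0 : d ≠ 0 := by omega
  -- the finite nonzero points
  set Q : Finset L := (P.preimage (fun z : L => (z : OnePoint L))
    (OnePoint.coe_injective.injOn)).erase 0 with hQ
  have hmemQ : ∀ z, z ∈ Q ↔ z ≠ 0 ∧ (z : OnePoint L) ∈ P := by
    intro z
    rw [hQ, Finset.mem_erase, Finset.mem_preimage]
  have hQset : (Q : Set L) = {z : L | z ≠ 0 ∧ (z : OnePoint L) ∈ P} := by
    ext z
    exact hmemQ z
  have h0Q : (0 : L) ∉ Q := fun h => ((hmemQ 0).1 h).1 rfl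
  have h1Q : (1 : L) ∈ Q := (hmemQ 1).2 ⟨one_ne_zero, h1⟩
  set W : Finset L := Q ∪ (Q.image fun z => z⁻¹) ∪
    ((Q ×ˢ Q).image fun q => ((q.1 / q.2) ^ d - 1)⁻¹) with hW
  obtain ⟨G, hGW, hGκ⟩ := exists_geo (F := F) u hu hpos hn Q h0Q (by rw [hQset]; exact hgen) W
  have hInf : ∀ z ∈ Q, z ∈ G.Inf := by
    intro z hz
    apply hGW
    rw [hW, Finset.mem_union, Finset.mem_union]
    exact Or.inl (Or.inl hz)
  have hInfi : ∀ z ∈ Q, z⁻¹ ∈ G.Inf := by
    intro z hz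
    apply hGW
    rw [hW, Finset.mem_union, Finset.mem_union]
    exact Or.inl (Or.inr (Finset.mem_image_of_mem _ hz))
  have hInfq : ∀ z ∈ Q, ∀ w ∈ Q, ((z / w) ^ d - 1)⁻¹ ∈ G.Inf := by
    intro z hz w hw
    apply hGW
    rw [hW, Finset.mem_union]
    exact Or.inr (Finset.mem_image.2 ⟨(z, w), Finset.mem_product.2 ⟨hz, hw⟩, rfl⟩)
  have hInfd : ∀ z ∈ Q, ∀ w ∈ Q, z / w ∈ G.Inf := by
    intro z hz w hw
    rw [div_eq_mul_inv]
    exact G.Inf.mul_mem (hInf z hz) (hInfi w hw)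
  have hQne : Q.Nonempty := ⟨1, h1Q⟩
  obtain ⟨⟨x0, y0⟩, hxy, hmax⟩ := Finset.exists_max_image (Q ×ˢ Q)
    (fun q : L × L => G.h (q.2 / q.1)) (hQne.product hQne)
  rw [Finset.mem_product] at hxy
  have hx0Q : x0 ∈ Q := hxy.1
  have hy0Q : y0 ∈ Q := hxy.2
  obtain ⟨hx0, hx0P⟩ := (hmemQ x0).1 hx0Q
  obtain ⟨hy0, hy0P⟩ := (hmemQ y0).1 hy0Q
  set s := x0 with hs
  have hs0 : s ≠ 0 := hx0
  set R := G.h (y0 / s) with hR
  have hR0 : 0 ≤ R := Geo.h_nonneg _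
  have hmax' : ∀ x ∈ Q, ∀ y ∈ Q, G.h (y / x) ≤ R := by
    intro x hx y hy
    exact hmax (x, y) (Finset.mem_product.2 ⟨hx, hy⟩)
  have hκ : (G.κ : ℤ) ≤ ((2 * n ^ 4 : ℕ) : ℤ) * R := by
    apply hGκ R hR0
    intro z hz
    have := hmax' 1 h1Q z hz
    rwa [div_one] at this
  have hdet' : (α * s ^ d) * (δ * s) - β * (γ * s ^ (d + 1)) ≠ 0 := by
    have : (α * s ^ d) * (δ * s) - β * (γ * s ^ (d + 1)) = s ^ (d + 1) * (α * δ - β * γ) := by
      ring
    rw [this]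
    exact mul_ne_zero (pow_ne_zero _ hs0) hdet
  set P' := P.image (sc s) with hP'def
  have hP'card : P'.card = P.card := Finset.card_image_of_injective _ (sc_injective hs0)
  have hP' : ∀ p ∈ P', bic (α * s ^ d) β (γ * s ^ (d + 1)) (δ * s) d p ∈ P' := by
    intro p hp
    obtain ⟨q, hq, rfl⟩ := Finset.mem_image.1 hp
    rw [← sc_bic hs0]
    exact Finset.mem_image_of_mem _ (hP q hq)
  have h1P' : ((1 : L) : OnePoint L) ∈ P' := by
    refine Finset.mem_image.2 ⟨_, hx0P, ?_⟩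
    rw [sc_some, div_self hs0]
  have hmem' : ∀ z : L, (z : OnePoint L) ∈ P' → z ≠ 0 → ∃ w ∈ Q, z = w / s := by
    intro z hz hz0
    obtain ⟨q, hq, hqz⟩ := Finset.mem_image.1 hz
    induction q using OnePoint.rec with
    | infty => rw [sc_infty] at hqz; exact absurd hqz.symm (OnePoint.coe_ne_infty _)
    | coe w =>
      rw [sc_some] at hqz
      have hw : w / s = z := OnePoint.coe_injective hqz
      have hw0 : w ≠ 0 := by
        rintro rfl
        rw [zero_div] at hw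
        exact hz0 hw.symm
      exact ⟨w, (hmemQ w).2 ⟨hw0, hq⟩, hw.symm⟩
  have hle : ∀ z : L, (z : OnePoint L) ∈ P' → z ≠ 0 → G.h z ≤ R := by
    intro z hz hz0
    obtain ⟨w, hw, rfl⟩ := hmem' z hz hz0
    exact hmax' s hx0Q w hw
  have hinf' : ∀ z : L, (z : OnePoint L) ∈ P' → z ≠ 0 → z ∈ G.Inf ∧ z⁻¹ ∈ G.Inf := by
    intro z hz hz0
    obtain ⟨w, hw, rfl⟩ := hmem' z hz hz0
    refine ⟨hInfd w hw s hx0Q, ?_⟩
    rw [inv_div]
    exact hInfd s hx0Q w hw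
  have hRz : R = 0 := by
    by_contra hRne
    have hR1 : 1 ≤ R := by omega
    have h2 := dyn G (C1 := 2 * n ^ 4) (d := d) (by omega) hR1 hκ hdet' P' hP' h1P' hinf' (by
      intro z hz hz0 _
      obtain ⟨w, hw, rfl⟩ := hmem' z hz hz0
      exact hInfq w hw s hx0Q) hle (y0 / s) (Finset.mem_image.2 ⟨_, hy0P, rfl⟩)
      (div_ne_zero hy0 hs0) rfl
    omega
  -- all finite points of `P'` are constants
  have hconst : ∀ z : L, (z : OnePoint L) ∈ P' → ∃ c : F, z = algebraMap F L c := by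
    intro z hz
    by_cases hz0 : z = 0
    · exact ⟨0, by rw [hz0, map_zero]⟩
    · have h3 := hle z hz hz0
      rw [hRz] at h3
      exact Geo.const_of_h_eq_zero (hinf' z hz hz0).1 (le_antisymm h3 (Geo.h_nonneg z))
  obtain ⟨l, α0, β0, γ0, δ0, hl, f1, f2, f3, f4⟩ :=
    const_of_points (F := F) (by omega : 1 ≤ d) hdet' P' hP' hconst (by omega)
  exact ⟨s, l, α0, β0, γ0, δ0, hs0, hl, f1, f2, f3, f4⟩

end Pool.Agent.Lib.P62g
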